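import Mathlib

namespace Pool.Agent.H11.Smyth

open Equiv

/-- A subgroup of small index of the symmetric group contains the alternating group. -/
lemma alternating_le_of_index {α : Type*} [Fintype α] [DecidableEq α] (H : Subgroup (Perm α))
    (hα : 5 ≤ Fintype.card α) (hidx : H.index ≠ 0) (hlt : H.index < Fintype.card α) :
    alternatingGroup α ≤ H := by
  have hα' : 5 ≤ Nat.card α := by rwa [Nat.card_eq_fintype_card]
  have hsimple := alternatingGroup.isSimpleGroup hα'
  have : H.FiniteIndex := ⟨hidx⟩
  have hnt : Nontrivial α := by
    rw [← Fintype.one_lt_card_iff_nontrivial]; omega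
  have h1 : H.normalCore.index ∣ (H.index).factorial := by
    rw [Subgroup.normalCore_eq_ker, Subgroup.index_ker, Subgroup.index_eq_card, ← Nat.card_perm]
    exact Subgroup.card_subgroup_dvd_card (MulAction.toPermHom (Perm α) (Perm α ⧸ H)).range
  have hnorm : ((H.normalCore).subgroupOf (alternatingGroup α)).Normal := inferInstance
  rcases hsimple.eq_bot_or_eq_top_of_normal _ hnorm with h | h
  · exfalso
    have h2 : H.normalCore.relIndex (alternatingGroup α) = Nat.card (alternatingGroup α) := by
      rw [Subgroup.relIndex, h, Subgroup.index_bot]
    have h3 : H.normalCore.relIndex (alternatingGroup α) ∣ H.normalCore.index :=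
      Subgroup.relIndex_dvd_index_of_normal _ _
    have h4 : Nat.card (alternatingGroup α) ∣ (H.index).factorial := by
      rw [← h2]; exact h3.trans h1
    have h5 := Nat.le_of_dvd (Nat.factorial_pos _) h4
    have h6 := two_mul_nat_card_alternatingGroup (α := α)
    rw [Nat.card_perm, Nat.card_eq_fintype_card (α := α)] at h6
    have h7 : (H.index).factorial ≤ (Fintype.card α - 1).factorial :=
      Nat.factorial_le (by omega)
    have h8 : (Fintype.card α).factorial = Fintype.card α * (Fintype.card α - 1).factorial := by
      rw [Nat.mul_factorial_pred (by omega)]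
    have h9 := Nat.factorial_pos (Fintype.card α - 1)
    nlinarith
  · rw [Subgroup.subgroupOf_eq_top] at h
    exact h.trans (Subgroup.normalCore_le H)

end Pool.Agent.H11.Smyth
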