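import Mathlib

open NumberField Polynomial

namespace Pool.Agent.H11.Smyth

/-- Equality in the triangle inequality. -/
lemma eq_of_norm_sum_eq {ι : Type*} (s : Finset ι) (z : ι → ℂ) (r : ι → ℝ)
    (hz : ∀ j ∈ s, ‖z j‖ ≤ r j) (hR : 0 < ∑ j ∈ s, r j) (hn : ‖∑ j ∈ s, z j‖ = ∑ j ∈ s, r j) :
    ∀ j ∈ s, z j = ((r j / ∑ j ∈ s, r j : ℝ) : ℂ) * ∑ j ∈ s, z j := by
  set Z := ∑ j ∈ s, z j with hZ
  set R := ∑ j ∈ s, r j with hRdef
  have hRC : (R : ℂ) ≠ 0 := by exact_mod_cast hR.ne'
  have hsum : ∑ j ∈ s, (z j * (starRingEnd ℂ) Z).re = R * R := by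
    rw [← Complex.re_sum, ← Finset.sum_mul, ← hZ, Complex.mul_conj, Complex.normSq_eq_norm_sq, hn]
    simp [sq]
  have hle : ∀ j ∈ s, (z j * (starRingEnd ℂ) Z).re ≤ r j * R := by
    intro j hj
    calc (z j * (starRingEnd ℂ) Z).re ≤ ‖z j * (starRingEnd ℂ) Z‖ := Complex.re_le_norm _
      _ = ‖z j‖ * R := by rw [norm_mul, Complex.norm_conj, hn]
      _ ≤ r j * R := mul_le_mul_of_nonneg_right (hz j hj) hR.le
  have heq : ∀ j ∈ s, (z j * (starRingEnd ℂ) Z).re = r j * R := by
    have h1 : ∑ j ∈ s, (r j * R - (z j * (starRingEnd ℂ) Z).re) = 0 := by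
      rw [Finset.sum_sub_distrib, hsum, ← Finset.sum_mul]; ring
    have h2 := (Finset.sum_eq_zero_iff_of_nonneg (fun j hj => sub_nonneg.2 (hle j hj))).1 h1
    intro j hj
    linarith [h2 j hj]
  intro j hj
  have h1 : ‖z j * (starRingEnd ℂ) Z‖ ≤ r j * R := by
    rw [norm_mul, Complex.norm_conj, hn]
    exact mul_le_mul_of_nonneg_right (hz j hj) hR.le
  have h2 : z j * (starRingEnd ℂ) Z = ((r j * R : ℝ) : ℂ) := by
    have hre := heq j hj
    have hnn : 0 ≤ r j * R := le_trans (norm_nonneg _) h1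
    have h3 : ‖z j * (starRingEnd ℂ) Z‖ ^ 2 ≤ (r j * R) ^ 2 := by
      apply pow_le_pow_left₀ (norm_nonneg _) h1
    rw [← Complex.normSq_eq_norm_sq, Complex.normSq_apply, hre] at h3
    have him : (z j * (starRingEnd ℂ) Z).im = 0 := by nlinarith
    apply Complex.ext
    · rw [hre]; simp
    · rw [him]; simp
  have h4 : z j * (starRingEnd ℂ) Z * Z = ((r j * R : ℝ) : ℂ) * Z := by rw [h2]
  have h5 : (starRingEnd ℂ) Z * Z = (R : ℂ) ^ 2 := by
    rw [mul_comm, Complex.mul_conj, Complex.normSq_eq_norm_sq, hn]; push_cast; ring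
  rw [mul_assoc, h5] at h4
  push_cast at h4 ⊢
  field_simp
  have h6 : (R : ℂ) * (z j * R) = R * (r j * Z) := by linear_combination h4
  exact mul_left_cancel₀ hRC h6

section

variable {K Ω : Type*} [Field K] [Field Ω] [Algebra K Ω]

/-- relations among conjugates with a prescribed entry -/
lemma moved [Normal K Ω] {n : ℕ} (a : Fin n → K) (α : Fin n → Ω)
    (hconj : ∀ i j, minpoly K (α i) = minpoly K (α j))
    (hsum : ∑ i, algebraMap K Ω (a i) * α i = 0) (i : Fin n) (γ : Ω)
    (hγ : minpoly K γ = minpoly K (α i)) :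
    ∃ β : Fin n → Ω, β i = γ ∧ (∀ j, minpoly K (β j) = minpoly K (α i)) ∧
      ∑ i, algebraMap K Ω (a i) * β i = 0 := by
  obtain ⟨g, hg⟩ := (Normal.minpoly_eq_iff_mem_orbit Ω).mp hγ
  refine ⟨fun j => g (α j), hg, ?_, ?_⟩
  · intro j
    rw [minpoly.algEquiv_eq g, hconj j i]
  · have h1 := congrArg g hsum
    rw [map_sum, map_zero] at h1
    rw [← h1]
    apply Finset.sum_congr rfl
    intro j _
    rw [map_mul, AlgEquiv.commutes]

end

section arch

variable {K Ω : Type*} [Field K] [NumberField K] [Field Ω] [CharZero Ω] [IsAlgClosed Ω]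
  [Algebra K Ω] [Algebra.IsAlgebraic K Ω]

/-- The archimedean half of the necessary condition, with the equality case. -/
theorem arch_or_roots {n : ℕ} (a : Fin n → K) (α : Fin n → Ω) (hα : ∀ i, α i ≠ 0)
    (hconj : ∀ i j, minpoly K (α i) = minpoly K (α j))
    (hsum : ∑ i, algebraMap K Ω (a i) * α i = 0) (v : InfinitePlace K) (i : Fin n) :
    v (a i) < ∑ j ∈ Finset.univ.erase i, v (a j) ∨
      ∃ ω : Fin n → Ω, (∀ i, ∃ m : ℕ, 0 < m ∧ ω i ^ m = 1) ∧
        ∑ i, algebraMap K Ω (a i) * ω i = 0 := by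
  classical
  have : IsAlgClosure K Ω := ⟨inferInstance, inferInstance⟩
  have hnormal : Normal K Ω := IsAlgClosure.normal K Ω
  by_cases hlt : v (a i) < ∑ j ∈ Finset.univ.erase i, v (a j)
  · exact Or.inl hlt
  right
  push Not at hlt
  let _ : Algebra K ℂ := v.embedding.toAlgebra
  let φ : Ω →ₐ[K] ℂ := IsAlgClosed.lift
  have hφ : ∀ x : K, ‖φ (algebraMap K Ω x)‖ = v x := by
    intro x
    rw [AlgHom.commutes]
    exact InfinitePlace.norm_embedding_eq v x
  -- the conjugates
  let S : Finset Ω := ((minpoly K (α i)).aroots Ω).toFinset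
  have hint : IsIntegral K (α i) := Algebra.IsIntegral.isIntegral _
  have hS : ∀ γ, γ ∈ S ↔ minpoly K γ = minpoly K (α i) := by
    intro γ
    simp only [S, Multiset.mem_toFinset, mem_aroots]
    constructor
    · rintro ⟨-, h⟩
      exact (minpoly.eq_of_irreducible_of_monic (minpoly.irreducible hint) h
        (minpoly.monic hint)).symm
    · intro h
      refine ⟨minpoly.ne_zero hint, ?_⟩
      rw [← h]; exact minpoly.aeval K γ
  have hSne : S.Nonempty := ⟨α i, (hS _).2 rfl⟩
  have hS0 : ∀ γ ∈ S, γ ≠ 0 := by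
    intro γ hγ h0
    rw [hS] at hγ
    obtain ⟨g, hg⟩ := (Normal.minpoly_eq_iff_mem_orbit Ω).mp hγ
    have h1 : g (α i) = γ := hg
    rw [h0] at h1
    exact hα i ((map_eq_zero g).1 h1)
  obtain ⟨γ0, hγ0, hmax⟩ := S.exists_max_image (fun γ => ‖φ γ‖) hSne
  set m := ‖φ γ0‖ with hm
  have hm0 : 0 < m := by
    rw [hm, norm_pos_iff]
    intro h
    exact hS0 γ0 hγ0 ((map_eq_zero φ).1 h)
  -- the key step
  have key : ∀ γ, minpoly K γ = minpoly K (α i) → ‖φ γ‖ = m →
      ∃ β : Fin n → Ω, β i = γ ∧ (∀ j, minpoly K (β j) = minpoly K (α i)) ∧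
        ∑ i, algebraMap K Ω (a i) * β i = 0 ∧
        ∀ j ∈ Finset.univ.erase i, φ (algebraMap K Ω (a j)) * φ (β j) * (v (a i) : ℂ) =
          - (v (a j) : ℂ) * (φ (algebraMap K Ω (a i)) * φ γ) := by
    intro γ hγ hγm
    obtain ⟨β, h1, h2, h3⟩ := moved a α hconj hsum i γ hγ
    refine ⟨β, h1, h2, h3, ?_⟩
    have h4 : ∑ j ∈ Finset.univ.erase i, (-(φ (algebraMap K Ω (a j)) * φ (β j))) =
        φ (algebraMap K Ω (a i)) * φ γ := by
      have h5 := congrArg φ h3
      rw [map_sum, map_zero, ← Finset.add_sum_erase _ _ (Finset.mem_univ i)] at h5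
      simp only [map_mul] at h5
      rw [h1] at h5
      rw [Finset.sum_neg_distrib]
      linear_combination -h5
    have hle : ∀ j ∈ Finset.univ.erase i, ‖-(φ (algebraMap K Ω (a j)) * φ (β j))‖ ≤ v (a j) * m := by
      intro j _
      rw [norm_neg, norm_mul, hφ]
      exact mul_le_mul_of_nonneg_left (hmax _ ((hS _).2 (h2 j))) (apply_nonneg v _)
    have hnorm : ‖∑ j ∈ Finset.univ.erase i, (-(φ (algebraMap K Ω (a j)) * φ (β j)))‖ =
        v (a i) * m := by
      rw [h4, norm_mul, hφ, hγm]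
    have hge : ∑ j ∈ Finset.univ.erase i, v (a j) * m ≤ v (a i) * m := by
      rw [← Finset.sum_mul]
      exact mul_le_mul_of_nonneg_right hlt hm0.le
    have hle2 : v (a i) * m ≤ ∑ j ∈ Finset.univ.erase i, v (a j) * m := by
      rw [← hnorm]
      exact (norm_sum_le _ _).trans (Finset.sum_le_sum hle)
    have heq : v (a i) * m = ∑ j ∈ Finset.univ.erase i, v (a j) * m := le_antisymm hle2 hge
    rcases (apply_nonneg v (a i)).eq_or_lt with h0 | h0
    · -- all vanish
      intro j hj
      have hz : ∑ j ∈ Finset.univ.erase i, v (a j) * m = 0 := by rw [← heq, ← h0, zero_mul]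
      have hj0 := (Finset.sum_eq_zero_iff_of_nonneg
        (fun j _ => mul_nonneg (apply_nonneg v _) hm0.le)).1 hz j hj
      have hj1 : v (a j) = 0 := by
        rcases mul_eq_zero.1 hj0 with h | h
        · exact h
        · exact absurd h hm0.ne'
      rw [← h0, hj1]; simp
    · have hR : 0 < ∑ j ∈ Finset.univ.erase i, v (a j) * m := by
        rw [← heq]; positivity
      have h6 := eq_of_norm_sum_eq _ _ _ hle hR (by rw [hnorm, heq])
      intro j hj
      have h7 := h6 j hj
      rw [h4, ← heq] at h7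
      have hvi : (v (a i) : ℂ) ≠ 0 := by exact_mod_cast h0.ne'
      have hmC : (m : ℂ) ≠ 0 := by exact_mod_cast hm0.ne'
      push_cast at h7
      field_simp at h7
      linear_combination -h7
  obtain ⟨β, h1, h2, h3, h4⟩ := key γ0 ((hS _).1 hγ0) rfl
  by_cases hai : a i = 0
  · -- every coefficient vanishes
    have hall : ∀ j, a j = 0 := by
      intro j
      by_cases hj : j = i
      · rw [hj]; exact hai
      · have h5 : ∑ j ∈ Finset.univ.erase i, v (a j) = 0 := by
          apply le_antisymm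
          · rw [hai, map_zero] at hlt; exact hlt
          · exact Finset.sum_nonneg (fun j _ => apply_nonneg v _)
        have h6 := (Finset.sum_eq_zero_iff_of_nonneg (fun j _ => apply_nonneg v _)).1 h5 j
          (Finset.mem_erase.2 ⟨hj, Finset.mem_univ _⟩)
        exact (map_eq_zero v).1 h6
    refine ⟨fun _ => 1, fun _ => ⟨1, one_pos, one_pow 1⟩, ?_⟩
    simp [hall]
  have hvi : 0 < v (a i) := by
    rw [lt_iff_le_and_ne]
    exact ⟨apply_nonneg v _, fun h => hai ((map_eq_zero v).1 h.symm)⟩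
  have hviC : (v (a i) : ℂ) ≠ 0 := by exact_mod_cast hvi.ne'
  have hφai : φ (algebraMap K Ω (a i)) ≠ 0 := by
    rw [← norm_pos_iff, hφ]; exact hvi
  -- roots of unity
  have hroot : ∀ j, j ≠ i → a j ≠ 0 → ∃ k : ℕ, 0 < k ∧ (β j / γ0) ^ k = 1 := by
    intro j hji haj
    have hjm : j ∈ Finset.univ.erase i := Finset.mem_erase.2 ⟨hji, Finset.mem_univ _⟩
    set ω := β j / γ0 with hω
    have hγ00 := hS0 γ0 hγ0
    have hφaj : φ (algebraMap K Ω (a j)) ≠ 0 := by
      rw [Ne, map_eq_zero, map_eq_zero]; exact haj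
    have hvj : 0 < v (a j) := by
      rw [lt_iff_le_and_ne]
      exact ⟨apply_nonneg v _, fun h => haj ((map_eq_zero v).1 h.symm)⟩
    have hvjC : (v (a j) : ℂ) ≠ 0 := by exact_mod_cast hvj.ne'
    -- the ratio does not depend on the conjugate
    have hφγ0 : φ γ0 ≠ 0 := by rw [Ne, map_eq_zero]; exact hγ00
    have hφω : φ (algebraMap K Ω (a j)) * φ ω * (v (a i) : ℂ) =
          - (v (a j) : ℂ) * φ (algebraMap K Ω (a i)) := by
      rw [hω, map_div₀]
      field_simp
      linear_combination h4 j hjm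
    have hstep : ∀ γ, minpoly K γ = minpoly K (α i) → ‖φ γ‖ = m →
        minpoly K (ω * γ) = minpoly K (α i) ∧ ‖φ (ω * γ)‖ = m := by
      intro γ hγ hγm
      obtain ⟨β', h1', h2', -, h4'⟩ := key γ hγ hγm
      have h5 := h4' j hjm
      have h6 : φ (β' j) = φ (ω * γ) := by
        rw [map_mul]
        have h7 : φ (algebraMap K Ω (a j)) * (v (a i) : ℂ) * φ (β' j) =
            φ (algebraMap K Ω (a j)) * (v (a i) : ℂ) * (φ ω * φ γ) := by
          linear_combination h5 - φ γ * hφω
        exact mul_left_cancel₀ (mul_ne_zero hφaj hviC) h7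
      have h7 : β' j = ω * γ := φ.toRingHom.injective h6
      refine ⟨by rw [← h7]; exact h2' j, ?_⟩
      rw [← h6]
      have h8 := congrArg norm h5
      rw [norm_mul, norm_mul, norm_mul, norm_neg, norm_mul, hφ, hφ, hγm, Complex.norm_real,
        Complex.norm_real, Real.norm_of_nonneg hvi.le, Real.norm_of_nonneg hvj.le] at h8
      have h9 : v (a j) * v (a i) * ‖φ (β' j)‖ = v (a j) * v (a i) * m := by linarith
      exact mul_left_cancel₀ (mul_pos hvj hvi).ne' h9
    have hpow : ∀ k : ℕ, ω ^ k * γ0 ∈ S := by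
      intro k
      have : minpoly K (ω ^ k * γ0) = minpoly K (α i) ∧ ‖φ (ω ^ k * γ0)‖ = m := by
        induction k with
        | zero => simpa using ⟨(hS _).1 hγ0, rfl⟩
        | succ k ih =>
          have := hstep _ ih.1 ih.2
          rw [pow_succ', mul_assoc]
          exact this
      exact (hS _).2 this.1
    have hω0 : ω ≠ 0 := by
      intro h
      have h5 := hpow 1
      rw [pow_one, h, zero_mul] at h5
      exact hS0 _ h5 rfl
    obtain ⟨k, l, hkl, heq⟩ := Finite.exists_ne_map_eq_of_infinite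
      (fun k : ℕ => (⟨ω ^ k * γ0, hpow k⟩ : S))
    have heq' : ω ^ k = ω ^ l := by
      have := congrArg Subtype.val heq
      simp only at this
      exact mul_right_cancel₀ hγ00 this
    have aux : ∀ k l : ℕ, k < l → ω ^ k = ω ^ l → ∃ t : ℕ, 0 < t ∧ ω ^ t = 1 := by
      intro k l hkl h
      refine ⟨l - k, by omega, ?_⟩
      have h5 : ω ^ k * ω ^ (l - k) = ω ^ k * 1 := by
        rw [← pow_add, mul_one, h]; congr 1; omega
      exact mul_left_cancel₀ (pow_ne_zero _ hω0) h5
    rcases lt_or_gt_of_ne hkl with h | h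
    · exact aux k l h heq'
    · exact aux l k h heq'.symm
  refine ⟨fun j => if j ≠ i ∧ a j = 0 then 1 else β j / γ0, ?_, ?_⟩
  · intro j
    beta_reduce
    by_cases hj : j ≠ i ∧ a j = 0
    · rw [if_pos hj]; exact ⟨1, one_pos, one_pow 1⟩
    · rw [if_neg hj]
      by_cases hji : j = i
      · rw [hji, h1, div_self (hS0 γ0 hγ0)]; exact ⟨1, one_pos, one_pow 1⟩
      · exact hroot j hji (fun h => hj ⟨hji, h⟩)
  · have h5 : ∀ j, algebraMap K Ω (a j) * (if j ≠ i ∧ a j = 0 then 1 else β j / γ0) =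
        algebraMap K Ω (a j) * β j / γ0 := by
      intro j
      by_cases hj : j ≠ i ∧ a j = 0
      · rw [if_pos hj, hj.2]; simp
      · rw [if_neg hj]; ring
    rw [Finset.sum_congr rfl (fun j _ => h5 j), ← Finset.sum_div, h3, zero_div]

end arch

section nonarch

variable {K Ω : Type*} [Field K] [Field Ω] [Algebra K Ω] [Normal K Ω]

/-- The nonarchimedean half of the necessary condition. -/
theorem nonarch {n : ℕ} {Γ : Type*} [LinearOrderedCommGroupWithZero Γ] (v : Valuation K Γ)
    (a : Fin n → K) (α : Fin n → Ω) (hα : ∀ i, α i ≠ 0)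
    (hconj : ∀ i j, minpoly K (α i) = minpoly K (α j))
    (hsum : ∑ i, algebraMap K Ω (a i) * α i = 0) (i : Fin n) (hex : ∃ j, j ≠ i) :
    ∃ j, j ≠ i ∧ v (a i) ≤ v (a j) := by
  classical
  by_contra hcon
  push Not at hcon
  have hai : a i ≠ 0 := by
    intro h
    obtain ⟨j, hj⟩ := hex
    have := hcon j hj
    rw [h, map_zero] at this
    exact not_lt_zero' this
  have hvai : v (a i) ≠ 0 := (Valuation.ne_zero_iff v).2 hai
  let S : Finset Ω := ((minpoly K (α i)).aroots Ω).toFinset
  have hint : IsIntegral K (α i) := Normal.isIntegral inferInstance _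
  have hS : ∀ γ, γ ∈ S ↔ minpoly K γ = minpoly K (α i) := by
    intro γ
    simp only [S, Multiset.mem_toFinset, mem_aroots]
    constructor
    · rintro ⟨-, h⟩
      exact (minpoly.eq_of_irreducible_of_monic (minpoly.irreducible hint) h
        (minpoly.monic hint)).symm
    · intro h
      refine ⟨minpoly.ne_zero hint, ?_⟩
      rw [← h]; exact minpoly.aeval K γ
  have hch : ∀ γ : S, ∃ β : Fin n → S, (β i = γ) ∧ ∑ j, algebraMap K Ω (a j) * (β j : Ω) = 0 := by
    intro γ
    obtain ⟨β, h1, h2, h3⟩ := moved a α hconj hsum i (γ : Ω) ((hS _).1 γ.2)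
    exact ⟨fun j => ⟨β j, (hS _).2 (h2 j)⟩, Subtype.ext h1, h3⟩
  choose β hβi hβs using hch
  -- the matrix
  let b : Fin n → K := fun j => -(a j / a i)
  have hb : ∀ j, j ≠ i → v (b j) < 1 := by
    intro j hj
    simp only [b, Valuation.map_neg, map_div₀]
    rw [div_lt_one₀ (zero_lt_iff.2 hvai)]
    exact hcon j hj
  let B : Matrix S S K := fun γ δ => ∑ j ∈ Finset.univ.erase i, if β γ j = δ then b j else 0
  have hB : ∀ γ δ, v (B γ δ) < 1 := by
    intro γ δ
    apply Valuation.map_sum_lt v one_ne_zero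
    intro j hj
    split_ifs
    · exact hb j (Finset.ne_of_mem_erase hj)
    · rw [map_zero]; exact zero_lt_one
  -- the determinant is nonzero
  have hdet : (1 - B).det ≠ 0 := by
    let R := v.valuationSubring
    let B' : Matrix S S R := fun γ δ => ⟨B γ δ, (hB γ δ).le⟩
    have h1 : (1 - B) = (algebraMap R K).mapMatrix (1 - B') := by
      rw [map_sub, map_one]
      congr 1
    have h2 : ((IsLocalRing.residue R).mapMatrix (1 - B')) = 1 := by
      rw [map_sub, map_one]
      have : (IsLocalRing.residue R).mapMatrix B' = 0 := by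
        ext γ δ
        simp only [RingHom.mapMatrix_apply, Matrix.map_apply, Matrix.zero_apply]
        rw [IsLocalRing.residue_eq_zero_iff, ValuationSubring.valuation_lt_one_iff,
          ← Valuation.isEquiv_iff_val_lt_one.1 (Valuation.isEquiv_valuation_valuationSubring v)]
        exact hB γ δ
      rw [this, sub_zero]
    rw [h1, ← RingHom.map_det]
    intro h3
    have h4 : (1 - B').det = 0 := (IsFractionRing.injective R K) (by rw [h3, map_zero])
    have h5 : IsLocalRing.residue R (1 - B').det = 1 := by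
      rw [RingHom.map_det, h2, Matrix.det_one]
    rw [h4, map_zero] at h5
    exact zero_ne_one h5
  -- the kernel vector
  have hker : ((1 - B).map (algebraMap K Ω)).mulVec (fun γ : S => (γ : Ω)) = 0 := by
    funext γ
    have h1 : ((1 - B).map (algebraMap K Ω)).mulVec (fun γ : S => (γ : Ω)) γ =
        (γ : Ω) - ∑ j ∈ Finset.univ.erase i, algebraMap K Ω (b j) * (β γ j : Ω) := by
      simp only [Matrix.mulVec, dotProduct, Matrix.map_apply, Matrix.sub_apply, map_sub, sub_mul]
      rw [Finset.sum_sub_distrib]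
      congr 1
      · rw [Finset.sum_eq_single γ]
        · simp
        · intro δ _ hδ
          rw [Matrix.one_apply_ne (Ne.symm hδ)]; simp
        · intro h; exact absurd (Finset.mem_univ γ) h
      · simp only [B, map_sum, Finset.sum_mul]
        rw [Finset.sum_comm]
        apply Finset.sum_congr rfl
        intro j _
        rw [Finset.sum_eq_single (β γ j)]
        · rw [if_pos rfl]
        · intro δ _ hδ
          rw [if_neg (Ne.symm hδ)]; simp
        · intro h; exact absurd (Finset.mem_univ _) h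
    rw [h1]
    have h2 := hβs γ
    rw [← Finset.add_sum_erase _ _ (Finset.mem_univ i), hβi γ] at h2
    have h3 : ∑ j ∈ Finset.univ.erase i, algebraMap K Ω (b j) * (β γ j : Ω) =
        -(algebraMap K Ω (a i))⁻¹ * ∑ j ∈ Finset.univ.erase i, algebraMap K Ω (a j) * (β γ j : Ω) := by
      rw [Finset.mul_sum]
      apply Finset.sum_congr rfl
      intro j _
      simp only [b, map_neg, map_div₀]
      ring
    rw [h3]
    have hai' : algebraMap K Ω (a i) ≠ 0 := by
      rw [Ne, map_eq_zero]; exact hai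
    have h4 : ∑ j ∈ Finset.univ.erase i, algebraMap K Ω (a j) * (β γ j : Ω) =
        - (algebraMap K Ω (a i) * (γ : Ω)) := by linear_combination h2
    rw [h4]
    simp only [Pi.zero_apply]
    field_simp
    ring
  have hdet' : ((1 - B).map (algebraMap K Ω)).det ≠ 0 := by
    have : ((1 - B).map (algebraMap K Ω)).det = algebraMap K Ω (1 - B).det := by
      rw [RingHom.map_det]; rfl
    rw [this, Ne, map_eq_zero]
    exact hdet
  have hzero := Matrix.eq_zero_of_mulVec_eq_zero hdet' hker
  have := congrFun hzero ⟨α i, (hS _).2 rfl⟩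
  exact hα i this

end nonarch

end Pool.Agent.H11.Smyth
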