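import Mathlib

set_option autoImplicit false

namespace Pool.Agent.H11.Smyth

open Real Filter Topology

lemma poly_exp_bound (M : ℕ) (x τ : ℝ) (hx : 0 ≤ x) (hτ : 0 < τ) (hτ1 : τ ≤ 1) :
    (1 + x) ^ M * Real.exp (-τ * x) ≤
      (2 / τ) ^ M * (M.factorial : ℝ) * Real.exp 1 * Real.exp (-(τ / 2) * x) := by
  have h1 := Real.pow_div_factorial_le_exp (τ * (1 + x) / 2) (by positivity) M
  have hM : 0 < (M.factorial : ℝ) := by positivity
  rw [div_le_iff₀ hM] at h1
  have h2 : (1 + x) ^ M = (2 / τ) ^ M * (τ * (1 + x) / 2) ^ M := by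
    rw [← mul_pow]; congr 1; field_simp
  have h3 : Real.exp (τ * (1 + x) / 2) * Real.exp (-τ * x) ≤
      Real.exp 1 * Real.exp (-(τ / 2) * x) := by
    rw [← Real.exp_add, ← Real.exp_add]
    apply Real.exp_le_exp.mpr
    nlinarith
  calc (1 + x) ^ M * Real.exp (-τ * x)
      = (2 / τ) ^ M * ((τ * (1 + x) / 2) ^ M) * Real.exp (-τ * x) := by rw [h2]
    _ ≤ (2 / τ) ^ M * (Real.exp (τ * (1 + x) / 2) * (M.factorial : ℝ)) * Real.exp (-τ * x) := by
        gcongr
    _ = (2 / τ) ^ M * (M.factorial : ℝ) *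
          (Real.exp (τ * (1 + x) / 2) * Real.exp (-τ * x)) := by ring
    _ ≤ (2 / τ) ^ M * (M.factorial : ℝ) * (Real.exp 1 * Real.exp (-(τ / 2) * x)) := by gcongr
    _ = _ := by ring

theorem gauss_abstract {Λ T : Type*} [Nonempty T] {n : ℕ} (X : Fin n → Λ → T) (Q : Λ → ℝ)
    (N : T → ℝ)
    (hN : ∀ t, 0 ≤ N t) (A c : ℝ) (M : ℕ) (hA : 0 ≤ A) (hc : 0 < c)
    (hT : ∀ τ : ℝ, 0 < τ → τ ≤ 1 → Summable (fun t => Real.exp (-τ * N t)) ∧
      ∑' t, Real.exp (-τ * N t) ≤ A / τ ^ M)
    (C : Fin n → ℝ → ℝ) (hC : ∀ i τ, 0 < τ → τ ≤ 1 → 0 < C i τ ∧ C i τ ≤ A / τ ^ M)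
    (hs : ∀ τ : ℝ, 0 < τ → τ ≤ 1 → Summable (fun g : Λ => Real.exp (-τ * Q g)))
    (hfib : ∀ i τ, 0 < τ → τ ≤ 1 →
      ∀ t, |∑' g : {g // X i g = t}, Real.exp (-τ * Q g) - C i τ * Real.exp (-τ * N t)| ≤
        A * Real.exp (-c / τ) * (C i τ * Real.exp (-τ * N t)))
    (f : Fin n → T → ℝ) (hf0 : ∀ t, ∑ i, f i t = 0)
    (B : ℝ) (hB : 0 ≤ B) (hgrow : ∀ i t, |f i t| ≤ B * (1 + N t) ^ M)
    (hpos : ∀ g, 0 ≤ ∑ i, f i (X i g)) :
    ∀ g, ∑ i, f i (X i g) = 0 := by
  intro g0
  set K : ℝ := (2 : ℝ) ^ M * (M.factorial : ℝ) * Real.exp 1 * (A * 2 ^ M) with hK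
  have hKnn : 0 ≤ K := by positivity
  -- bound for weighted sums
  have hW : ∀ τ : ℝ, 0 < τ → τ ≤ 1 →
      Summable (fun t => (1 + N t) ^ M * Real.exp (-τ * N t)) ∧
      ∑' t, (1 + N t) ^ M * Real.exp (-τ * N t) ≤ K / τ ^ (2 * M) := by
    intro τ hτ hτ1
    obtain ⟨h1, h2⟩ := hT (τ / 2) (by positivity) (by linarith)
    have hsum := h1.mul_left ((2 / τ) ^ M * (M.factorial : ℝ) * Real.exp 1)
    have hle : ∀ t, (1 + N t) ^ M * Real.exp (-τ * N t) ≤
        (2 / τ) ^ M * (M.factorial : ℝ) * Real.exp 1 * Real.exp (-(τ / 2) * N t) :=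
      fun t => poly_exp_bound M (N t) τ (hN t) hτ hτ1
    have hs1 : Summable (fun t => (1 + N t) ^ M * Real.exp (-τ * N t)) := by
      refine Summable.of_nonneg_of_le (fun t => ?_) hle hsum
      have := hN t
      positivity
    refine ⟨hs1, ?_⟩
    calc ∑' t, (1 + N t) ^ M * Real.exp (-τ * N t)
        ≤ ∑' t, (2 / τ) ^ M * (M.factorial : ℝ) * Real.exp 1 * Real.exp (-(τ / 2) * N t) :=
          Summable.tsum_le_tsum hle hs1 hsum
      _ = (2 / τ) ^ M * (M.factorial : ℝ) * Real.exp 1 * ∑' t, Real.exp (-(τ / 2) * N t) :=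
          tsum_mul_left
      _ ≤ (2 / τ) ^ M * (M.factorial : ℝ) * Real.exp 1 * (A / (τ / 2) ^ M) := by gcongr
      _ = K / τ ^ (2 * M) := by
          rw [hK, two_mul M, pow_add, div_pow, div_pow]
          field_simp
  set K2 : ℝ := ∑ _i : Fin n, 2 * A * (A * (B * K)) with hK2
  have hK2nn : 0 ≤ K2 := Finset.sum_nonneg fun i _ => by positivity
  -- main estimate
  have main : ∀ τ : ℝ, 0 < τ → τ ≤ 1 →
      (∑ i, f i (X i g0)) * Real.exp (-τ * Q g0) ≤ K2 * Real.exp (-c / τ) / τ ^ (3 * M) := by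
    intro τ hτ hτ1
    set ε := A * Real.exp (-c / τ) with hε
    have hεnn : 0 ≤ ε := by positivity
    set m : Fin n → T → ℝ := fun i t => ∑' g : {g // X i g = t}, Real.exp (-τ * Q g) with hm
    have hmnn : ∀ i t, 0 ≤ m i t := fun i t => tsum_nonneg fun g => (Real.exp_pos _).le
    set E0 : T → ℝ := fun t => Real.exp (-τ * N t) with hE0
    have hE0pos : ∀ t, 0 < E0 t := fun t => Real.exp_pos _
    obtain ⟨hTs, hTle⟩ := hT τ hτ hτ1
    set Tτ := ∑' t, E0 t with hTτ
    have hTpos : 0 < Tτ := by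
      obtain ⟨t0⟩ := (inferInstance : Nonempty T)
      exact hTs.tsum_pos (fun t => (hE0pos t).le) t0 (hE0pos t0)
    set Z := ∑' g : Λ, Real.exp (-τ * Q g) with hZ
    have hsΛ := hs τ hτ hτ1
    -- sums over fibres
    have hsig : ∀ i, Summable (fun p : Σ t, {g // X i g = t} => Real.exp (-τ * Q p.2)) := by
      intro i
      rw [← (Equiv.sigmaFiberEquiv (X i)).symm.summable_iff]
      exact hsΛ
    have hsigfib : ∀ i t, Summable (fun g : {g // X i g = t} => Real.exp (-τ * Q g)) := by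
      intro i t
      exact hsΛ.subtype _
    have hmsum : ∀ i, Summable (m i) := fun i => (hsig i).sigma
    have hZm : ∀ i, Z = ∑' t, m i t := by
      intro i
      rw [hZ, ← (Equiv.sigmaFiberEquiv (X i)).tsum_eq, (show Summable (fun p : Σ t, {g // X i g = t} => Real.exp (-τ * Q ((Equiv.sigmaFiberEquiv (X i)) p))) from hsig i).tsum_sigma]
      rfl
    have hfib' : ∀ i t, |m i t - C i τ * E0 t| ≤ ε * (C i τ * E0 t) := fun i t =>
      hfib i τ hτ hτ1 t
    have hZC : ∀ i, |Z / Tτ - C i τ| ≤ ε * C i τ := by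
      intro i
      have hCs : Summable (fun t => C i τ * E0 t) := hTs.mul_left _
      have h1 : |Z - C i τ * Tτ| ≤ ε * (C i τ * Tτ) := by
        rw [hZm i, hTτ, ← tsum_mul_left, ← tsum_mul_left, ← (hmsum i).tsum_sub hCs]
        have := tsum_of_norm_bounded (hCs.mul_left ε).hasSum
          (f := fun t => m i t - C i τ * E0 t) (fun t => by
            rw [Real.norm_eq_abs]; exact hfib' i t)
        rw [Real.norm_eq_abs] at this
        exact this
      have h2 : Z / Tτ - C i τ = (Z - C i τ * Tτ) / Tτ := by field_simp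
      rw [h2, abs_div, abs_of_pos hTpos, div_le_iff₀ hTpos]
      linarith
    have hdiff : ∀ i t, |m i t - Z / Tτ * E0 t| ≤ 2 * ε * C i τ * E0 t := by
      intro i t
      have h1 : m i t - Z / Tτ * E0 t = (m i t - C i τ * E0 t) - (Z / Tτ - C i τ) * E0 t := by
        ring
      rw [h1]
      refine (abs_sub _ _).trans ?_
      rw [abs_mul, abs_of_pos (hE0pos t)]
      have h2 := hfib' i t
      have h3 := mul_le_mul_of_nonneg_right (hZC i) (hE0pos t).le
      nlinarith
    -- summability of f * stuff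
    obtain ⟨hWs, hWle⟩ := hW τ hτ hτ1
    have hfE : ∀ i, Summable (fun t => f i t * E0 t) := by
      intro i
      refine Summable.of_norm_bounded (hWs.mul_left B) fun t => ?_
      rw [norm_mul, Real.norm_eq_abs, Real.norm_eq_abs, abs_of_pos (hE0pos t), ← mul_assoc]
      exact mul_le_mul_of_nonneg_right (hgrow i t) (hE0pos t).le
    have hfm : ∀ i, Summable (fun t => |f i t| * m i t) := by
      intro i
      have hCp := (hC i τ hτ hτ1).1
      refine Summable.of_nonneg_of_le (fun t => mul_nonneg (abs_nonneg _) (hmnn i t)) (fun t => ?_)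
        (hWs.mul_left (B * ((1 + ε) * C i τ)))
      have h1 : m i t ≤ (1 + ε) * C i τ * E0 t := by
        have := (abs_le.mp (hfib' i t)).2
        nlinarith
      calc |f i t| * m i t ≤ (B * (1 + N t) ^ M) * ((1 + ε) * C i τ * E0 t) := by
            apply mul_le_mul (hgrow i t) h1 (hmnn i t)
            have := hN t
            positivity
        _ = _ := by rw [hE0]; ring
    have hfms : ∀ i, Summable (fun t => f i t * m i t) := by
      intro i
      refine Summable.of_norm ?_
      convert hfm i using 2 with t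
      rw [norm_mul, Real.norm_eq_abs, Real.norm_eq_abs, abs_of_nonneg (hmnn i t)]
    -- sum over Λ
    have hΛabs : ∀ i, Summable (fun g : Λ => f i (X i g) * Real.exp (-τ * Q g)) := by
      intro i
      rw [← (Equiv.sigmaFiberEquiv (X i)).summable_iff]
      refine Summable.of_norm ?_
      rw [summable_sigma_of_nonneg (fun _ => norm_nonneg _)]
      have hEq : ∀ (t : T) (g : {g // X i g = t}),
          ‖((fun g : Λ => f i (X i g) * Real.exp (-τ * Q g)) ∘ (Equiv.sigmaFiberEquiv (X i)))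
            ⟨t, g⟩‖ = |f i t| * Real.exp (-τ * Q g) := by
        rintro t ⟨g, rfl⟩
        simp only [Function.comp_apply, Equiv.sigmaFiberEquiv, Equiv.coe_fn_mk]
        rw [norm_mul, Real.norm_eq_abs, Real.norm_eq_abs, abs_of_pos (Real.exp_pos _)]
      constructor
      · intro t
        simp_rw [hEq t]
        exact (hsigfib i t).mul_left _
      · simp_rw [hEq, tsum_mul_left]
        exact hfm i
    have hΛsum : ∀ i, ∑' g : Λ, f i (X i g) * Real.exp (-τ * Q g) = ∑' t, f i t * m i t := by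
      intro i
      have hsg := (Equiv.sigmaFiberEquiv (X i)).summable_iff.mpr (hΛabs i)
      rw [← (Equiv.sigmaFiberEquiv (X i)).tsum_eq]
      have hEq : ∀ (p : Σ t, {g // X i g = t}),
          f i (X i (Equiv.sigmaFiberEquiv (X i) p)) *
            Real.exp (-τ * Q (Equiv.sigmaFiberEquiv (X i) p)) =
          f i p.1 * Real.exp (-τ * Q p.2) := by
        rintro ⟨t, g, rfl⟩
        rfl
      have hsg' : Summable (fun p : Σ t, {g // X i g = t} => f i p.1 * Real.exp (-τ * Q p.2)) := by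
        convert hsg using 2 with p
        exact (hEq p).symm
      rw [tsum_congr hEq, hsg'.tsum_sigma]
      refine tsum_congr fun t => ?_
      show ∑' (c : {g // X i g = t}), f i t * Real.exp (-τ * Q c) = f i t * m i t
      rw [tsum_mul_left]
    have hFsum : Summable (fun g : Λ => (∑ i, f i (X i g)) * Real.exp (-τ * Q g)) := by
      simp_rw [Finset.sum_mul]
      exact summable_sum fun i _ => hΛabs i
    have hle1 : (∑ i, f i (X i g0)) * Real.exp (-τ * Q g0) ≤
        ∑' g : Λ, (∑ i, f i (X i g)) * Real.exp (-τ * Q g) :=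
      hFsum.le_tsum g0 (fun g _ => mul_nonneg (hpos g) (Real.exp_pos _).le)
    have heq2 : ∑' g : Λ, (∑ i, f i (X i g)) * Real.exp (-τ * Q g) = ∑ i, ∑' t, f i t * m i t := by
      simp_rw [Finset.sum_mul]
      rw [Summable.tsum_finsetSum fun i _ => hΛabs i]
      exact Finset.sum_congr rfl fun i _ => hΛsum i
    have hzero : ∑ i, ∑' t, f i t * (Z / Tτ * E0 t) = 0 := by
      have h1 : ∀ i, ∑' t, f i t * (Z / Tτ * E0 t) = Z / Tτ * ∑' t, f i t * E0 t := by
        intro i
        rw [← tsum_mul_left]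
        exact tsum_congr fun t => by ring
      simp_rw [h1]
      rw [← Finset.mul_sum, ← Summable.tsum_finsetSum fun i _ => hfE i]
      have h2 : ∀ t, ∑ i, f i t * E0 t = 0 := fun t => by
        rw [← Finset.sum_mul, hf0, zero_mul]
      simp_rw [h2, tsum_zero, mul_zero]
    have hbd : ∀ i, ∑' t, f i t * m i t - ∑' t, f i t * (Z / Tτ * E0 t) ≤
        2 * A * (A * (B * K)) * Real.exp (-c / τ) / τ ^ (3 * M) := by
      intro i
      have hCp := (hC i τ hτ hτ1)
      have hs2 : Summable (fun t => f i t * (Z / Tτ * E0 t)) := by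
        refine ((hfE i).mul_left (Z / Tτ)).congr fun t => ?_
        show Z / Tτ * (f i t * E0 t) = _
        ring
      rw [← (hfms i).tsum_sub hs2]
      have hb : ∀ t, f i t * m i t - f i t * (Z / Tτ * E0 t) ≤
          2 * ε * C i τ * B * ((1 + N t) ^ M * E0 t) := by
        intro t
        rw [← mul_sub]
        refine (le_abs_self _).trans ?_
        rw [abs_mul]
        calc |f i t| * |m i t - Z / Tτ * E0 t| ≤ (B * (1 + N t) ^ M) * (2 * ε * C i τ * E0 t) := by
              apply mul_le_mul (hgrow i t) (hdiff i t) (abs_nonneg _)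
              have := hN t
              positivity
          _ = _ := by ring
      calc ∑' t, (f i t * m i t - f i t * (Z / Tτ * E0 t))
          ≤ ∑' t, 2 * ε * C i τ * B * ((1 + N t) ^ M * E0 t) :=
            Summable.tsum_le_tsum hb ((hfms i).sub hs2) (hWs.mul_left _)
        _ = 2 * ε * C i τ * B * ∑' t, (1 + N t) ^ M * E0 t := tsum_mul_left
        _ ≤ 2 * ε * (A / τ ^ M) * B * (K / τ ^ (2 * M)) := by
            have h1 : 0 ≤ ∑' t, (1 + N t) ^ M * E0 t :=
              tsum_nonneg fun t => by have := hN t; positivity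
            have h2 := hCp.2
            gcongr
        _ = _ := by
            rw [hε]
            have : τ ^ (3 * M) = τ ^ M * τ ^ (2 * M) := by rw [← pow_add]; congr 1; ring
            rw [this]
            field_simp
    calc _ ≤ ∑ i, ∑' t, f i t * m i t := hle1.trans heq2.le
      _ = ∑ i, (∑' t, f i t * m i t - ∑' t, f i t * (Z / Tτ * E0 t)) := by
          rw [Finset.sum_sub_distrib, hzero, sub_zero]
      _ ≤ ∑ _i : Fin n, 2 * A * (A * (B * K)) * Real.exp (-c / τ) / τ ^ (3 * M) :=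
          Finset.sum_le_sum fun i _ => hbd i
      _ = _ := by rw [hK2, Finset.sum_mul, Finset.sum_div]
  -- limit
  have hlim1 : Tendsto (fun y : ℝ => K2 * Real.exp (-c / y⁻¹) / y⁻¹ ^ (3 * M)) atTop (𝓝 0) := by
    have h1 := tendsto_rpow_mul_exp_neg_mul_atTop_nhds_zero ((3 * M : ℕ) : ℝ) c hc
    have h2 := h1.const_mul K2
    rw [mul_zero] at h2
    refine h2.congr' ?_
    filter_upwards [eventually_gt_atTop 0] with y hy
    rw [Real.rpow_natCast, div_inv_eq_mul, inv_pow, div_inv_eq_mul]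
    ring
  have hlim2 : Tendsto (fun y : ℝ => (∑ i, f i (X i g0)) * Real.exp (-y⁻¹ * Q g0)) atTop
      (𝓝 ((∑ i, f i (X i g0)) * Real.exp (-0 * Q g0))) := by
    apply Tendsto.const_mul
    apply (Real.continuous_exp.tendsto _).comp
    apply Tendsto.mul_const
    exact (tendsto_inv_atTop_zero).neg
  have hle : (∑ i, f i (X i g0)) * Real.exp (-0 * Q g0) ≤ 0 := by
    refine le_of_tendsto_of_tendsto hlim2 hlim1 ?_
    filter_upwards [eventually_ge_atTop 1] with y hy
    have hy0 : 0 < y := by linarith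
    exact main y⁻¹ (inv_pos.mpr hy0) (inv_le_one_of_one_le₀ hy)
  rw [neg_zero, zero_mul, Real.exp_zero, mul_one] at hle
  exact le_antisymm hle (hpos g0)

end Pool.Agent.H11.Smyth
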