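import Mathlib

set_option autoImplicit false

namespace Pool.Agent.H11.Smyth

open NumberField Module

variable (K : Type*) [Field K] [NumberField K]

/-- index type of the integral basis -/
abbrev BI := Free.ChooseBasisIndex ℤ (𝓞 K)

/-- the integral basis, as elements of `K` -/
noncomputable def om (b : BI K) : K := ((RingOfIntegers.basis K b : 𝓞 K) : K)

lemma latticeBasis_apply' (b : BI K) (φ : K →+* ℂ) :
    canonicalEmbedding.latticeBasis K b φ = φ (om K b) := by
  rw [canonicalEmbedding.latticeBasis_apply, canonicalEmbedding.apply_at, integralBasis_apply]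
  rfl

lemma li0C (c : BI K → ℂ) (h : ∀ φ : K →+* ℂ, ∑ b, c b * φ (om K b) = 0) : c = 0 := by
  have hli := (canonicalEmbedding.latticeBasis K).linearIndependent
  rw [Fintype.linearIndependent_iff] at hli
  funext b
  refine hli c ?_ b
  funext φ
  rw [Finset.sum_apply]
  simp only [Pi.smul_apply, smul_eq_mul, Pi.zero_apply]
  simp_rw [latticeBasis_apply']
  exact h φ

lemma li0 (c : BI K → ℝ) (h : ∀ φ : K →+* ℂ, ∑ b, (c b : ℂ) * φ (om K b) = 0) : c = 0 := by
  have := li0C K (fun b => (c b : ℂ)) h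
  funext b
  have hb := congrFun this b
  simpa using hb

/-- real structure lemma -/
lemma real_structure (z : (K →+* ℂ) → ℂ)
    (hz : ∀ φ, z (ComplexEmbedding.conjugate φ) = (starRingEnd ℂ) (z φ)) :
    ∃ c : BI K → ℝ, ∀ φ, z φ = ∑ b, (c b : ℂ) * φ (om K b) := by
  set c := (canonicalEmbedding.latticeBasis K).equivFun z with hc
  have h1 : ∀ φ, z φ = ∑ b, c b * φ (om K b) := by
    intro φ
    conv_lhs => rw [← (canonicalEmbedding.latticeBasis K).sum_equivFun z]
    rw [Finset.sum_apply]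
    simp only [Pi.smul_apply, smul_eq_mul]
    simp_rw [latticeBasis_apply']
    rfl
  have h2 : ∀ φ, z φ = ∑ b, (starRingEnd ℂ) (c b) * φ (om K b) := by
    intro φ
    have h3 := hz (φ)
    have h4 : z φ = (starRingEnd ℂ) (z (ComplexEmbedding.conjugate φ)) := by
      rw [h3]; simp
    rw [h4, h1, map_sum]
    refine Finset.sum_congr rfl fun b _ => ?_
    rw [map_mul, ComplexEmbedding.conjugate_coe_eq]
    simp
  have h5 : (fun b => c b - (starRingEnd ℂ) (c b)) = 0 := by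
    apply li0C K
    intro φ
    simp only [sub_mul, Finset.sum_sub_distrib]
    rw [← h1, ← h2, sub_self]
  refine ⟨fun b => (c b).re, fun φ => ?_⟩
  rw [h1 φ]
  refine Finset.sum_congr rfl fun b _ => ?_
  have := congrFun h5 b
  simp only [Pi.zero_apply, sub_eq_zero] at this
  rw [Complex.conj_eq_iff_re.mp this.symm]

/-- every point with real structure is approximated by elements of `K` -/
lemma approx (z : (K →+* ℂ) → ℂ)
    (hz : ∀ φ, z (ComplexEmbedding.conjugate φ) = (starRingEnd ℂ) (z φ)) (ε : ℝ) (hε : 0 < ε) :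
    ∃ x : K, ∀ φ : K →+* ℂ, ‖φ x - z φ‖ < ε := by
  obtain ⟨c, hc⟩ := real_structure K z hz
  set S : ℝ := 1 + ∑ φ : K →+* ℂ, ∑ b, ‖φ (om K b)‖ with hS
  have hSpos : 0 < S := by positivity
  have hq : ∀ b, ∃ q : ℚ, |(q : ℝ) - c b| < ε / S := by
    intro b
    obtain ⟨q, hq⟩ := exists_rat_near (c b) (ε := ε / S) (by positivity)
    exact ⟨q, by rw [abs_sub_comm]; exact hq⟩
  choose q hq using hq
  refine ⟨∑ b, (q b : K) * om K b, fun φ => ?_⟩
  rw [map_sum, hc φ, ← Finset.sum_sub_distrib]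
  have h1 : ∀ b, φ ((q b : K) * om K b) - (c b : ℂ) * φ (om K b) =
      (((q b : ℝ) - c b : ℝ) : ℂ) * φ (om K b) := by
    intro b
    rw [map_mul, map_ratCast]
    push_cast
    ring
  simp_rw [h1]
  calc ‖∑ b, (((q b : ℝ) - c b : ℝ) : ℂ) * φ (om K b)‖
      ≤ ∑ b, ‖(((q b : ℝ) - c b : ℝ) : ℂ) * φ (om K b)‖ := norm_sum_le _ _
    _ ≤ ∑ b, (ε / S) * ‖φ (om K b)‖ := by
        refine Finset.sum_le_sum fun b _ => ?_
        rw [norm_mul, Complex.norm_real, Real.norm_eq_abs]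
        exact mul_le_mul_of_nonneg_right (hq b).le (norm_nonneg _)
    _ = (ε / S) * ∑ b, ‖φ (om K b)‖ := by rw [Finset.mul_sum]
    _ ≤ (ε / S) * (S - 1) := by
        apply mul_le_mul_of_nonneg_left _ (by positivity)
        rw [hS, add_sub_cancel_left]
        exact Finset.single_le_sum (f := fun φ : K →+* ℂ => ∑ b, ‖φ (om K b)‖)
          (fun φ _ => Finset.sum_nonneg fun b _ => norm_nonneg _) (Finset.mem_univ φ)
    _ < (ε / S) * S := by
        apply mul_lt_mul_of_pos_left _ (by positivity)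
        linarith
    _ = ε := by field_simp

/-- rounding lemma -/
lemma rounding : ∃ B : ℝ, 0 ≤ B ∧ ∀ x : K, ∃ m : 𝓞 K, ∀ φ : K →+* ℂ, ‖φ x - φ (m : K)‖ ≤ B := by
  refine ⟨∑ φ : K →+* ℂ, ∑ b, ‖φ (om K b)‖, by positivity, fun x => ?_⟩
  set q := (integralBasis K).equivFun x with hq
  have hx : x = ∑ b, (q b) • integralBasis K b := ((integralBasis K).sum_equivFun x).symm
  have hom : ∀ b, integralBasis K b = om K b := fun b => integralBasis_apply K b
  refine ⟨∑ b, (⌊q b⌋ : ℤ) • RingOfIntegers.basis K b, fun φ => ?_⟩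
  have hm : (((∑ b, (⌊q b⌋ : ℤ) • RingOfIntegers.basis K b : 𝓞 K)) : K) =
      ∑ b, ((⌊q b⌋ : ℤ) : K) * om K b := by
    rw [RingOfIntegers.coe_eq_algebraMap, map_sum]
    refine Finset.sum_congr rfl fun b _ => ?_
    rw [zsmul_eq_mul, map_mul, map_intCast]
    rfl
  have hx2 : x = ∑ b, ((q b : ℚ) : K) * om K b := by
    conv_lhs => rw [hx]
    refine Finset.sum_congr rfl fun b _ => ?_
    rw [hom, Algebra.smul_def, eq_ratCast]
  rw [hm]
  conv_lhs => rw [hx2]
  rw [map_sum, map_sum, ← Finset.sum_sub_distrib]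
  have h1 : ∀ b, φ (((q b : ℚ) : K) * om K b) - φ (((⌊q b⌋ : ℤ) : K) * om K b) =
      (((q b : ℝ) - (⌊q b⌋ : ℝ) : ℝ) : ℂ) * φ (om K b) := by
    intro b
    rw [map_mul, map_ratCast, map_mul, map_intCast]
    push_cast
    ring
  simp_rw [h1]
  calc ‖∑ b, (((q b : ℝ) - (⌊q b⌋ : ℝ) : ℝ) : ℂ) * φ (om K b)‖
      ≤ ∑ b, ‖(((q b : ℝ) - (⌊q b⌋ : ℝ) : ℝ) : ℂ) * φ (om K b)‖ := norm_sum_le _ _
    _ ≤ ∑ b, ‖φ (om K b)‖ := by
        refine Finset.sum_le_sum fun b _ => ?_
        rw [norm_mul, Complex.norm_real, Real.norm_eq_abs]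
        have h2 : |(q b : ℝ) - (⌊q b⌋ : ℝ)| ≤ 1 := by
          have h3 : (⌊q b⌋ : ℚ) ≤ q b := Int.floor_le _
          have h4 : q b < (⌊q b⌋ : ℚ) + 1 := Int.lt_floor_add_one _
          have h3' : (⌊q b⌋ : ℝ) ≤ q b := by exact_mod_cast h3
          have h4' : (q b : ℝ) < (⌊q b⌋ : ℝ) + 1 := by exact_mod_cast h4
          rw [abs_le]; constructor <;> linarith
        nlinarith [norm_nonneg (φ (om K b))]
    _ ≤ _ := Finset.single_le_sum (f := fun φ : K →+* ℂ => ∑ b, ‖φ (om K b)‖)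
          (fun φ _ => Finset.sum_nonneg fun b _ => norm_nonneg _) (Finset.mem_univ φ)

end Pool.Agent.H11.Smyth
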