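import Mathlib

set_option autoImplicit false

namespace Pool.Agent.H11.Smyth

open Real

lemma summable_gauss_shift {c : ℝ} (hc : 0 < c) (b : ℝ) :
    Summable (fun x : ℤ => Real.exp (-c * ((x : ℝ) + b) ^ 2)) := by
  have h1 : Summable (fun n : ℤ => jacobiTheta₂_term n (c * b * Complex.I / π) (c * Complex.I / π)) := by
    rw [summable_jacobiTheta₂_term_iff]
    have : ((c : ℂ) * Complex.I / π).im = c / π := by
      have : ((c : ℂ) * Complex.I / π) = ((c / π : ℝ) : ℂ) * Complex.I := by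
        push_cast; ring
      rw [this]; simp
    rw [this]; positivity
  have h2 := (h1.mul_left (Complex.exp (-c * b ^ 2)))
  have h3 : (fun x : ℤ => ((Real.exp (-c * ((x : ℝ) + b) ^ 2) : ℝ) : ℂ)) =
      fun n : ℤ => Complex.exp (-c * b ^ 2) *
        jacobiTheta₂_term n (c * b * Complex.I / π) (c * Complex.I / π) := by
    funext n
    rw [jacobiTheta₂_term, ← Complex.exp_add]
    push_cast
    congr 1
    have hpi : (π : ℂ) ≠ 0 := by exact_mod_cast Real.pi_ne_zero
    field_simp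
    have hI : Complex.I ^ 2 = -1 := Complex.I_sq
    linear_combination (-(2 * c * b * n) - c * n ^ 2) * hI
  rw [← h3] at h2
  exact_mod_cast Complex.summable_ofReal.mp h2

lemma theta1 (c0 : ℝ) (hc0 : 0 < c0) :
    ∃ A : ℝ, 0 ≤ A ∧ ∀ c b : ℝ, 0 < c → c ≤ c0 →
      |∑' x : ℤ, Real.exp (-c * ((x : ℝ) + b) ^ 2) - √(π / c)| ≤
        A * Real.exp (-π ^ 2 / c) * √(π / c) := by
  refine ⟨∑' n : ℤ, Real.exp (-(π ^ 2 / c0) * ((n : ℝ) + 0) ^ 2) * Real.exp (π ^ 2 / c0),
    tsum_nonneg fun n => by positivity, fun c b hc hcc => ?_⟩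
  set a : ℂ := ((π / c : ℝ) : ℂ) with ha
  have hapos : 0 < π / c := by positivity
  have key := Complex.tsum_exp_neg_quadratic (a := a) (by rw [ha, Complex.ofReal_re]; exact hapos)
    (-Complex.I * b)
  have hcne : (c : ℂ) ≠ 0 := by exact_mod_cast hc.ne'
  have hpi : (π : ℂ) ≠ 0 := by exact_mod_cast Real.pi_ne_zero
  have hR : ∀ n : ℤ, Complex.exp (-π / a * (n + Complex.I * (-Complex.I * b)) ^ 2) =
      ((Real.exp (-c * ((n : ℝ) + b) ^ 2) : ℝ) : ℂ) := by
    intro n
    push_cast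
    congr 1
    rw [ha]
    push_cast
    have hI : Complex.I ^ 2 = -1 := Complex.I_sq
    have : Complex.I * (-Complex.I * b) = b := by linear_combination (-b : ℂ) * hI
    rw [this]
    field_simp
  have hsq : a ^ (1 / 2 : ℂ) = ((√(π / c) : ℝ) : ℂ) := by
    rw [ha, Real.sqrt_eq_rpow, Complex.ofReal_cpow hapos.le]
    norm_num
  have hsqpos : 0 < √(π / c) := Real.sqrt_pos.mpr hapos
  set L : ℤ → ℂ := fun n => Complex.exp (-π * a * n ^ 2 + 2 * π * (-Complex.I * b) * n) with hL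
  have hLnorm : ∀ n, ‖L n‖ = Real.exp (-(π ^ 2 / c) * ((n : ℝ) + 0) ^ 2) := by
    intro n
    rw [hL, Complex.norm_exp]
    congr 1
    rw [ha]
    have : (-π * ((π / c : ℝ) : ℂ) * n ^ 2 + 2 * π * (-Complex.I * b) * n) =
      ((-(π ^ 2 / c) * ((n : ℝ) + 0) ^ 2 : ℝ) : ℂ) + ((-2 * π * b * n : ℝ) : ℂ) * Complex.I := by
      push_cast; ring
    rw [this, Complex.add_re, Complex.ofReal_re, Complex.re_ofReal_mul, Complex.I_re, mul_zero,
      add_zero]
  have hLs : Summable L := by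
    apply Summable.of_norm
    simp_rw [hLnorm]
    exact summable_gauss_shift (by positivity) 0
  have hkey : (((∑' x : ℤ, Real.exp (-c * ((x : ℝ) + b) ^ 2) : ℝ)) : ℂ) =
      ((√(π / c) : ℝ) : ℂ) * ∑' n, L n := by
    have h1 : (∑' n : ℤ, Complex.exp (-π / a * (n + Complex.I * (-Complex.I * b)) ^ 2)) =
        (((∑' x : ℤ, Real.exp (-c * ((x : ℝ) + b) ^ 2) : ℝ)) : ℂ) := by
      rw [Complex.ofReal_tsum]
      exact tsum_congr hR
    rw [h1, hsq] at key
    have hne : ((√(π / c) : ℝ) : ℂ) ≠ 0 := by exact_mod_cast hsqpos.ne'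
    rw [hL, key]
    field_simp
  have hL0 : L 0 = 1 := by simp [hL]
  have hsplit : ∑' n, L n = 1 + ∑' n, (if n = 0 then 0 else L n) := by
    rw [hLs.tsum_eq_add_tsum_ite 0, hL0]
  have hbound : ‖∑' n, (if n = 0 then 0 else L n)‖ ≤
      (∑' n : ℤ, Real.exp (-(π ^ 2 / c0) * ((n : ℝ) + 0) ^ 2) * Real.exp (π ^ 2 / c0)) *
        Real.exp (-π ^ 2 / c) := by
    have hsum0 : Summable (fun n : ℤ => Real.exp (-(π ^ 2 / c0) * ((n : ℝ) + 0) ^ 2) *
        Real.exp (π ^ 2 / c0)) :=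
      (summable_gauss_shift (by positivity) 0).mul_right _
    rw [← tsum_mul_right]
    refine tsum_of_norm_bounded (hsum0.mul_right _).hasSum ?_
    intro n
    by_cases hn : n = 0
    · simp only [hn, if_true, norm_zero]; positivity
    · rw [if_neg hn, hLnorm, ← Real.exp_add, ← Real.exp_add]
      apply Real.exp_le_exp.mpr
      have hn1 : (1 : ℝ) ≤ (n : ℝ) ^ 2 := by
        have : (1 : ℤ) ≤ n ^ 2 := by
          have := pow_pos (abs_pos.mpr hn) 2
          rw [sq_abs] at this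
          omega
        exact_mod_cast this
      have h1 : π ^ 2 / c0 ≤ π ^ 2 / c := by
        apply div_le_div_of_nonneg_left _ hc hcc; positivity
      have h2 : -π ^ 2 / c = -(π ^ 2 / c) := by ring
      rw [h2, add_zero]
      nlinarith
  have hdiff : (((∑' x : ℤ, Real.exp (-c * ((x : ℝ) + b) ^ 2) : ℝ)) : ℂ) - ((√(π / c) : ℝ) : ℂ) =
      ((√(π / c) : ℝ) : ℂ) * ∑' n, (if n = 0 then 0 else L n) := by
    rw [hkey, hsplit]; ring
  have hnorm : |∑' x : ℤ, Real.exp (-c * ((x : ℝ) + b) ^ 2) - √(π / c)| =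
      √(π / c) * ‖∑' n, (if n = 0 then 0 else L n)‖ := by
    rw [← Complex.ofReal_sub] at hdiff
    have := congrArg norm hdiff
    rw [norm_mul, Complex.norm_real, Complex.norm_real, Real.norm_eq_abs, Real.norm_eq_abs,
      abs_of_pos hsqpos] at this
    exact this
  rw [hnorm, mul_comm]
  exact mul_le_mul_of_nonneg_right hbound hsqpos.le

end Pool.Agent.H11.Smyth
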