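import Mathlib
import Pool.Agent.H11.Smyth.Theta1

set_option autoImplicit false

namespace Pool.Agent.H11.Smyth

open Real

variable {E : Type*} [NormedAddCommGroup E] [InnerProductSpace ℝ E]


/-- projection off `w` -/
noncomputable def projOff (w : E) : E →ₗ[ℝ] E :=
  LinearMap.id - (innerSL ℝ w).toLinearMap.smulRight ((‖w‖ ^ 2)⁻¹ • w)

lemma projOff_apply (w v : E) : projOff w v = v - ((inner ℝ (w) (v) : ℝ) / ‖w‖ ^ 2) • w := by
  simp [projOff, smul_smul, div_eq_mul_inv]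

lemma norm_add_smul_sq (w v : E) (hw : w ≠ 0) (s : ℝ) :
    ‖v + s • w‖ ^ 2 = ‖projOff w v‖ ^ 2 + ‖w‖ ^ 2 * (s + (inner ℝ (w) (v) : ℝ) / ‖w‖ ^ 2) ^ 2 := by
  have hw2 : ‖w‖ ^ 2 ≠ 0 := by positivity
  have h1 : v + s • w = projOff w v + (s + (inner ℝ (w) (v) : ℝ) / ‖w‖ ^ 2) • w := by
    rw [projOff_apply, add_smul]; abel
  have h2 : (inner ℝ (projOff w v) (w) : ℝ) = 0 := by
    rw [projOff_apply, inner_sub_left, inner_smul_left, real_inner_self_eq_norm_sq,
      real_inner_comm]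
    simp only [conj_trivial]
    field_simp
    ring
  rw [h1, @norm_add_sq_real, inner_smul_right, h2, norm_smul, mul_pow, Real.norm_eq_abs, sq_abs]
  ring

theorem theta_fin (N : ℕ) : ∀ (w : Fin N → E), LinearIndependent ℝ w →
    ∃ A c : ℝ, 0 ≤ A ∧ 0 < c ∧ ∀ τ : ℝ, 0 < τ → τ ≤ 1 → ∃ C : ℝ, 0 < C ∧ C ≤ A / τ ^ N ∧
      ∀ u p : E, (∀ j, (inner ℝ (w j) (p) : ℝ) = 0) → u - p ∈ Submodule.span ℝ (Set.range w) →
        Summable (fun x : Fin N → ℤ => Real.exp (-τ * ‖u + ∑ j, (x j : ℝ) • w j‖ ^ 2)) ∧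
        |∑' x : Fin N → ℤ, Real.exp (-τ * ‖u + ∑ j, (x j : ℝ) • w j‖ ^ 2) -
          C * Real.exp (-τ * ‖p‖ ^ 2)| ≤
          A * Real.exp (-c / τ) * (C * Real.exp (-τ * ‖p‖ ^ 2)) := by
  induction N with
  | zero =>
    intro w _
    refine ⟨1, 1, zero_le_one, one_pos, fun τ hτ _ => ⟨1, one_pos, by simp, fun u p _ hsp => ?_⟩⟩
    have hup : u = p := by
      have : Set.range w = ∅ := Set.range_eq_empty w
      rw [this, Submodule.span_empty, Submodule.mem_bot] at hsp
      exact sub_eq_zero.mp hsp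
    subst hup
    refine ⟨Summable.of_finite, ?_⟩
    rw [tsum_fintype]
    simp
    positivity
  | succ N ih =>
    intro w hw
    set w0 := w 0 with hw0
    have hw0ne : w0 ≠ 0 := hw.ne_zero 0
    have hn2 : 0 < ‖w0‖ ^ 2 := by positivity
    set w' : Fin N → E := fun j => projOff w0 (w j.succ) with hw'
    have hw'li : LinearIndependent ℝ w' := by
      rw [Fintype.linearIndependent_iff] at hw ⊢
      intro g hg j
      set g' : Fin (N + 1) → ℝ :=
        Fin.cons (-∑ j, g j * ((inner ℝ (w0) (w j.succ) : ℝ) / ‖w0‖ ^ 2)) g with hg'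
      have := hw g' ?_ j.succ
      · simpa [hg'] using this
      · rw [Fin.sum_univ_succ]
        simp only [hg', Fin.cons_zero, Fin.cons_succ]
        rw [← hg]
        simp only [hw', projOff_apply, smul_sub, smul_smul, Finset.sum_sub_distrib, neg_smul,
          Finset.sum_smul]
        rw [← hw0]
        abel
    obtain ⟨A1, c1, hA1, hc1, H1⟩ := ih w' hw'li
    obtain ⟨A2, hA2, H2⟩ := theta1 (‖w0‖ ^ 2) hn2
    set c2 : ℝ := π ^ 2 / ‖w0‖ ^ 2 with hc2
    have hc2pos : 0 < c2 := by positivity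
    set c := min c1 c2 with hc
    have hcpos : 0 < c := lt_min hc1 hc2pos
    refine ⟨A1 + A2 + A1 * A2 + √(π / ‖w0‖ ^ 2) * A1, c, by positivity, hcpos,
      fun τ hτ hτ1 => ?_⟩
    obtain ⟨C1, hC1, hC1le, K1⟩ := H1 τ hτ hτ1
    set cc : ℝ := τ * ‖w0‖ ^ 2 with hcc
    have hccpos : 0 < cc := by positivity
    have hccle : cc ≤ ‖w0‖ ^ 2 := by
      rw [hcc]; nlinarith
    set C2 : ℝ := √(π / cc) with hC2
    have hC2pos : 0 < C2 := Real.sqrt_pos.mpr (by positivity)
    have hC2le : C2 ≤ √(π / ‖w0‖ ^ 2) / τ := by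
      rw [hC2, hcc]
      rw [le_div_iff₀ hτ]
      apply Real.le_sqrt_of_sq_le
      rw [mul_pow, Real.sq_sqrt (by positivity)]
      rw [div_mul_eq_mul_div, div_le_div_iff₀ (by positivity) (by positivity)]
      have : τ ^ 2 ≤ τ := by nlinarith
      have h3 : 0 < π * ‖w0‖ ^ 2 := by positivity
      nlinarith
    refine ⟨C2 * C1, by positivity, ?_, ?_⟩
    · calc C2 * C1 ≤ (√(π / ‖w0‖ ^ 2) / τ) * (A1 / τ ^ N) := by gcongr
        _ = (√(π / ‖w0‖ ^ 2) * A1) / τ ^ (N + 1) := by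
          rw [pow_succ]; field_simp; ring
        _ ≤ _ := by
          gcongr
          nlinarith [mul_nonneg hA1 hA2]
    intro u p hp hup
    set P := projOff w0 with hP
    have hPp : P p = p := by
      rw [hP, projOff_apply, hp 0]; simp
    have hPw0 : P w0 = 0 := by
      rw [hP, projOff_apply, real_inner_self_eq_norm_sq, div_self hn2.ne', one_smul, sub_self]
    have hpw' : ∀ j, (inner ℝ (w' j) (p) : ℝ) = 0 := by
      intro j
      have h0 : (inner ℝ (w0) (p) : ℝ) = 0 := hp 0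
      show (inner ℝ (projOff w0 (w j.succ)) (p) : ℝ) = 0
      rw [projOff_apply, inner_sub_left, inner_smul_left, hp, h0]; simp
    have hPup : P u - p ∈ Submodule.span ℝ (Set.range w') := by
      rw [Submodule.mem_span_range_iff_exists_fun] at hup ⊢
      obtain ⟨g, hg⟩ := hup
      refine ⟨fun j => g j.succ, ?_⟩
      rw [← hPp, ← map_sub, ← hg, map_sum, Fin.sum_univ_succ]
      simp only [map_smul]
      rw [← hw0, hPw0, smul_zero, zero_add]
    obtain ⟨S1, B1⟩ := K1 (P u) p hpw' hPup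
    -- the summand in product form
    set F : (Fin N → ℤ) × ℤ → ℝ := fun q =>
      Real.exp (-τ * ‖P u + ∑ j, (q.1 j : ℝ) • w' j‖ ^ 2) *
        Real.exp (-cc * ((q.2 : ℝ) + (inner ℝ (w0) (u + ∑ j, (q.1 j : ℝ) • w j.succ) : ℝ) / ‖w0‖ ^ 2) ^ 2)
      with hF
    set G : (Fin (N + 1) → ℤ) → ℝ := fun x =>
      Real.exp (-τ * ‖u + ∑ j, (x j : ℝ) • w j‖ ^ 2) with hG
    let e : (Fin N → ℤ) × ℤ ≃ (Fin (N + 1) → ℤ) :=
      (Equiv.prodComm _ _).trans (Fin.consEquiv (fun _ => ℤ))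
    have hGF : ∀ q, G (e q) = F q := by
      intro q
      have he : e q = Fin.cons q.2 q.1 := rfl
      simp only [hG, hF]
      rw [he, Fin.sum_univ_succ]
      simp only [Fin.cons_zero, Fin.cons_succ]
      have h1 : u + ((q.2 : ℝ) • w 0 + ∑ i : Fin N, ((q.1 i : ℤ) : ℝ) • w i.succ) =
        (u + ∑ i : Fin N, ((q.1 i : ℤ) : ℝ) • w i.succ) + (q.2 : ℝ) • w0 := by
        rw [← hw0]; abel
      rw [h1, norm_add_smul_sq w0 _ hw0ne, ← Real.exp_add]
      congr 1
      have h2 : projOff w0 (u + ∑ i : Fin N, ((q.1 i : ℤ) : ℝ) • w i.succ) =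
        P u + ∑ j, (q.1 j : ℝ) • w' j := by
        rw [map_add, map_sum]; simp only [map_smul]; rfl
      rw [h2, hcc]
      ring
    have hinner : ∀ x : Fin N → ℤ, Summable (fun y : ℤ => F (x, y)) := by
      intro x
      simp only [hF]
      exact (summable_gauss_shift hccpos _).mul_left _
    have hinnersum : ∀ x : Fin N → ℤ,
        |∑' y : ℤ, F (x, y) - C2 * Real.exp (-τ * ‖P u + ∑ j, (x j : ℝ) • w' j‖ ^ 2)| ≤
        A2 * Real.exp (-π ^ 2 / cc) * C2 *
          Real.exp (-τ * ‖P u + ∑ j, (x j : ℝ) • w' j‖ ^ 2) := by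
      intro x
      simp only [hF]
      rw [tsum_mul_left]
      have := H2 cc ((inner ℝ (w0) (u + ∑ j, (x j : ℝ) • w j.succ) : ℝ) / ‖w0‖ ^ 2) hccpos hccle
      rw [mul_comm C2, ← mul_sub, abs_mul, abs_of_pos (Real.exp_pos _), mul_comm]
      exact mul_le_mul_of_nonneg_right this (Real.exp_pos _).le
    have hFnn : 0 ≤ F := fun q => by simp only [hF]; positivity
    have houter : Summable (fun x : Fin N → ℤ => ∑' y : ℤ, F (x, y)) := by
      refine Summable.of_nonneg_of_le (fun x => tsum_nonneg fun y => hFnn _) (fun x => ?_)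
        (S1.mul_left (C2 + A2 * Real.exp (-π ^ 2 / cc) * C2))
      have := (abs_le.mp (hinnersum x)).2
      rw [add_mul]
      linarith
    have hFs : Summable F := (summable_prod_of_nonneg hFnn).mpr ⟨hinner, houter⟩
    have hGs : Summable G := by
      rw [← e.summable_iff]
      have : G ∘ e = F := funext hGF
      rw [this]; exact hFs
    refine ⟨hGs, ?_⟩
    have hGF' : ∑' x, G x = ∑' x : Fin N → ℤ, ∑' y : ℤ, F (x, y) := by
      rw [← e.tsum_eq, ← hFs.tsum_prod]
      exact tsum_congr hGF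
    set S := ∑' x : Fin N → ℤ, Real.exp (-τ * ‖P u + ∑ j, (x j : ℝ) • w' j‖ ^ 2) with hS
    set ε1 := A1 * Real.exp (-c1 / τ) with hε1
    set ε2 := A2 * Real.exp (-π ^ 2 / cc) with hε2
    set e0 := Real.exp (-τ * ‖p‖ ^ 2) with he0
    have hε1nn : 0 ≤ ε1 := by positivity
    have hε2nn : 0 ≤ ε2 := by positivity
    have he0pos : 0 < e0 := Real.exp_pos _
    have hstep1 : |∑' x, G x - C2 * S| ≤ ε2 * C2 * S := by
      rw [hGF', hS, ← tsum_mul_left, ← tsum_mul_left, ← Summable.tsum_sub houter (S1.mul_left _)]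
      have := tsum_of_norm_bounded (S1.mul_left (ε2 * C2)).hasSum (f := fun x : Fin N → ℤ =>
        ∑' y : ℤ, F (x, y) - C2 * Real.exp (-τ * ‖P u + ∑ j, (x j : ℝ) • w' j‖ ^ 2))
        (fun x => by rw [Real.norm_eq_abs]; exact hinnersum x)
      rw [Real.norm_eq_abs] at this
      exact this
    have hSle : S ≤ C1 * e0 + ε1 * (C1 * e0) := by
      have := (abs_le.mp B1).2
      linarith
    have hfinal : |∑' x, G x - C2 * C1 * e0| ≤ (ε1 + ε2 + ε1 * ε2) * (C2 * C1 * e0) := by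
      have h1 : ∑' x, G x - C2 * C1 * e0 = (∑' x, G x - C2 * S) + C2 * (S - C1 * e0) := by ring
      rw [h1]
      refine (abs_add_le _ _).trans ?_
      rw [abs_mul, abs_of_pos hC2pos]
      have h2 : ε2 * C2 * S ≤ ε2 * C2 * (C1 * e0 + ε1 * (C1 * e0)) := by gcongr
      have h3 : C2 * |S - C1 * e0| ≤ C2 * (ε1 * (C1 * e0)) := by gcongr
      calc _ ≤ ε2 * C2 * (C1 * e0 + ε1 * (C1 * e0)) + C2 * (ε1 * (C1 * e0)) :=
            add_le_add (hstep1.trans h2) h3
        _ = _ := by ring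
    refine hfinal.trans ?_
    apply mul_le_mul_of_nonneg_right _ (by positivity)
    have hex1 : Real.exp (-c1 / τ) ≤ Real.exp (-c / τ) := by
      apply Real.exp_le_exp.mpr
      rw [div_le_div_iff_of_pos_right hτ]
      linarith [min_le_left c1 c2]
    have hex2 : Real.exp (-π ^ 2 / cc) ≤ Real.exp (-c / τ) := by
      apply Real.exp_le_exp.mpr
      have : -π ^ 2 / cc = -c2 / τ := by
        rw [hc2, hcc]; field_simp
      rw [this, div_le_div_iff_of_pos_right hτ]
      linarith [min_le_right c1 c2]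
    have hex3 : Real.exp (-c / τ) ≤ 1 := by
      rw [Real.exp_le_one_iff]
      apply div_nonpos_of_nonpos_of_nonneg _ hτ.le
      linarith
    set x := Real.exp (-c / τ) with hx
    have hx0 : 0 < x := Real.exp_pos _
    have h1 : ε1 ≤ A1 * x := by rw [hε1]; gcongr
    have h2 : ε2 ≤ A2 * x := by rw [hε2]; gcongr
    have h3 : ε1 * ε2 ≤ A1 * A2 * x := by
      calc ε1 * ε2 ≤ (A1 * x) * (A2 * x) := by gcongr
        _ = A1 * A2 * x * x := by ring
        _ ≤ A1 * A2 * x * 1 := by gcongr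
        _ = _ := by ring
    have h4 : 0 ≤ √(π / ‖w0‖ ^ 2) * A1 * x := by positivity
    nlinarith

end Pool.Agent.H11.Smyth
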