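import Mathlib
import Pool.Agent.H11.Smyth.Theta

set_option autoImplicit false

namespace Pool.Agent.H11.Smyth

open Real

variable {E : Type*} [NormedAddCommGroup E] [InnerProductSpace ℝ E]


theorem theta_basis {ι Λ : Type*} [Fintype ι] [AddCommGroup Λ] (b : Module.Basis ι ℤ Λ)
    (J : Λ →+ E) (hJ : LinearIndependent ℝ (fun i => J (b i))) :
    ∃ (A c : ℝ) (M : ℕ), 0 ≤ A ∧ 0 < c ∧ ∀ τ : ℝ, 0 < τ → τ ≤ 1 → ∃ C : ℝ, 0 < C ∧ C ≤ A / τ ^ M ∧
      ∀ u p : E, (∀ x, (inner ℝ (J x) (p) : ℝ) = 0) → u - p ∈ Submodule.span ℝ (Set.range J) →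
        Summable (fun x : Λ => Real.exp (-τ * ‖u + J x‖ ^ 2)) ∧
        |∑' x : Λ, Real.exp (-τ * ‖u + J x‖ ^ 2) -
          C * Real.exp (-τ * ‖p‖ ^ 2)| ≤
          A * Real.exp (-c / τ) * (C * Real.exp (-τ * ‖p‖ ^ 2)) := by
  classical
  set N := Fintype.card ι with hN
  let e : ι ≃ Fin N := Fintype.equivFin ι
  set w : Fin N → E := fun j => J (b (e.symm j)) with hw
  have hwli : LinearIndependent ℝ w := hJ.comp e.symm e.symm.injective
  obtain ⟨A, c, hA, hc, H⟩ := theta_fin N w hwli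
  refine ⟨A, c, N, hA, hc, fun τ hτ hτ1 => ?_⟩
  obtain ⟨C, hC, hCle, K⟩ := H τ hτ hτ1
  refine ⟨C, hC, hCle, fun u p hp hup => ?_⟩
  let b' := b.reindex e
  let E' : (Fin N → ℤ) ≃ Λ := b'.equivFun.toEquiv.symm
  have hE' : ∀ x : Fin N → ℤ, J (E' x) = ∑ j, (x j : ℝ) • w j := by
    intro x
    have h1 : E' x = ∑ j, x j • b' j := b'.equivFun_symm_apply x
    rw [h1, map_sum]
    refine Finset.sum_congr rfl fun j _ => ?_
    rw [map_zsmul, hw]
    simp [b', Module.Basis.reindex_apply, Int.cast_smul_eq_zsmul]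
  have hspan : Submodule.span ℝ (Set.range J) ≤ Submodule.span ℝ (Set.range w) := by
    rw [Submodule.span_le]
    rintro _ ⟨x, rfl⟩
    rw [← E'.apply_symm_apply x, hE']
    exact Submodule.sum_mem _ fun j _ => Submodule.smul_mem _ _ (Submodule.subset_span ⟨j, rfl⟩)
  obtain ⟨S, B⟩ := K u p (fun j => hp _) (hspan hup)
  constructor
  · rw [← E'.summable_iff]
    convert S using 2 with x
    simp only [Function.comp_apply, hE']
  · rw [← E'.tsum_eq]
    simp_rw [hE']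
    exact B

end Pool.Agent.H11.Smyth
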