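import Mathlib
import Pool.Agent.H11.Smyth.NFBasic
import Pool.Agent.H11.Smyth.ThetaBasis
import Pool.Agent.H11.Smyth.GaussAbs

set_option autoImplicit false

namespace Pool.Agent.H11.Smyth

open NumberField Module Real

variable (K : Type*) [Field K] [NumberField K]

/-- the Euclidean space -/
abbrev EE (κ : Type*) [Fintype κ] := PiLp 2 (fun _ : κ × (K →+* ℂ) => ℂ)

/-- embedding of `κ → 𝓞 K` with weights -/
noncomputable def JJ {κ : Type*} [Fintype κ] (r : κ → (K →+* ℂ) → ℝ) : (κ → 𝓞 K) →+ EE K κ where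
  toFun g := WithLp.toLp 2 (fun p => (r p.1 p.2 : ℂ) * p.2 (g p.1 : K))
  map_zero' := by
    ext p; simp
  map_add' g g' := by
    ext p; simp [mul_add]

lemma JJ_apply {κ : Type*} [Fintype κ] (r : κ → (K →+* ℂ) → ℝ) (g : κ → 𝓞 K)
    (p : κ × (K →+* ℂ)) : JJ K r g p = (r p.1 p.2 : ℂ) * p.2 (g p.1 : K) := rfl

/-- generic linear independence -/
lemma li_pi {κ κ' : Type*} [Fintype κ] [DecidableEq κ] [Fintype κ'] (r : κ' → (K →+* ℂ) → ℝ)
    (inc : κ → κ') (hr : ∀ k φ, r k φ ≠ 0) (J : (κ → 𝓞 K) →+ EE K κ')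
    (hJ : ∀ g k φ, J g (inc k, φ) = (r (inc k) φ : ℂ) * φ (g k : K)) :
    LinearIndependent ℝ (fun i => J (Pi.basis (fun _ : κ => RingOfIntegers.basis K) i)) := by
  rw [Fintype.linearIndependent_iff]
  intro c hc
  rintro ⟨k, b⟩
  have h1 : (fun b => c ⟨k, b⟩) = 0 := by
    apply li0 K
    intro φ
    have h2 := congrArg (fun v : EE K κ' => v (inc k, φ)) hc
    simp only [WithLp.ofLp_sum, Finset.sum_apply, PiLp.smul_apply, hJ, PiLp.zero_apply] at h2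
    rw [Fintype.sum_sigma, Finset.sum_eq_single k] at h2
    · simp only [Pi.basis_apply, Pi.single_eq_same, Complex.real_smul] at h2
      have h3 : ∑ x, (c ⟨k, x⟩ : ℂ) * ((r (inc k) φ : ℂ) * φ ((RingOfIntegers.basis K x : 𝓞 K) : K)) =
        (r (inc k) φ : ℂ) * ∑ b, (c ⟨k, b⟩ : ℂ) * φ (om K b) := by
        rw [Finset.mul_sum]
        refine Finset.sum_congr rfl fun x _ => ?_
        rw [om]; ring
      rw [h3] at h2
      have h4 : (r (inc k) φ : ℂ) ≠ 0 := by exact_mod_cast hr _ _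
      exact (mul_eq_zero.mp h2).resolve_left h4
    · intro k' _ hk'
      refine Finset.sum_eq_zero fun x _ => ?_
      rw [Pi.basis_apply, Pi.single_eq_of_ne (Ne.symm hk')]
      simp
    · intro h; exact absurd (Finset.mem_univ _) h
  exact congrFun h1 b

/-- `N(t)` -/
noncomputable def NN (t : 𝓞 K) : ℝ := ∑ φ : K →+* ℂ, ‖φ (t : K)‖ ^ 2

lemma NN_nonneg (t : 𝓞 K) : 0 ≤ NN K t := Finset.sum_nonneg fun _ _ => by positivity

lemma norm_JJ_sq {κ : Type*} [Fintype κ] (r : κ → (K →+* ℂ) → ℝ) (g : κ → 𝓞 K) :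
    ‖JJ K r g‖ ^ 2 = ∑ k, ∑ φ, (r k φ) ^ 2 * ‖φ (g k : K)‖ ^ 2 := by
  rw [PiLp.norm_sq_eq_of_L2, Fintype.sum_prod_type]
  refine Finset.sum_congr rfl fun k _ => Finset.sum_congr rfl fun φ _ => ?_
  rw [JJ_apply, norm_mul, mul_pow, Complex.norm_real, Real.norm_eq_abs, sq_abs]

lemma theta_T : ∃ (A : ℝ) (M : ℕ), 0 ≤ A ∧ ∀ τ : ℝ, 0 < τ → τ ≤ 1 →
    Summable (fun t => Real.exp (-τ * NN K t)) ∧
      ∑' t, Real.exp (-τ * NN K t) ≤ A / τ ^ M := by
  let r : Unit → (K →+* ℂ) → ℝ := fun _ _ => 1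
  obtain ⟨A, c, M, hA, hc, H⟩ := theta_basis (Pi.basis (fun _ : Unit => RingOfIntegers.basis K))
    (JJ K r) (li_pi K r id (fun _ _ => one_ne_zero) (JJ K r) (fun g k φ => rfl))
  refine ⟨A * (1 + A), M, by positivity, fun τ hτ hτ1 => ?_⟩
  obtain ⟨C, hC, hCle, K1⟩ := H τ hτ hτ1
  obtain ⟨S, B⟩ := K1 0 0 (fun x => inner_zero_right _) (by rw [sub_zero]; exact Submodule.zero_mem _)
  let e : (Unit → 𝓞 K) ≃ 𝓞 K := Equiv.funUnique Unit (𝓞 K)
  have he : ∀ g : Unit → 𝓞 K, ‖(0 : EE K Unit) + JJ K r g‖ ^ 2 = NN K (e g) := by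
    intro g
    rw [zero_add, norm_JJ_sq]
    simp only [r, one_pow, one_mul, Finset.univ_unique, Finset.sum_singleton]
    rfl
  simp_rw [he] at S B
  have S' : Summable (fun t => Real.exp (-τ * NN K t)) := by
    rw [← e.summable_iff]
    exact S
  refine ⟨S', ?_⟩
  rw [← e.tsum_eq]
  have h1 := (abs_le.mp B).2
  have h2 : Real.exp (-c / τ) ≤ 1 := by
    rw [Real.exp_le_one_iff]
    apply div_nonpos_of_nonpos_of_nonneg _ hτ.le
    linarith
  rw [norm_zero] at h1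
  have h3 : Real.exp (-τ * (0:ℝ) ^ 2) = 1 := by simp
  rw [h3, mul_one] at h1
  calc _ ≤ C + A * Real.exp (-c / τ) * C := by linarith
    _ ≤ C + A * 1 * C := by gcongr
    _ = (1 + A) * C := by ring
    _ ≤ (1 + A) * (A / τ ^ M) := by gcongr
    _ = _ := by ring

end Pool.Agent.H11.Smyth
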