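import Mathlib
import Pool.Agent.H11.Smyth.GaussNF

set_option autoImplicit false

namespace Pool.Agent.H11.Smyth

open NumberField Module Real

variable (K : Type*) [Field K] [NumberField K]

/-- kernel parametrisation -/
noncomputable def extK {m : ℕ} (hi : Fin m → 𝓞 K) (ki : Fin m) :
    ({k : Fin m // k ≠ ki} → 𝓞 K) →+ (Fin m → 𝓞 K) where
  toFun g := fun k => if h : k = ki then -∑ k', g k' * hi k' else g ⟨k, h⟩
  map_zero' := by
    ext k; by_cases h : k = ki <;> simp [h]
  map_add' g g' := by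
    ext k
    by_cases h : k = ki
    · simp [h, add_mul, Finset.sum_add_distrib]; ring
    · simp [h]

lemma extK_ne {m : ℕ} (hi : Fin m → 𝓞 K) (ki : Fin m) (g : {k : Fin m // k ≠ ki} → 𝓞 K)
    (k : {k : Fin m // k ≠ ki}) : extK K hi ki g k = g k := by
  simp [extK, k.2]

lemma extK_self {m : ℕ} (hi : Fin m → 𝓞 K) (ki : Fin m) (g : {k : Fin m // k ≠ ki} → 𝓞 K) :
    extK K hi ki g ki = -∑ k', g k' * hi k' := by
  simp [extK]

lemma sum_extK {m : ℕ} (hi : Fin m → 𝓞 K) (ki : Fin m) (h1 : hi ki = 1)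
    (g : {k : Fin m // k ≠ ki} → 𝓞 K) : ∑ k, extK K hi ki g k * hi k = 0 := by
  rw [Fintype.sum_eq_add_sum_subtype_ne _ ki, extK_self, h1]
  simp_rw [extK_ne]
  simp

/-- the fibre equivalence -/
noncomputable def fibEquiv {m : ℕ} (hi : Fin m → 𝓞 K) (ki : Fin m) (h1 : hi ki = 1) (t : 𝓞 K) :
    ({k : Fin m // k ≠ ki} → 𝓞 K) ≃ {g : Fin m → 𝓞 K // ∑ k, g k * hi k = t} where
  toFun g := ⟨Pi.single ki t + extK K hi ki g, by
    have : ∀ k, (Pi.single ki t + extK K hi ki g : Fin m → 𝓞 K) k * hi k =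
      (Pi.single ki t : Fin m → 𝓞 K) k * hi k + extK K hi ki g k * hi k := by
      intro k; rw [Pi.add_apply, add_mul]
    simp_rw [this, Finset.sum_add_distrib, sum_extK K hi ki h1, add_zero]
    rw [Finset.sum_eq_single ki]
    · simp [h1]
    · intro b _ hb; simp [hb]
    · intro h; exact absurd (Finset.mem_univ _) h⟩
  invFun g := fun k => g.1 k
  left_inv g := by
    funext k
    simp only [Pi.add_apply, extK_ne]
    rw [Pi.single_eq_of_ne k.2, zero_add]
  right_inv g := by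
    obtain ⟨g, hg⟩ := g
    apply Subtype.ext
    funext k
    by_cases h : k = ki
    · subst h
      simp only [Pi.add_apply, Pi.single_eq_same, extK_self]
      rw [Fintype.sum_eq_add_sum_subtype_ne _ k, h1, mul_one] at hg
      rw [← hg]; ring
    · simp only [Pi.add_apply]
      rw [Pi.single_eq_of_ne h, zero_add]
      exact extK_ne K hi ki (fun k => g k) ⟨k, h⟩

theorem fiber {m : ℕ} (hi : Fin m → 𝓞 K) (ki : Fin m) (h1 : hi ki = 1)
    (r : Fin m → (K →+* ℂ) → ℝ) (hr : ∀ k φ, 0 < r k φ)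
    (hrc : ∀ k φ, r k (ComplexEmbedding.conjugate φ) = r k φ)
    (hw : ∀ φ : K →+* ℂ, ∑ k, ‖φ (hi k : K)‖ ^ 2 / (r k φ) ^ 2 = 1) :
    ∃ (A c : ℝ) (M : ℕ), 0 ≤ A ∧ 0 < c ∧ ∀ τ : ℝ, 0 < τ → τ ≤ 1 →
      ∃ C : ℝ, 0 < C ∧ C ≤ A / τ ^ M ∧ ∀ t : 𝓞 K,
        |∑' g : {g : Fin m → 𝓞 K // ∑ k, g k * hi k = t},
            Real.exp (-τ * ‖JJ K r (g : Fin m → 𝓞 K)‖ ^ 2) -
          C * Real.exp (-τ * NN K t)| ≤
        A * Real.exp (-c / τ) * (C * Real.exp (-τ * NN K t)) := by
  set J' : ({k : Fin m // k ≠ ki} → 𝓞 K) →+ EE K (Fin m) := (JJ K r).comp (extK K hi ki) with hJ'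
  have hJ'a : ∀ g k φ, J' g ((k : Fin m), φ) =
      (r (k : Fin m) φ : ℂ) * φ ((extK K hi ki g k : 𝓞 K) : K) := fun g k φ => rfl
  have hJ'ne : ∀ g (k : {k : Fin m // k ≠ ki}) φ, J' g ((k : Fin m), φ) =
      (r (k : Fin m) φ : ℂ) * φ (g k : K) := fun g k φ => by
    rw [hJ'a, extK_ne]
  obtain ⟨A, c, M, hA, hc, H⟩ := theta_basis
    (Pi.basis (fun _ : {k : Fin m // k ≠ ki} => RingOfIntegers.basis K)) J'
    (li_pi (κ := {k : Fin m // k ≠ ki}) K r (fun k => (k : Fin m)) (fun k φ => (hr k φ).ne') J'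
      hJ'ne)
  refine ⟨A, c, M, hA, hc, fun τ hτ hτ1 => ?_⟩
  obtain ⟨C, hC, hCle, K1⟩ := H τ hτ hτ1
  refine ⟨C, hC, hCle, fun t => ?_⟩
  set u : EE K (Fin m) := JJ K r (Pi.single ki t) with hu
  set p : EE K (Fin m) := WithLp.toLp 2 (fun q : Fin m × (K →+* ℂ) =>
    (starRingEnd ℂ) (q.2 (hi q.1 : K)) * q.2 (t : K) / (r q.1 q.2 : ℂ)) with hp
  have hpa : ∀ k φ, p (k, φ) = (starRingEnd ℂ) (φ (hi k : K)) * φ (t : K) / (r k φ : ℂ) :=
    fun k φ => rfl
  have hpn : ‖p‖ ^ 2 = NN K t := by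
    rw [PiLp.norm_sq_eq_of_L2, Fintype.sum_prod_type, Finset.sum_comm, NN]
    refine Finset.sum_congr rfl fun φ _ => ?_
    have : ∀ k, ‖p (k, φ)‖ ^ 2 = (‖φ (hi k : K)‖ ^ 2 / (r k φ) ^ 2) * ‖φ (t : K)‖ ^ 2 := by
      intro k
      rw [hpa, norm_div, norm_mul, RCLike.norm_conj, Complex.norm_real, Real.norm_eq_abs, div_pow,
        sq_abs, mul_pow]
      ring
    simp_rw [this]
    rw [← Finset.sum_mul, hw, one_mul]
  have hperp : ∀ x, inner ℝ (J' x) p = 0 := by
    intro x
    rw [PiLp.inner_apply, Fintype.sum_prod_type, Finset.sum_comm]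
    refine Finset.sum_eq_zero fun φ _ => ?_
    have h2 : ∀ k, inner ℝ (J' x (k, φ)) (p (k, φ)) =
        ((starRingEnd ℂ) (φ ((extK K hi ki x k * hi k : 𝓞 K) : K)) * φ (t : K)).re := by
      intro k
      rw [Complex.inner, hJ'a, hpa]
      have hrne : (r k φ : ℂ) ≠ 0 := by exact_mod_cast (hr k φ).ne'
      have hmul : ((extK K hi ki x k * hi k : 𝓞 K) : K) =
        (extK K hi ki x k : K) * (hi k : K) := map_mul (algebraMap (𝓞 K) K) _ _
      congr 1
      rw [hmul, map_mul, Complex.conj_ofReal, map_mul, map_mul]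
      field_simp
    simp_rw [h2]
    rw [← Complex.re_sum, ← Finset.sum_mul, ← map_sum, ← map_sum]
    have h3 : ∑ k, ((extK K hi ki x k * hi k : 𝓞 K) : K) = 0 := by
      have := congrArg (algebraMap (𝓞 K) K) (sum_extK K hi ki h1 x)
      rw [map_sum, map_zero] at this
      exact this
    rw [h3]
    simp
  have hspan : u - p ∈ Submodule.span ℝ (Set.range J') := by
    have hz : ∀ k : {k : Fin m // k ≠ ki}, ∃ c : BI K → ℝ, ∀ φ : K →+* ℂ,
        -((starRingEnd ℂ) (φ (hi k : K)) * φ (t : K) / (r k φ : ℂ) ^ 2) =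
          ∑ b, (c b : ℂ) * φ (om K b) := by
      intro k
      apply real_structure K (fun φ => -((starRingEnd ℂ) (φ (hi k : K)) * φ (t : K) /
        (r k φ : ℂ) ^ 2))
      intro φ
      simp only [map_neg, map_div₀, map_mul, map_pow, Complex.conj_ofReal, hrc,
        ComplexEmbedding.conjugate_coe_eq]
    choose cc hcc using hz
    have hsum : u - p = ∑ k : {k : Fin m // k ≠ ki}, ∑ b, cc k b •
        J' (Pi.single k (RingOfIntegers.basis K b)) := by
      ext ⟨k', φ⟩
      have hsumap : (∑ k : {k : Fin m // k ≠ ki}, ∑ b, cc k b •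
        J' (Pi.single k (RingOfIntegers.basis K b)) : EE K (Fin m)) (k', φ) =
        ∑ k : {k : Fin m // k ≠ ki}, ∑ b, (cc k b : ℂ) *
          J' (Pi.single k (RingOfIntegers.basis K b)) (k', φ) := by
        simp only [WithLp.ofLp_sum, Finset.sum_apply, PiLp.smul_apply, Complex.real_smul]
      rw [hsumap, PiLp.sub_apply, hpa, hu, JJ_apply]
      simp only
      by_cases hk' : k' = ki
      · subst hk'
        rw [Pi.single_eq_same, h1]
        have h4 : ∀ (k : {k : Fin m // k ≠ k'}) (b : BI K),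
            (cc k b : ℂ) * J' (Pi.single k (RingOfIntegers.basis K b)) (k', φ) =
            -((r k' φ : ℂ) * φ (hi k : K)) * ((cc k b : ℂ) * φ (om K b)) := by
          intro k b
          rw [hJ'a, extK_self, Finset.sum_eq_single k]
          · rw [Pi.single_eq_same, RingOfIntegers.coe_eq_algebraMap, map_neg, map_mul, map_neg,
              map_mul]
            rw [om]
            ring
          · intro k2 _ hk2
            rw [Pi.single_eq_of_ne hk2, zero_mul]
          · intro h; exact absurd (Finset.mem_univ _) h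
        simp_rw [h4, ← Finset.mul_sum, ← hcc]
        have h5 : ∀ k : {k : Fin m // k ≠ k'},
            -((r k' φ : ℂ) * φ (hi k : K)) * -((starRingEnd ℂ) (φ (hi k : K)) * φ (t : K) /
              (r k φ : ℂ) ^ 2) =
            (r k' φ : ℂ) * φ (t : K) * ((‖φ (hi k : K)‖ ^ 2 / (r k φ) ^ 2 : ℝ) : ℂ) := by
          intro k
          push_cast
          rw [← Complex.mul_conj']
          ring
        simp_rw [h5]
        rw [← Finset.mul_sum, ← Complex.ofReal_sum]
        have h6 := hw φ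
        rw [Fintype.sum_eq_add_sum_subtype_ne _ k', h1] at h6
        have h7 : ∑ k : {k : Fin m // k ≠ k'}, ‖φ (hi k : K)‖ ^ 2 / (r k φ) ^ 2 =
          1 - 1 / (r k' φ) ^ 2 := by
          have : ‖φ ((1 : 𝓞 K) : K)‖ = 1 := by simp
          rw [this, one_pow] at h6
          linarith
        rw [h7]
        have hrne : (r k' φ : ℂ) ≠ 0 := by exact_mod_cast (hr k' φ).ne'
        simp only [map_one]
        push_cast
        field_simp
      · rw [Pi.single_eq_of_ne hk']
        have h4 : ∀ (k : {k : Fin m // k ≠ ki}) (b : BI K),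
            (cc k b : ℂ) * J' (Pi.single k (RingOfIntegers.basis K b)) (k', φ) =
            if k = ⟨k', hk'⟩ then (r k' φ : ℂ) * ((cc k b : ℂ) * φ (om K b)) else 0 := by
          intro k b
          have := hJ'ne (Pi.single k (RingOfIntegers.basis K b)) ⟨k', hk'⟩ φ
          simp only at this
          rw [this]
          split_ifs with h
          · subst h
            rw [Pi.single_eq_same, om]; ring
          · rw [Pi.single_eq_of_ne (Ne.symm h)]; simp
        simp_rw [h4]
        rw [Finset.sum_eq_single (⟨k', hk'⟩ : {k : Fin m // k ≠ ki})]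
        · simp only [if_true]
          rw [← Finset.mul_sum, ← hcc]
          have hrne : (r k' φ : ℂ) ≠ 0 := by exact_mod_cast (hr k' φ).ne'
          simp only [map_zero, mul_zero, zero_sub]
          field_simp
        · intro k _ hk
          simp [hk]
        · intro h; exact absurd (Finset.mem_univ _) h
    rw [hsum]
    exact Submodule.sum_mem _ fun k _ => Submodule.sum_mem _ fun b _ =>
      Submodule.smul_mem _ _ (Submodule.subset_span ⟨_, rfl⟩)
  obtain ⟨S, B⟩ := K1 u p hperp hspan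
  rw [hpn] at B
  rw [← (fibEquiv K hi ki h1 t).tsum_eq]
  have h8 : ∀ g, JJ K r ((fibEquiv K hi ki h1 t g : {g : Fin m → 𝓞 K // ∑ k, g k * hi k = t}) :
      Fin m → 𝓞 K) = u + J' g := by
    intro g
    show JJ K r (Pi.single ki t + extK K hi ki g) = _
    rw [map_add]; rfl
  simp_rw [h8]
  exact B

end Pool.Agent.H11.Smyth
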