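import Pool.Agent.H11.Smyth.SelmerGal
import Pool.Agent.H11.Smyth.AltIndex

open Polynomial NumberField

namespace Pool.Agent.H11.Smyth

section

variable (K Ω : Type*) [Field K] [NumberField K] [Field Ω] [CharZero Ω] [IsAlgClosed Ω]
  [Algebra K Ω] [Algebra.IsAlgebraic K Ω]

/-- The `K`-automorphisms inside the rational automorphisms. -/
def autK : Subgroup (Ω ≃ₐ[ℚ] Ω) where
  carrier := {g | ∀ x : K, g (algebraMap K Ω x) = algebraMap K Ω x}
  mul_mem' := by
    intro a b ha hb x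
    rw [AlgEquiv.mul_apply, hb, ha]
  one_mem' := by intro x; rfl
  inv_mem' := by
    intro a ha x
    have h1 : a (a⁻¹ (algebraMap K Ω x)) = a (algebraMap K Ω x) := by
      rw [ha x]
      exact AlgEquiv.apply_symm_apply a _
    exact a.injective h1

omit [IsAlgClosed Ω] [Algebra.IsAlgebraic K Ω] in
lemma autK_index_le [IsAlgClosed Ω] [Algebra.IsAlgebraic K Ω] :
    (autK K Ω).index ≠ 0 ∧ (autK K Ω).index ≤ Module.finrank ℚ K := by
  let ι : K →ₐ[ℚ] Ω := (algebraMap K Ω).toRatAlgHom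
  let f : (Ω ≃ₐ[ℚ] Ω) → (K →ₐ[ℚ] Ω) := fun g => (g : Ω →ₐ[ℚ] Ω).comp ι
  have hf : ∀ g h : Ω ≃ₐ[ℚ] Ω, f g = f h ↔ g⁻¹ * h ∈ autK K Ω := by
    intro g h
    constructor
    · intro hfg x
      have h1 : g (algebraMap K Ω x) = h (algebraMap K Ω x) := DFunLike.congr_fun hfg x
      rw [AlgEquiv.mul_apply, ← h1]
      exact AlgEquiv.symm_apply_apply g _
    · intro hm
      apply AlgHom.ext
      intro x
      have h1 := hm x
      rw [AlgEquiv.mul_apply] at h1
      have h2 : g (g⁻¹ (h (algebraMap K Ω x))) = g (algebraMap K Ω x) := by rw [h1]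
      have h3 : g (g⁻¹ (h (algebraMap K Ω x))) = h (algebraMap K Ω x) :=
        AlgEquiv.apply_symm_apply g _
      rw [h3] at h2
      exact h2.symm
  let F : (Ω ≃ₐ[ℚ] Ω) ⧸ autK K Ω → (K →ₐ[ℚ] Ω) :=
    Quotient.lift f (fun g h hgh => (hf g h).2 (QuotientGroup.leftRel_apply.1 hgh))
  have hF : Function.Injective F := by
    intro a b
    induction a using QuotientGroup.induction_on with
    | H g =>
      induction b using QuotientGroup.induction_on with
      | H h =>
        intro hab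
        exact QuotientGroup.eq.2 ((hf g h).1 hab)
  have hfin : Finite ((Ω ≃ₐ[ℚ] Ω) ⧸ autK K Ω) := Finite.of_injective F hF
  constructor
  · exact Subgroup.index_ne_zero_of_finite
  · rw [Subgroup.index_eq_card, ← AlgHom.card ℚ K Ω, ← Nat.card_eq_fintype_card]
    exact Nat.card_le_card_of_injective F hF

/-- Even permutations of the roots are realised by `K`-automorphisms. -/
theorem exists_aut {p : ℕ} (hp : p.Prime) (h5 : 5 ≤ p) (hr : Module.finrank ℚ K < p)
    [DecidableEq ((sel ℚ p).rootSet Ω)]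
    (σ : Equiv.Perm ((sel ℚ p).rootSet Ω)) (hσ : σ ∈ alternatingGroup ((sel ℚ p).rootSet Ω)) :
    ∃ g : Ω ≃ₐ[K] Ω, ∀ x : (sel ℚ p).rootSet Ω, g x = σ x := by
  have : Algebra.IsAlgebraic ℚ Ω := Algebra.IsAlgebraic.trans ℚ K Ω
  have hsurj := sel_surj (Ω := Ω) hp
  obtain ⟨h0, hle⟩ := autK_index_le K Ω
  let ρ := MulAction.toPermHom (Ω ≃ₐ[ℚ] Ω) ((sel ℚ p).rootSet Ω)
  let H := (autK K Ω).map ρ
  have hdvd : H.index ∣ (autK K Ω).index := Subgroup.index_map_dvd _ hsurj
  have hcard : Fintype.card ((sel ℚ p).rootSet Ω) = p := by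
    rw [← Nat.card_eq_fintype_card]
    exact rootSet_card hp.two_le Ω (IsAlgClosed.splits _)
  have hH : alternatingGroup ((sel ℚ p).rootSet Ω) ≤ H := by
    apply alternating_le_of_index
    · rw [hcard]; exact h5
    · intro h
      rw [h] at hdvd
      exact h0 (Nat.eq_zero_of_zero_dvd hdvd)
    · rw [hcard]
      exact lt_of_le_of_lt (Nat.le_of_dvd (Nat.pos_of_ne_zero h0) hdvd) (lt_of_le_of_lt hle hr)
  obtain ⟨g, hg, hgσ⟩ := hH hσ
  refine ⟨{ g with commutes' := hg }, ?_⟩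
  intro x
  rw [← hgσ]
  rfl

end

end Pool.Agent.H11.Smyth
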