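import Mathlib
import Pool.Agent.H11.Smyth.Fiber

set_option autoImplicit false

namespace Pool.Agent.H11.Smyth

open NumberField Module Real

variable (K : Type*) [Field K] [NumberField K]

lemma house_le_NN (t : 𝓞 K) : house (t : K) ≤ 1 + NN K t := by
  have h1 : ∀ φ : K →+* ℂ, ‖φ (t : K)‖ ^ 2 ≤ NN K t := fun φ =>
    Finset.single_le_sum (f := fun φ : K →+* ℂ => ‖φ (t : K)‖ ^ 2) (fun _ _ => by positivity)
      (Finset.mem_univ φ)
  rw [house, canonicalEmbedding.norm_le_iff]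
  intro φ
  have := h1 φ
  nlinarith [sq_nonneg (‖φ (t : K)‖ - 1), norm_nonneg (φ (t : K))]

theorem gauss_nf {n m : ℕ} (h : Fin m → Fin n → 𝓞 K)
    (r : Fin m → (K →+* ℂ) → ℝ) (hr : ∀ k φ, 0 < r k φ)
    (hrc : ∀ k φ, r k (ComplexEmbedding.conjugate φ) = r k φ)
    (hw : ∀ i, ∀ φ : K →+* ℂ, ∑ k, ‖φ (h k i : K)‖ ^ 2 / (r k φ) ^ 2 = 1)
    (h1 : ∀ i, ∃ k, h k i = 1)
    (f : Fin n → 𝓞 K → ℝ) (hf0 : ∀ t, ∑ i, f i t = 0) (B : ℝ) (M : ℕ) (hB : 0 ≤ B)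
    (hgrow : ∀ i t, |f i t| ≤ B * (1 + house (t : K)) ^ M)
    (hpos : ∀ g : Fin m → 𝓞 K, 0 ≤ ∑ i, f i (∑ k, g k * h k i)) :
    ∀ g : Fin m → 𝓞 K, ∑ i, f i (∑ k, g k * h k i) = 0 := by
  choose ki hki using h1
  have hfib := fun i => fiber K (fun k => h k i) (ki i) (hki i) r hr hrc (hw i)
  choose Ai ci Mi hAi hci Hi using hfib
  obtain ⟨AT, MT, hAT, HT⟩ := theta_T K
  have hΛ := theta_basis (Pi.basis (fun _ : Fin m => RingOfIntegers.basis K)) (JJ K r)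
    (li_pi K r id (fun k φ => (hr k φ).ne') (JJ K r) (fun g k φ => rfl))
  obtain ⟨_, _, _, _, _, HΛ⟩ := hΛ
  set A := AT + ∑ i, Ai i with hA
  set MM := M + MT + ∑ i, Mi i with hMM
  set c : ℝ := (1 + ∑ i, (ci i)⁻¹)⁻¹ with hc
  have hsumnn : 0 ≤ ∑ i, (ci i)⁻¹ := Finset.sum_nonneg fun i _ => (inv_pos.mpr (hci i)).le
  have hcpos : 0 < c := inv_pos.mpr (by linarith)
  have hcle : ∀ i, c ≤ ci i := by
    intro i
    rw [hc]
    apply inv_le_of_inv_le₀ (hci i)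
    have := Finset.single_le_sum (f := fun i => (ci i)⁻¹) (fun i _ => (inv_pos.mpr (hci i)).le)
      (Finset.mem_univ i)
    linarith
  have hAnn : 0 ≤ ∑ i, Ai i := Finset.sum_nonneg fun i _ => hAi i
  have hAle : ∀ i, Ai i ≤ A := by
    intro i
    have := Finset.single_le_sum (f := Ai) (fun i _ => hAi i) (Finset.mem_univ i)
    linarith
  have hMle : ∀ i, Mi i ≤ MM := by
    intro i
    have := Finset.single_le_sum (f := Mi) (fun i _ => Nat.zero_le _) (Finset.mem_univ i)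
    omega
  have hdiv : ∀ (a b : ℝ) (p q : ℕ) (τ : ℝ), 0 < τ → τ ≤ 1 → 0 ≤ a → a ≤ b → p ≤ q →
      a / τ ^ p ≤ b / τ ^ q := by
    intro a b p q τ hτ hτ1 ha hab hpq
    have h2 : τ ^ q ≤ τ ^ p := pow_le_pow_of_le_one hτ.le hτ1 hpq
    calc a / τ ^ p ≤ a / τ ^ q := by gcongr
      _ ≤ _ := by gcongr
  have hchoice : ∀ i (τ : ℝ), ∃ C : ℝ, (0 < τ → τ ≤ 1 → 0 < C ∧ C ≤ A / τ ^ MM ∧ ∀ t : 𝓞 K,
        |∑' g : {g : Fin m → 𝓞 K // ∑ k, g k * h k i = t},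
            Real.exp (-τ * ‖JJ K r (g : Fin m → 𝓞 K)‖ ^ 2) -
          C * Real.exp (-τ * NN K t)| ≤
        A * Real.exp (-c / τ) * (C * Real.exp (-τ * NN K t))) := by
    intro i τ
    by_cases hτ : 0 < τ ∧ τ ≤ 1
    · obtain ⟨C, hC, hCle, HC⟩ := Hi i τ hτ.1 hτ.2
      refine ⟨C, fun _ _ => ⟨hC, hCle.trans (hdiv _ _ _ _ τ hτ.1 hτ.2 (hAi i) (hAle i) (hMle i)),
        fun t => (HC t).trans ?_⟩⟩
      have h3 : Real.exp (-ci i / τ) ≤ Real.exp (-c / τ) := by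
        apply Real.exp_le_exp.mpr
        rw [div_le_div_iff_of_pos_right hτ.1]
        linarith [hcle i]
      have h4 := hAle i
      have h5 := hAi i
      gcongr
    · exact ⟨0, fun h0 h1 => absurd ⟨h0, h1⟩ hτ⟩
  choose C HC using hchoice
  set B' := B * 2 ^ MM with hB'
  refine gauss_abstract (fun i (g : Fin m → 𝓞 K) => ∑ k, g k * h k i)
    (fun g => ‖JJ K r g‖ ^ 2) (NN K) (NN_nonneg K) A c MM (by positivity) hcpos ?_ C
    (fun i τ h0 h1 => ⟨(HC i τ h0 h1).1, (HC i τ h0 h1).2.1⟩) ?_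
    (fun i τ h0 h1 t => (HC i τ h0 h1).2.2 t) f hf0 B' (by positivity) ?_ hpos
  · intro τ h0 h1
    obtain ⟨hs, hle⟩ := HT τ h0 h1
    exact ⟨hs, hle.trans (hdiv _ _ _ _ τ h0 h1 hAT (by linarith) (by omega))⟩
  · intro τ h0 h1
    obtain ⟨C, hC, hCle, K1⟩ := HΛ τ h0 h1
    obtain ⟨S, _⟩ := K1 0 0 (fun x => inner_zero_right _)
      (by rw [sub_zero]; exact Submodule.zero_mem _)
    simpa only [zero_add] using S
  · intro i t
    refine (hgrow i t).trans ?_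
    rw [hB', mul_assoc]
    apply mul_le_mul_of_nonneg_left _ hB
    rw [← mul_pow]
    have h6 := house_le_NN K t
    have h7 := house_nonneg (t : K)
    have h8 := NN_nonneg K t
    calc (1 + house (t : K)) ^ M ≤ (2 * (1 + NN K t)) ^ M := by
          apply pow_le_pow_left₀ (by linarith)
          linarith
      _ ≤ (2 * (1 + NN K t)) ^ MM := by
          apply pow_le_pow_right₀ (by linarith) (by omega)

end Pool.Agent.H11.Smyth
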