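import Mathlib

set_option autoImplicit false

namespace Pool.Agent.H11.Smyth

/-- Gordan's alternative over `ℚ`. -/
theorem gordan {V : Type*} [AddCommGroup V] [Module ℚ V] (N : ℕ) : ∀ v : Fin N → V,
    (∃ w : Fin N → ℚ, (∀ k, 0 ≤ w k) ∧ (∃ k, w k ≠ 0) ∧ ∑ k, w k • v k = 0) ∨
    (∃ y : V →ₗ[ℚ] ℚ, ∀ k, 0 < y (v k)) := by
  induction N with
  | zero => intro v; right; exact ⟨0, fun k => k.elim0⟩
  | succ N ih =>
    intro v
    rcases ih (fun k => v k.castSucc) with ⟨w, hw0, ⟨k, hk⟩, hw⟩ | ⟨y, hy⟩
    · left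
      refine ⟨Fin.snoc w 0, ?_, ⟨k.castSucc, by simpa using hk⟩, ?_⟩
      · intro j
        refine Fin.lastCases ?_ (fun j => ?_) j
        · simp
        · simpa using hw0 j
      · rw [Fin.sum_univ_castSucc]
        simpa using hw
    set u := v (Fin.last N) with hu
    by_cases hyu : 0 < y u
    · right
      refine ⟨y, fun k => ?_⟩
      refine Fin.lastCases ?_ (fun j => ?_) k
      · exact hyu
      · exact hy j
    push Not at hyu
    rcases ih (fun k => y (v k.castSucc) • u - y u • v k.castSucc) with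
      ⟨w, hw0, ⟨k, hk⟩, hw⟩ | ⟨y', hy'⟩
    · left
      refine ⟨Fin.snoc (fun j => -y u * w j) (∑ j, w j * y (v j.castSucc)), ?_,
        ⟨Fin.last N, ?_⟩, ?_⟩
      · intro j
        refine Fin.lastCases ?_ (fun j => ?_) j
        · rw [Fin.snoc_last]
          exact Finset.sum_nonneg fun j _ => mul_nonneg (hw0 j) (hy j).le
        · rw [Fin.snoc_castSucc]
          exact mul_nonneg (by linarith) (hw0 j)
      · rw [Fin.snoc_last]
        apply ne_of_gt
        apply Finset.sum_pos' (fun j _ => mul_nonneg (hw0 j) (hy j).le)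
        exact ⟨k, Finset.mem_univ k, mul_pos (lt_of_le_of_ne (hw0 k) (Ne.symm hk)) (hy k)⟩
      · rw [Fin.sum_univ_castSucc]
        simp only [Fin.snoc_castSucc, Fin.snoc_last]
        rw [← hw, Finset.sum_smul, ← Finset.sum_add_distrib]
        refine Finset.sum_congr rfl fun j _ => ?_
        rw [smul_sub, smul_smul, smul_smul, ← hu]
        module
    by_cases hu0 : u = 0
    · left
      refine ⟨Pi.single (Fin.last N) 1, ?_, ⟨Fin.last N, by simp⟩, ?_⟩
      · intro k
        rw [Pi.single_apply]; split_ifs <;> norm_num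
      · rw [Finset.sum_eq_single (Fin.last N)]
        · rw [← hu, hu0, smul_zero]
        · intro b _ hb; rw [Pi.single_eq_of_ne hb, zero_smul]
        · intro h; exact absurd (Finset.mem_univ _) h
    right
    -- a functional positive at `u`
    obtain ⟨z, hz⟩ : ∃ z : V →ₗ[ℚ] ℚ, z u = 1 := Module.Projective.exists_dual_eq_one ℚ hu0
    set y2 : V →ₗ[ℚ] ℚ := y' u • y - y u • y' with hy2
    have hy2v : ∀ j : Fin N, 0 < y2 (v j.castSucc) := by
      intro j
      have := hy' j
      simp only [map_sub, map_smul, smul_eq_mul] at this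
      simp only [hy2, LinearMap.sub_apply, LinearMap.smul_apply, smul_eq_mul]
      linarith
    have hy2u : y2 u = 0 := by
      simp only [hy2, LinearMap.sub_apply, LinearMap.smul_apply, smul_eq_mul]
      ring
    set S : ℚ := 1 + ∑ j : Fin N, |z (v j.castSucc)| / y2 (v j.castSucc) with hS
    have hterm : ∀ j : Fin N, 0 ≤ |z (v j.castSucc)| / y2 (v j.castSucc) :=
      fun j => div_nonneg (abs_nonneg _) (hy2v j).le
    have hSpos : 0 < S := by
      have : 0 ≤ ∑ j : Fin N, |z (v j.castSucc)| / y2 (v j.castSucc) :=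
        Finset.sum_nonneg fun j _ => hterm j
      linarith
    refine ⟨y2 + S⁻¹ • z, fun k => ?_⟩
    refine Fin.lastCases ?_ (fun j => ?_) k
    · rw [← hu, LinearMap.add_apply, hy2u, LinearMap.smul_apply, hz, smul_eq_mul, mul_one, zero_add]
      exact inv_pos.mpr hSpos
    · rw [LinearMap.add_apply, LinearMap.smul_apply, smul_eq_mul]
      have h1 : |z (v j.castSucc)| / y2 (v j.castSucc) < S := by
        have := Finset.single_le_sum (f := fun j : Fin N => |z (v j.castSucc)| / y2 (v j.castSucc))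
          (fun j _ => hterm j) (Finset.mem_univ j)
        linarith
      rw [div_lt_iff₀ (hy2v j)] at h1
      have h2 : S⁻¹ * |z (v j.castSucc)| < y2 (v j.castSucc) := by
        rw [inv_mul_lt_iff₀ hSpos]; exact h1
      have h3 := neg_abs_le (z (v j.castSucc))
      have h4 : S⁻¹ * -|z (v j.castSucc)| ≤ S⁻¹ * z (v j.castSucc) :=
        mul_le_mul_of_nonneg_left h3 (inv_pos.mpr hSpos).le
      linarith

lemma exists_perm_of_card {ι T : Type*} [Fintype ι] [DecidableEq T] (f g : ι → T)
    (h : ∀ t, Fintype.card {p // f p = t} = Fintype.card {p // g p = t}) :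
    ∃ π : Equiv.Perm ι, ∀ p, f p = g (π p) := by
  classical
  let e : (Σ t, {p // f p = t}) ≃ (Σ t, {p // g p = t}) :=
    Equiv.sigmaCongrRight fun t => Fintype.equivOfCardEq (h t)
  refine ⟨((Equiv.sigmaFiberEquiv f).symm.trans e).trans (Equiv.sigmaFiberEquiv g), fun p => ?_⟩
  have h1 : (Equiv.sigmaFiberEquiv f).symm p = ⟨f p, ⟨p, rfl⟩⟩ := by
    rw [Equiv.symm_apply_eq]; rfl
  simp only [Equiv.trans_apply, h1]
  exact ((Fintype.equivOfCardEq (h (f p)) ⟨p, rfl⟩).2).symm

theorem gordan_marg {T : Type*} [DecidableEq T] {n N : ℕ} (x : Fin N → Fin n → T) :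
    (∃ (N' : ℕ) (y : Fin N' → Fin N), 0 < N' ∧
      ∀ i j, ∃ π : Equiv.Perm (Fin N'), ∀ k, x (y k) i = x (y (π k)) j) ∨
    (∃ f : Fin n → T → ℝ, (∀ t, ∑ i, f i t = 0) ∧ ∀ k, 0 < ∑ i, f i (x k i)) := by
  classical
  rcases Nat.eq_zero_or_pos n with hn | hn
  · subst hn
    rcases Nat.eq_zero_or_pos N with hN | hN
    · subst hN
      right
      exact ⟨fun i => i.elim0, fun t => by simp, fun k => k.elim0⟩
    · left
      exact ⟨1, fun _ => ⟨0, hN⟩, one_pos, fun i => i.elim0⟩
  have hnq : (n : ℚ) ≠ 0 := by exact_mod_cast hn.ne'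
  let v : Fin N → ((Fin n × T) →₀ ℚ) := fun k => ∑ i, (Finsupp.single (i, x k i) (1 : ℚ) -
    (n : ℚ)⁻¹ • ∑ j, Finsupp.single (j, x k i) (1 : ℚ))
  rcases gordan N v with ⟨w, hw0, ⟨k0, hk0⟩, hw⟩ | ⟨y, hy⟩
  · left
    -- marginals
    have hval : ∀ k i t, v k (i, t) = (if x k i = t then (1 : ℚ) else 0) -
        (n : ℚ)⁻¹ * ∑ j, (if x k j = t then (1 : ℚ) else 0) := by
      intro k i t
      simp only [v, Finsupp.finsetSum_apply, Finsupp.sub_apply, Finsupp.smul_apply, smul_eq_mul,
        Finsupp.single_apply, Prod.mk.injEq]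
      rw [Finset.sum_sub_distrib]
      congr 1
      · rw [Finset.sum_eq_single i]
        · simp
        · intro b _ hb; rw [if_neg]; tauto
        · intro h; exact absurd (Finset.mem_univ _) h
      · rw [← Finset.mul_sum]
        congr 1
        refine Finset.sum_congr rfl fun l _ => ?_
        rw [Finset.sum_eq_single i]
        · simp
        · intro b _ hb; rw [if_neg]; tauto
        · intro h; exact absurd (Finset.mem_univ _) h
    have hmarg : ∀ i j t, ∑ k, w k * (if x k i = t then (1 : ℚ) else 0) =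
        ∑ k, w k * (if x k j = t then (1 : ℚ) else 0) := by
      have h1 : ∀ i t, ∑ k, w k * (if x k i = t then (1 : ℚ) else 0) =
          ∑ k, w k * ((n : ℚ)⁻¹ * ∑ j, (if x k j = t then (1 : ℚ) else 0)) := by
        intro i t
        have h2 := congrArg (fun u : (Fin n × T) →₀ ℚ => u (i, t)) hw
        simp only [Finsupp.finsetSum_apply, Finsupp.smul_apply, smul_eq_mul, Finsupp.coe_zero,
          Pi.zero_apply, hval, mul_sub, Finset.sum_sub_distrib] at h2
        linarith
      intro i j t
      rw [h1 i, h1 j]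
    -- clear denominators
    let W : Fin N → ℕ := fun k => (w k).num.toNat * ∏ j ∈ Finset.univ.erase k, (w j).den
    have hW : ∀ k, (W k : ℚ) = w k * ∏ j, ((w j).den : ℚ) := by
      intro k
      simp only [W]
      push_cast
      have h1 : (((w k).num.toNat : ℕ) : ℚ) = ((w k).num : ℚ) := by
        have := Int.toNat_of_nonneg (Rat.num_nonneg.mpr (hw0 k))
        exact_mod_cast this
      rw [h1, ← Finset.mul_prod_erase _ _ (Finset.mem_univ k), ← mul_assoc]
      congr 1
      exact (Rat.mul_den_eq_num (w k)).symm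
    have hWmarg : ∀ i j t, ∑ k, W k * (if x k i = t then 1 else 0) =
        ∑ k, W k * (if x k j = t then 1 else 0) := by
      intro i j t
      have h1 : ∀ l, ((∑ k, W k * (if x k l = t then 1 else 0) : ℕ) : ℚ) =
          (∑ k, w k * (if x k l = t then (1 : ℚ) else 0)) * ∏ j, ((w j).den : ℚ) := by
        intro l
        push_cast
        rw [Finset.sum_mul]
        refine Finset.sum_congr rfl fun k _ => ?_
        rw [hW]; ring
      have h2 : ((∑ k, W k * (if x k i = t then 1 else 0) : ℕ) : ℚ) =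
          ((∑ k, W k * (if x k j = t then 1 else 0) : ℕ) : ℚ) := by
        rw [h1, h1, hmarg i j]
      exact_mod_cast h2
    let Sg := Σ k : Fin N, Fin (W k)
    let e : Fin (Fintype.card Sg) ≃ Sg := (Fintype.equivFin Sg).symm
    refine ⟨Fintype.card Sg, fun p => (e p).1, ?_, fun i j => ?_⟩
    · rw [Fintype.card_pos_iff]
      refine ⟨⟨k0, ⟨0, ?_⟩⟩⟩
      have h1 : (W k0 : ℚ) ≠ 0 := by
        rw [hW]
        apply mul_ne_zero hk0
        rw [Finset.prod_ne_zero_iff]
        intro j _
        exact_mod_cast (w j).den_ne_zero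
      have h2 : W k0 ≠ 0 := by exact_mod_cast h1
      omega
    · have hcard : ∀ l t, Fintype.card {p : Sg // x p.1 l = t} =
          ∑ k, W k * (if x k l = t then 1 else 0) := by
        intro l t
        rw [Fintype.card_subtype, Finset.card_filter]
        rw [Fintype.sum_sigma]
        refine Finset.sum_congr rfl fun k _ => ?_
        show ∑ _y : Fin (W k), (if x k l = t then 1 else 0) = _
        rw [Finset.sum_const, Finset.card_univ, Fintype.card_fin, smul_eq_mul]
      obtain ⟨π, hπ⟩ := exists_perm_of_card (fun p : Sg => x p.1 i) (fun p : Sg => x p.1 j)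
        (fun t => by
          rw [hcard i t, hcard j t, hWmarg i j])
      refine ⟨(e.trans π).trans e.symm, fun k => ?_⟩
      simp only [Equiv.trans_apply, Equiv.apply_symm_apply]
      exact hπ (e k)
  · right
    refine ⟨fun i t => ((y (Finsupp.single (i, t) 1) -
      (n : ℚ)⁻¹ * ∑ j, y (Finsupp.single (j, t) 1) : ℚ) : ℝ), fun t => ?_, fun k => ?_⟩
    · rw [← Rat.cast_sum, Finset.sum_sub_distrib, Finset.sum_const, Finset.card_univ,
        Fintype.card_fin, nsmul_eq_mul, ← mul_assoc, mul_inv_cancel₀ hnq, one_mul, sub_self,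
        Rat.cast_zero]
    · rw [← Rat.cast_sum]
      have h1 := hy k
      have h2 : y (v k) = ∑ i, (y (Finsupp.single (i, x k i) 1) -
          (n : ℚ)⁻¹ * ∑ j, y (Finsupp.single (j, x k i) 1)) := by
        simp only [v, map_sum, map_sub, map_smul, smul_eq_mul]
      rw [h2] at h1
      exact_mod_cast h1

end Pool.Agent.H11.Smyth
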