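import Mathlib
import Pool.Agent.H11.Smyth.NFBasic

set_option autoImplicit false

namespace Pool.Agent.H11.Smyth

open NumberField Module

variable (K : Type*) [Field K] [NumberField K]

/-- rounding of points with real structure -/
lemma rounding' : ∃ B : ℝ, 0 ≤ B ∧ ∀ z : (K →+* ℂ) → ℂ,
    (∀ φ, z (ComplexEmbedding.conjugate φ) = (starRingEnd ℂ) (z φ)) →
    ∃ m : 𝓞 K, ∀ φ : K →+* ℂ, ‖φ (m : K) - z φ‖ ≤ B := by
  refine ⟨∑ φ : K →+* ℂ, ∑ b, ‖φ (om K b)‖, by positivity, fun z hz => ?_⟩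
  obtain ⟨q, hq⟩ := real_structure K z hz
  refine ⟨∑ b, (⌊q b⌋ : ℤ) • RingOfIntegers.basis K b, fun φ => ?_⟩
  have hm : (((∑ b, (⌊q b⌋ : ℤ) • RingOfIntegers.basis K b : 𝓞 K)) : K) =
      ∑ b, ((⌊q b⌋ : ℤ) : K) * om K b := by
    rw [RingOfIntegers.coe_eq_algebraMap, map_sum]
    refine Finset.sum_congr rfl fun b _ => ?_
    rw [zsmul_eq_mul, map_mul, map_intCast]
    rfl
  rw [hm, map_sum, hq, ← Finset.sum_sub_distrib]
  have h1 : ∀ b, φ (((⌊q b⌋ : ℤ) : K) * om K b) - (q b : ℂ) * φ (om K b) =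
      (((⌊q b⌋ : ℝ) - q b : ℝ) : ℂ) * φ (om K b) := by
    intro b
    rw [map_mul, map_intCast]
    push_cast
    ring
  simp_rw [h1]
  calc ‖∑ b, (((⌊q b⌋ : ℝ) - q b : ℝ) : ℂ) * φ (om K b)‖
      ≤ ∑ b, ‖(((⌊q b⌋ : ℝ) - q b : ℝ) : ℂ) * φ (om K b)‖ := norm_sum_le _ _
    _ ≤ ∑ b, ‖φ (om K b)‖ := by
        refine Finset.sum_le_sum fun b _ => ?_
        rw [norm_mul, Complex.norm_real, Real.norm_eq_abs]
        have h2 : |(⌊q b⌋ : ℝ) - q b| ≤ 1 := by
          have h3 : (⌊q b⌋ : ℝ) ≤ q b := Int.floor_le _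
          have h4 : q b < (⌊q b⌋ : ℝ) + 1 := Int.lt_floor_add_one _
          rw [abs_le]; constructor <;> linarith
        nlinarith [norm_nonneg (φ (om K b))]
    _ ≤ _ := Finset.single_le_sum (f := fun φ : K →+* ℂ => ∑ b, ‖φ (om K b)‖)
          (fun φ _ => Finset.sum_nonneg fun b _ => norm_nonneg _) (Finset.mem_univ φ)

theorem unit_coord {n : ℕ} (a : Fin n → 𝓞 K) (i : Fin n) (hex : ∃ j, j ≠ i ∧ a j ≠ 0)
    (hv : ∀ v : IsDedekindDomain.HeightOneSpectrum (𝓞 K), ∃ j : Fin n, j ≠ i ∧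
      v.valuation K (a i : K) ≤ v.valuation K (a j : K)) :
    ∃ c : Fin n → 𝓞 K, c i = 1 ∧ ∑ j, a j * c j = 0 := by
  set I : Ideal (𝓞 K) := Ideal.span (Set.range (fun j : {j : Fin n // j ≠ i} => a j)) with hI
  have haI : ∀ j, j ≠ i → a j ∈ I := fun j hj => Ideal.subset_span ⟨⟨j, hj⟩, rfl⟩
  have key : a i ∈ I := by
    by_contra hcon
    set J : Ideal (𝓞 K) := Submodule.comap (LinearMap.toSpanSingleton (𝓞 K) (𝓞 K) (a i)) I with hJ
    have hJmem : ∀ r, r ∈ J ↔ r * a i ∈ I := by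
      intro r
      rw [hJ, Submodule.mem_comap, LinearMap.toSpanSingleton_apply, smul_eq_mul]
    have hJtop : J ≠ ⊤ := by
      intro h
      have : (1 : 𝓞 K) ∈ J := by rw [h]; trivial
      rw [hJmem, one_mul] at this
      exact hcon this
    obtain ⟨P, hPmax, hJP⟩ := Ideal.exists_le_maximal J hJtop
    obtain ⟨j1, hj1, haj1⟩ := hex
    have hPbot : P ≠ ⊥ := by
      intro h
      have : a j1 ∈ P := hJP ((hJmem _).mpr (I.mul_mem_right _ (haI j1 hj1)))
      rw [h, Ideal.mem_bot] at this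
      exact haj1 this
    let v : IsDedekindDomain.HeightOneSpectrum (𝓞 K) := ⟨P, hPmax.isPrime, hPbot⟩
    obtain ⟨j, hj, hle⟩ := hv v
    by_cases haj : a j = 0
    · rw [haj] at hle
      have h0 : v.valuation K (a i : K) = 0 := by
        have : v.valuation K ((0 : 𝓞 K) : K) = 0 := by simp
        rw [this] at hle
        exact le_antisymm hle zero_le
      have h1 : (a i : K) = 0 := (Valuation.zero_iff _).mp h0
      have h2 : a i = 0 := by exact_mod_cast h1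
      exact hcon (h2 ▸ I.zero_mem)
    · have hajK : (a j : K) ≠ 0 := by exact_mod_cast haj
      have hdiv : v.valuation K ((a i : K) / (a j : K)) ≤ 1 := by
        rw [map_div₀]
        apply div_le_one_of_le₀ hle zero_le
      obtain ⟨r, s, hrs⟩ := IsDedekindDomain.HeightOneSpectrum.exists_primeCompl_mul_eq_of_integer
        v _ hdiv
      have h3 : (s : 𝓞 K) * a i = r * a j := by
        have h4 : (algebraMap (𝓞 K) K (s : 𝓞 K)) * (a i : K) =
            (algebraMap (𝓞 K) K r) * (a j : K) := by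
          rw [← hrs]; field_simp
        have h5 : algebraMap (𝓞 K) K ((s : 𝓞 K) * a i) = algebraMap (𝓞 K) K (r * a j) := by
          rw [map_mul, map_mul]; exact h4
        exact FaithfulSMul.algebraMap_injective (𝓞 K) K h5
      have h6 : (s : 𝓞 K) ∈ J := by
        rw [hJmem, h3]
        exact I.mul_mem_left _ (haI j hj)
      exact s.2 (hJP h6)
  rw [hI, Ideal.mem_span_range_iff_exists_fun] at key
  obtain ⟨c, hc⟩ := key
  refine ⟨fun j => if h : j = i then 1 else -c ⟨j, h⟩, by simp, ?_⟩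
  rw [Fintype.sum_eq_add_sum_subtype_ne _ i]
  simp only [dif_pos, mul_one]
  have : ∀ j : {j : Fin n // j ≠ i}, a j * (if h : (j : Fin n) = i then 1 else -c ⟨j, h⟩) =
      -(c j * a j) := by
    intro j
    rw [dif_neg j.2]; ring
  simp_rw [this]
  rw [Finset.sum_neg_distrib, hc, add_neg_cancel]

theorem inward1 {n : ℕ} (a : Fin n → 𝓞 K) (i : Fin n)
    (harch : ∀ φ : K →+* ℂ, ‖φ (a i : K)‖ < ∑ j ∈ Finset.univ.erase i, ‖φ (a j : K)‖)
    (hna : ∃ c : Fin n → 𝓞 K, c i = 1 ∧ ∑ j, a j * c j = 0) :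
    ∃ ρ C : ℝ, 0 ≤ ρ ∧ ρ < 1 ∧ 0 ≤ C ∧ ∀ t : 𝓞 K, ∃ x : Fin n → 𝓞 K, x i = t ∧
      ∑ j, a j * x j = 0 ∧ ∀ j, j ≠ i → house (x j : K) ≤ ρ * house (t : K) + C := by
  classical
  obtain ⟨φ0⟩ : Nonempty (K →+* ℂ) := inferInstance
  obtain ⟨j0, hj0, haj0⟩ : ∃ j0, j0 ≠ i ∧ a j0 ≠ 0 := by
    by_contra hcon
    push Not at hcon
    have h1 := harch φ0
    have h2 : ∑ j ∈ Finset.univ.erase i, ‖φ0 (a j : K)‖ = 0 := by
      refine Finset.sum_eq_zero fun j hj => ?_
      rw [hcon j (Finset.ne_of_mem_erase hj)]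
      simp
    rw [h2] at h1
    exact absurd h1 (not_lt.mpr (norm_nonneg _))
  obtain ⟨c, hci, hc⟩ := hna
  obtain ⟨B, hB, hround⟩ := rounding' K
  set D : (K →+* ℂ) → ℝ := fun φ => ∑ j ∈ Finset.univ.erase i, ‖φ (a j : K)‖ with hD
  have hDpos : ∀ φ, 0 < D φ := fun φ => (norm_nonneg _).trans_lt (harch φ)
  obtain ⟨φm, hφm⟩ := Finite.exists_max (fun φ : K →+* ℂ => ‖φ (a i : K)‖ / D φ)
  set ρ := ‖φm (a i : K)‖ / D φm with hρ
  have hρ0 : 0 ≤ ρ := by have := hDpos φm; positivity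
  have hρ1 : ρ < 1 := by rw [hρ, div_lt_one (hDpos φm)]; exact harch φm
  set W : ℝ := ∑ φ : K →+* ℂ, ∑ j, ‖φ (a j : K)‖ with hW
  have hWφ : ∀ φ : K →+* ℂ, ∑ j, ‖φ (a j : K)‖ ≤ W := fun φ =>
    Finset.single_le_sum (f := fun φ : K →+* ℂ => ∑ j, ‖φ (a j : K)‖)
      (fun φ _ => Finset.sum_nonneg fun b _ => norm_nonneg _) (Finset.mem_univ φ)
  have hWj : ∀ (φ : K →+* ℂ) j, ‖φ (a j : K)‖ ≤ W := fun φ j =>
    (Finset.single_le_sum (f := fun j => ‖φ (a j : K)‖)
      (fun j _ => norm_nonneg _) (Finset.mem_univ j)).trans (hWφ φ)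
  have hW0 : 0 ≤ W := (norm_nonneg _).trans (hWj φ0 i)
  set z : Fin n → (K →+* ℂ) → ℂ := fun j φ =>
    if j = i then 1 else -φ (a i : K) * (‖φ (a j : K)‖ : ℂ) / (φ (a j : K) * (D φ : ℂ)) with hz
  have hzsum : ∀ φ : K →+* ℂ, ∑ j, φ (a j : K) * z j φ = 0 := by
    intro φ
    have hDne : (D φ : ℂ) ≠ 0 := by exact_mod_cast (hDpos φ).ne'
    rw [← Finset.add_sum_erase _ _ (Finset.mem_univ i)]
    have h1 : ∀ j ∈ Finset.univ.erase i, φ (a j : K) * z j φ =
        (-φ (a i : K) / (D φ : ℂ)) * (‖φ (a j : K)‖ : ℂ) := by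
      intro j hj
      simp only [hz]
      rw [if_neg (Finset.ne_of_mem_erase hj)]
      by_cases h0 : φ (a j : K) = 0
      · simp [h0]
      · field_simp
    rw [Finset.sum_congr rfl h1, ← Finset.mul_sum]
    simp only [hz, if_true, mul_one]
    rw [← Complex.ofReal_sum]
    change φ (a i : K) + -φ (a i : K) / (D φ : ℂ) * (D φ : ℂ) = 0
    field_simp
    ring
  have hznorm : ∀ (φ : K →+* ℂ) j, j ≠ i → ‖z j φ‖ ≤ ρ := by
    intro φ j hj
    have hDp := hDpos φ
    refine le_trans ?_ (hφm φ)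
    simp only [hz]
    rw [if_neg hj]
    by_cases h0 : φ (a j : K) = 0
    · simp only [h0, norm_zero, Complex.ofReal_zero, mul_zero, zero_div]
      positivity
    · rw [norm_div, norm_mul, norm_neg, norm_mul, Complex.norm_real, Complex.norm_real, norm_norm,
        Real.norm_eq_abs, abs_of_pos hDp]
      have h1 : ‖φ (a j : K)‖ ≠ 0 := norm_ne_zero_iff.mpr h0
      apply le_of_eq
      field_simp
  have hzreal : ∀ j φ, z j (ComplexEmbedding.conjugate φ) = (starRingEnd ℂ) (z j φ) := by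
    intro j φ
    have hDc : D (ComplexEmbedding.conjugate φ) = D φ := by
      simp only [hD, ComplexEmbedding.conjugate_coe_eq, RCLike.norm_conj]
    simp only [hz]
    split_ifs with h
    · simp
    · simp only [ComplexEmbedding.conjugate_coe_eq, RCLike.norm_conj, hDc, map_div₀, map_mul,
        map_neg, Complex.conj_ofReal]
  refine ⟨ρ, B * W, hρ0, hρ1, by positivity, fun t => ?_⟩
  -- choose the roundings
  have hm : ∀ j, ∃ m : 𝓞 K, ∀ φ : K →+* ℂ,
      ‖φ (m : K) - (φ (t : K) * (z j φ - φ (c j : K)) / φ (a j0 : K))‖ ≤ B := by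
    intro j
    apply hround (fun φ => φ (t : K) * (z j φ - φ (c j : K)) / φ (a j0 : K))
    intro φ
    simp only [hzreal, ComplexEmbedding.conjugate_coe_eq, map_div₀, map_mul, map_sub]
  choose m hm using hm
  set S : Finset (Fin n) := (Finset.univ.erase i).erase j0 with hS
  set x : Fin n → 𝓞 K := fun j => t * c j + ∑ k ∈ S, m k *
    ((Pi.single k (a j0) : Fin n → 𝓞 K) j - (Pi.single j0 (a k) : Fin n → 𝓞 K) j) with hx
  have hSi : ∀ k ∈ S, k ≠ i := fun k hk => Finset.ne_of_mem_erase (Finset.mem_of_mem_erase hk)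
  have hSj0 : ∀ k ∈ S, k ≠ j0 := fun k hk => Finset.ne_of_mem_erase hk
  have hxi : x i = t := by
    simp only [hx, hci, mul_one]
    rw [Finset.sum_eq_zero, add_zero]
    intro k hk
    rw [Pi.single_eq_of_ne (hSi k hk).symm, Pi.single_eq_of_ne hj0.symm, sub_zero, mul_zero]
  have hxsum : ∑ j, a j * x j = 0 := by
    simp only [hx, mul_add, Finset.sum_add_distrib, Finset.mul_sum]
    have h1 : ∑ j, a j * (t * c j) = 0 := by
      have : ∀ j, a j * (t * c j) = t * (a j * c j) := fun j => by ring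
      simp_rw [this]
      rw [← Finset.mul_sum, hc, mul_zero]
    rw [h1, zero_add, Finset.sum_comm]
    refine Finset.sum_eq_zero fun k _ => ?_
    have h2 : ∀ j, a j * (m k * ((Pi.single k (a j0) : Fin n → 𝓞 K) j -
        (Pi.single j0 (a k) : Fin n → 𝓞 K) j)) =
        m k * (a j * (Pi.single k (a j0) : Fin n → 𝓞 K) j) -
        m k * (a j * (Pi.single j0 (a k) : Fin n → 𝓞 K) j) := fun j => by ring
    simp_rw [h2]
    rw [Finset.sum_sub_distrib, ← Finset.mul_sum, ← Finset.mul_sum]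
    have h3 : ∑ j, a j * (Pi.single k (a j0) : Fin n → 𝓞 K) j = a k * a j0 := by
      rw [Finset.sum_eq_single k]
      · rw [Pi.single_eq_same]
      · intro j _ hj; rw [Pi.single_eq_of_ne hj, mul_zero]
      · intro h; exact absurd (Finset.mem_univ _) h
    have h4 : ∑ j, a j * (Pi.single j0 (a k) : Fin n → 𝓞 K) j = a j0 * a k := by
      rw [Finset.sum_eq_single j0]
      · rw [Pi.single_eq_same]
      · intro j _ hj; rw [Pi.single_eq_of_ne hj, mul_zero]
      · intro h; exact absurd (Finset.mem_univ _) h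
    rw [h3, h4]
    ring
  have hxS : ∀ j ∈ S, x j = t * c j + m j * a j0 := by
    intro j hj
    simp only [hx]
    rw [Finset.sum_eq_single j]
    · rw [Pi.single_eq_same, Pi.single_eq_of_ne (hSj0 j hj), sub_zero]
    · intro k _ hk
      rw [Pi.single_eq_of_ne hk.symm, Pi.single_eq_of_ne (hSj0 j hj), sub_zero, mul_zero]
    · intro h; exact absurd hj h
  refine ⟨x, hxi, hxsum, fun j hj => ?_⟩
  rw [house, canonicalEmbedding.norm_le_iff]
  intro φ
  have haj0φ : φ (a j0 : K) ≠ 0 := by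
    rw [map_ne_zero]
    exact_mod_cast haj0
  -- error terms
  set e : Fin n → ℂ := fun j => φ (x j : K) - φ (t : K) * z j φ with he
  have hei : e i = 0 := by
    simp only [he, hxi, hz, if_true, mul_one, sub_self]
  have heS : ∀ j ∈ S, ‖e j‖ ≤ B * ‖φ (a j0 : K)‖ := by
    intro j hj
    have h1 : ((x j : 𝓞 K) : K) = (t : K) * (c j : K) + (m j : K) * (a j0 : K) := by
      rw [hxS j hj]
      push_cast
      rfl
    have h2 : e j = (φ (m j : K) - (φ (t : K) * (z j φ - φ (c j : K)) / φ (a j0 : K))) *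
        φ (a j0 : K) := by
      simp only [he]
      rw [h1, map_add, map_mul, map_mul]
      field_simp
      ring
    rw [h2, norm_mul]
    exact mul_le_mul_of_nonneg_right (hm j φ) (norm_nonneg _)
  have hesum : ∑ j, φ (a j : K) * e j = 0 := by
    have h1 : ∑ j, φ (a j : K) * φ (x j : K) = 0 := by
      have h2 := congrArg (fun y : 𝓞 K => φ (y : K)) hxsum
      simp only [map_zero] at h2
      rw [RingOfIntegers.coe_eq_algebraMap, map_sum, map_sum] at h2
      simp only [map_mul] at h2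
      exact h2
    simp only [he, mul_sub, Finset.sum_sub_distrib]
    rw [h1, zero_sub, neg_eq_zero]
    have h3 : ∀ j, φ (a j : K) * (φ (t : K) * z j φ) = φ (t : K) * (φ (a j : K) * z j φ) :=
      fun j => by ring
    simp_rw [h3]
    rw [← Finset.mul_sum, hzsum, mul_zero]
  have hej0 : ‖e j0‖ ≤ B * W := by
    rw [← Finset.add_sum_erase _ _ (Finset.mem_univ i), hei, mul_zero, zero_add,
      ← Finset.add_sum_erase _ _ (Finset.mem_erase.mpr ⟨hj0, Finset.mem_univ j0⟩)] at hesum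
    have h1 : φ (a j0 : K) * e j0 = -∑ j ∈ S, φ (a j : K) * e j := by
      rw [eq_neg_iff_add_eq_zero]; exact hesum
    have h2 := congrArg norm h1
    rw [norm_mul, norm_neg] at h2
    have h3 : ‖∑ j ∈ S, φ (a j : K) * e j‖ ≤ ‖φ (a j0 : K)‖ * (B * W) := by
      calc ‖∑ j ∈ S, φ (a j : K) * e j‖ ≤ ∑ j ∈ S, ‖φ (a j : K) * e j‖ := norm_sum_le _ _
        _ ≤ ∑ j ∈ S, ‖φ (a j : K)‖ * (B * ‖φ (a j0 : K)‖) := by
            refine Finset.sum_le_sum fun j hj => ?_
            rw [norm_mul]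
            exact mul_le_mul_of_nonneg_left (heS j hj) (norm_nonneg _)
        _ = (∑ j ∈ S, ‖φ (a j : K)‖) * (B * ‖φ (a j0 : K)‖) := by rw [Finset.sum_mul]
        _ ≤ W * (B * ‖φ (a j0 : K)‖) := by
            apply mul_le_mul_of_nonneg_right _ (by positivity)
            exact (Finset.sum_le_sum_of_subset_of_nonneg (Finset.subset_univ S)
              (fun j _ _ => norm_nonneg _)).trans (hWφ φ)
        _ = _ := by ring
    rw [← h2] at h3
    exact le_of_mul_le_mul_left h3 (norm_pos_iff.mpr haj0φ)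
  have hej : ‖e j‖ ≤ B * W := by
    by_cases hjj : j = j0
    · rw [hjj]; exact hej0
    · have hjS : j ∈ S := Finset.mem_erase.mpr ⟨hjj, Finset.mem_erase.mpr ⟨hj, Finset.mem_univ _⟩⟩
      refine (heS j hjS).trans ?_
      exact mul_le_mul_of_nonneg_left (hWj φ j0) hB
  have h1 : φ (x j : K) = φ (t : K) * z j φ + e j := by simp only [he]; ring
  rw [h1]
  refine (norm_add_le _ _).trans (add_le_add ?_ hej)
  rw [norm_mul, mul_comm]
  exact mul_le_mul (hznorm φ j hj) (norm_embedding_le_house _ _) (norm_nonneg _) hρ0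

theorem inward {n : ℕ} (a : Fin n → 𝓞 K)
    (harch : ∀ φ : K →+* ℂ, ∀ i, ‖φ (a i : K)‖ < ∑ j ∈ Finset.univ.erase i, ‖φ (a j : K)‖)
    (hna : ∀ i, ∃ c : Fin n → 𝓞 K, c i = 1 ∧ ∑ j, a j * c j = 0) :
    ∃ ρ C : ℝ, 0 ≤ ρ ∧ ρ < 1 ∧ 0 ≤ C ∧ ∀ i, ∀ t : 𝓞 K, ∃ x : Fin n → 𝓞 K, x i = t ∧
      ∑ j, a j * x j = 0 ∧ ∀ j, j ≠ i → house (x j : K) ≤ ρ * house (t : K) + C := by
  rcases Nat.eq_zero_or_pos n with hn | hn
  · subst hn
    exact ⟨0, 0, le_refl _, one_pos, le_refl _, fun i => i.elim0⟩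
  have : Nonempty (Fin n) := ⟨⟨0, hn⟩⟩
  choose ρ C h0 h1 h2 h3 using fun i => inward1 K a i (fun φ => harch φ i) (hna i)
  obtain ⟨i1, hi1⟩ := Finite.exists_max ρ
  obtain ⟨i2, hi2⟩ := Finite.exists_max C
  refine ⟨ρ i1, C i2, h0 i1, h1 i1, h2 i2, fun i t => ?_⟩
  obtain ⟨x, hx1, hx2, hx3⟩ := h3 i t
  refine ⟨x, hx1, hx2, fun j hj => (hx3 j hj).trans ?_⟩
  have := house_nonneg (t : K)
  have := hi1 i
  have := hi2 i
  nlinarith

end Pool.Agent.H11.Smyth
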