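import Mathlib

set_option autoImplicit false

namespace Pool.Agent.H11.Smyth

open Filter Topology

/-- strictly positive solutions -/
theorem stiemke {ι : Type*} [Fintype ι] [DecidableEq ι] {n : ℕ} (p : ι → Fin n → ℝ)
    (hp : ∀ c : Fin n → ℝ, c ≠ 0 → ∑ i, c i ≤ 0 → ∃ k, ∑ i, c i * p k i < 0) :
    ∃ s : ι → ℝ, (∀ k, 0 < s k) ∧ ∀ i, ∑ k, s k * p k i = 1 := by
  set T : (ι → ℝ) →ₗ[ℝ] (Fin n → ℝ) :=
    { toFun := fun s i => ∑ k, s k * p k i
      map_add' := by
        intro s s'; funext i; simp [add_mul, Finset.sum_add_distrib]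
      map_smul' := by
        intro r s; funext i; simp [Finset.mul_sum, mul_assoc] } with hT
  have hTa : ∀ s i, T s i = ∑ k, s k * p k i := fun s i => rfl
  -- a functional in coordinates
  have hcoord : ∀ (f : (Fin n → ℝ) →ₗ[ℝ] ℝ) (v : Fin n → ℝ),
      f v = ∑ i, f (Pi.single i 1) * v i := by
    intro f v
    have h1 : v = ∑ i, v i • (Pi.single i 1 : Fin n → ℝ) := by
      funext j
      simp [Finset.sum_apply, Pi.single_apply]
    conv_lhs => rw [h1]
    rw [map_sum]
    refine Finset.sum_congr rfl fun i _ => ?_
    rw [map_smul, smul_eq_mul, mul_comm]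
  have hsurj : Function.Surjective T := by
    rw [← LinearMap.range_eq_top]
    by_contra hne
    obtain ⟨f, hf0, hf⟩ := (LinearMap.range T).exists_le_ker_of_lt_top (lt_top_iff_ne_top.mpr hne)
    have hfT : ∀ s, f (T s) = 0 := fun s => hf ⟨s, rfl⟩
    have hfp : ∀ k, ∑ i, f (Pi.single i 1) * p k i = 0 := by
      intro k
      have := hfT (Pi.single k 1)
      rw [hcoord] at this
      rw [← this]
      refine Finset.sum_congr rfl fun i _ => ?_
      rw [hTa]
      congr 1
      rw [Finset.sum_eq_single k]
      · simp
      · intro b _ hb; simp [hb]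
      · intro h; exact absurd (Finset.mem_univ _) h
    have hc0 : (fun i => f (Pi.single i 1)) ≠ (0 : Fin n → ℝ) := by
      intro h
      apply hf0
      refine LinearMap.ext fun v => ?_
      rw [hcoord, LinearMap.zero_apply]
      refine Finset.sum_eq_zero fun i _ => ?_
      have := congrFun h i
      simp only [Pi.zero_apply] at this
      rw [this, zero_mul]
    rcases le_total (∑ i, f (Pi.single i 1)) 0 with h | h
    · obtain ⟨k, hk⟩ := hp _ hc0 h
      rw [hfp] at hk
      exact lt_irrefl _ hk
    · have hc0' : (fun i => -f (Pi.single i 1)) ≠ (0 : Fin n → ℝ) := by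
        intro h'
        apply hc0
        funext i
        have := congrFun h' i
        simpa using this
      obtain ⟨k, hk⟩ := hp _ hc0' (by rw [Finset.sum_neg_distrib]; linarith)
      simp only [neg_mul, Finset.sum_neg_distrib] at hk
      rw [hfp] at hk
      simp at hk
  set P : Set (ι → ℝ) := {s | ∀ k, 0 < s k} with hP
  have hPopen : IsOpen P := by
    have : P = ⋂ k, {s : ι → ℝ | 0 < s k} := by ext s; simp [hP]
    rw [this]
    exact isOpen_iInter_of_finite fun k => isOpen_lt continuous_const (continuous_apply k)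
  have hPconv : Convex ℝ P := by
    intro s hs s' hs' a b ha hb hab k
    have h1 := hs k
    have h2 := hs' k
    simp only [Pi.add_apply, Pi.smul_apply, smul_eq_mul]
    rcases eq_or_lt_of_le ha with h | h
    · rw [← h] at hab ⊢
      rw [zero_add] at hab
      rw [hab]; simp [h2]
    · have := mul_nonneg hb h2.le
      nlinarith [mul_pos h h1]
  have hUopen : IsOpen (T '' P) := T.isOpenMap_of_finiteDimensional hsurj _ hPopen
  have hUconv : Convex ℝ (T '' P) := hPconv.linear_image T
  by_cases h1 : (fun _ => 1 : Fin n → ℝ) ∈ T '' P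
  · obtain ⟨s, hs, hs1⟩ := h1
    exact ⟨s, hs, fun i => by rw [← hTa, hs1]⟩
  · exfalso
    obtain ⟨f, hf⟩ := geometric_hahn_banach_open_point hUconv hUopen h1
    have h1P : (fun _ => 1 : ι → ℝ) ∈ P := fun _ => one_pos
    set f1 := f (fun _ => 1 : Fin n → ℝ) with hf1
    have hcone : ∀ s ∈ P, ∀ l : ℝ, 0 < l → l * f (T s) < f1 := by
      intro s hs l hl
      have h2 := hf (T (l • s)) ⟨l • s, fun k => by
        have := hs k
        simp only [Pi.smul_apply, smul_eq_mul]; positivity, rfl⟩
      rw [map_smul, map_smul, smul_eq_mul] at h2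
      exact h2
    have hf1nn : 0 ≤ f1 := by
      by_contra hneg
      push Not at hneg
      set y := f (T (fun _ => 1 : ι → ℝ)) with hy
      have h3 := hcone _ h1P
      rcases le_or_gt 0 y with hy0 | hy0
      · have := h3 1 one_pos
        linarith
      · have := h3 (f1 / y) (div_pos_of_neg_of_neg hneg hy0)
        rw [← hy, div_mul_cancel₀ _ hy0.ne] at this
        exact lt_irrefl _ this
    have hc0 : (fun i => -f (Pi.single i 1)) ≠ (0 : Fin n → ℝ) := by
      intro h
      have hf0 : ∀ v, f v = 0 := by
        intro v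
        have h4 := hcoord f.toLinearMap v
        have h5 : ∀ i, f (Pi.single i 1) = 0 := fun i => by
          have := congrFun h i
          simpa using this
        have h6 : f v = f.toLinearMap v := rfl
        rw [h6, h4]
        refine Finset.sum_eq_zero fun i _ => ?_
        have h7 : f.toLinearMap (Pi.single i 1) = f (Pi.single i 1) := rfl
        rw [h7, h5, zero_mul]
      have := hf (T fun _ => 1) ⟨_, h1P, rfl⟩
      have h8 : f1 = 0 := hf0 _
      rw [hf0, h8] at this
      exact lt_irrefl _ this
    have hcoordf : ∀ v, f v = ∑ i, f (Pi.single i 1) * v i := hcoord f.toLinearMap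
    obtain ⟨k, hk⟩ := hp _ hc0 (by
      have := hcoordf (fun _ => 1)
      simp only [mul_one] at this
      rw [Finset.sum_neg_distrib, ← this]
      linarith)
    simp only [neg_mul, Finset.sum_neg_distrib] at hk
    rw [← hcoordf] at hk
    have hfp : 0 < f (p k) := by linarith
    -- go to infinity along `e_k`
    have h8 : ∀ t : ℝ, 0 < t → f (T (fun _ => 1)) + t * f (p k) < f1 := by
      intro t ht
      have hTs : T (Pi.single k 1) = p k := by
        funext i
        rw [hTa, Finset.sum_eq_single k]
        · simp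
        · intro b _ hb; simp [hb]
        · intro h; exact absurd (Finset.mem_univ _) h
      have h9 := hf (T ((fun _ => 1 : ι → ℝ) + t • (Pi.single k 1 : ι → ℝ))) ⟨_, fun j => by
        simp only [Pi.add_apply, Pi.smul_apply, smul_eq_mul, Pi.single_apply]
        split_ifs <;> nlinarith, rfl⟩
      rw [map_add, map_add, map_smul, map_smul, hTs, smul_eq_mul] at h9
      exact h9
    have h10 := h8 ((|f1 - f (T (fun _ => 1))| + 1) / f (p k)) (by positivity)
    rw [div_mul_cancel₀ _ hfp.ne'] at h10
    have := le_abs_self (f1 - f (T (fun _ => 1)))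
    linarith

/-- balanced signs -/
lemma balanced {ι : Type*} (S : Finset ι) (x : ι → ℝ) (M : ℝ) (hM : 0 ≤ M)
    (h0 : ∀ j ∈ S, 0 ≤ x j) (hx : ∀ j ∈ S, x j ≤ M) :
    ∃ ε : ι → ℝ, (∀ j, ε j = 1 ∨ ε j = -1) ∧ |∑ j ∈ S, ε j * x j| ≤ M := by
  classical
  induction S using Finset.induction_on with
  | empty => exact ⟨fun _ => 1, fun _ => Or.inl rfl, by simpa using hM⟩
  | insert j S hj ih =>
    obtain ⟨ε, hε, hs⟩ := ih (fun k hk => h0 k (Finset.mem_insert_of_mem hk))
      (fun k hk => hx k (Finset.mem_insert_of_mem hk))
    have hj0 := h0 j (Finset.mem_insert_self j S)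
    have hjx := hx j (Finset.mem_insert_self j S)
    have hcongr : ∀ e : ℝ, ∑ k ∈ S, (Function.update ε j e) k * x k = ∑ k ∈ S, ε k * x k := by
      intro e
      refine Finset.sum_congr rfl fun k hk => ?_
      rw [Function.update_of_ne]
      rintro rfl; exact hj hk
    rcases le_total 0 (∑ k ∈ S, ε k * x k) with hnn | hnp
    · refine ⟨Function.update ε j (-1), ?_, ?_⟩
      · intro k
        by_cases hk : k = j
        · subst hk; simp
        · rw [Function.update_of_ne hk]; exact hε k
      · rw [Finset.sum_insert hj, hcongr, Function.update_self, abs_le]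
        rw [abs_le] at hs
        constructor <;> linarith
    · refine ⟨Function.update ε j 1, ?_, ?_⟩
      · intro k
        by_cases hk : k = j
        · subst hk; simp
        · rw [Function.update_of_ne hk]; exact hε k
      · rw [Finset.sum_insert hj, hcongr, Function.update_self, abs_le]
        rw [abs_le] at hs
        constructor <;> linarith

end Pool.Agent.H11.Smyth
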