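import Mathlib
import Pool.Agent.H11.Smyth.NFBasic
import Pool.Agent.H11.Smyth.Stiemke

set_option autoImplicit false

namespace Pool.Agent.H11.Smyth

open NumberField Module Filter Topology

variable (K : Type*) [Field K] [NumberField K]

lemma exists_perturb {n : ℕ} (A : Fin n → ℝ) 
    (harch : ∀ i, A i < ∑ j ∈ Finset.univ.erase i, A j) (c : Fin n → ℝ) (hc : c ≠ 0)
    (hcs : ∑ i, c i ≤ 0) :
    ∃ b : Fin n → ℝ, (∀ i, 0 < b i) ∧
      (∀ i, A i * b i < ∑ j ∈ Finset.univ.erase i, A j * b j) ∧ ∑ i, c i * b i ^ 2 < 0 := by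
  have h1 : ∀ i, Tendsto (fun ε : ℝ => 1 - ε * c i) (𝓝[>] 0) (𝓝 1) := by
    intro i
    have : Tendsto (fun ε : ℝ => 1 - ε * c i) (𝓝 0) (𝓝 (1 - 0 * c i)) :=
      (Continuous.tendsto (by fun_prop) 0)
    rw [zero_mul, sub_zero] at this
    exact this.mono_left nhdsWithin_le_nhds
  have h2 : ∀ i, Tendsto (fun ε : ℝ => A i * √(1 - ε * c i)) (𝓝[>] 0) (𝓝 (A i)) := by
    intro i
    have := ((Real.continuous_sqrt.tendsto 1).comp (h1 i)).const_mul (A i)
    rw [Real.sqrt_one, mul_one] at this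
    exact this
  have h3 : ∀ i, Tendsto (fun ε : ℝ => ∑ j ∈ Finset.univ.erase i, A j * √(1 - ε * c j))
      (𝓝[>] 0) (𝓝 (∑ j ∈ Finset.univ.erase i, A j)) := fun i => tendsto_finsetSum _ fun j _ => h2 j
  have h4 : ∀ᶠ ε in 𝓝[>] (0:ℝ), ∀ i, 0 < 1 - ε * c i :=
    eventually_all.mpr fun i => (h1 i).eventually_const_lt one_pos
  have h5 : ∀ᶠ ε in 𝓝[>] (0:ℝ), ∀ i, A i * √(1 - ε * c i) <
      ∑ j ∈ Finset.univ.erase i, A j * √(1 - ε * c j) :=
    eventually_all.mpr fun i => (h2 i).eventually_lt (h3 i) (harch i)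
  obtain ⟨ε, h6, h7, h8⟩ := (h4.and (h5.and self_mem_nhdsWithin)).exists
  have hε : 0 < ε := h8
  refine ⟨fun i => √(1 - ε * c i), fun i => Real.sqrt_pos.mpr (h6 i), h7, ?_⟩
  have h9 : ∀ i, c i * √(1 - ε * c i) ^ 2 = c i - ε * c i ^ 2 := by
    intro i
    rw [Real.sq_sqrt (h6 i).le]; ring
  simp_rw [h9]
  rw [Finset.sum_sub_distrib, ← Finset.mul_sum]
  have h10 : 0 < ∑ i, c i ^ 2 := by
    obtain ⟨i, hi⟩ := Function.ne_iff.mp hc
    apply Finset.sum_pos' (fun i _ => sq_nonneg _) ⟨i, Finset.mem_univ i, ?_⟩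
    have : c i ≠ 0 := hi
    positivity
  nlinarith

theorem sep_point {n : ℕ} (a : Fin n → 𝓞 K) (φ : K →+* ℂ)
    (harch : ∀ i, ‖φ (a i : K)‖ < ∑ j ∈ Finset.univ.erase i, ‖φ (a j : K)‖)
    (c : Fin n → ℝ) (hc : c ≠ 0) (hcs : ∑ i, c i ≤ 0) :
    ∃ y : Fin n → 𝓞 K, ∑ j, a j * y j = 0 ∧ ∑ i, c i * ‖φ (y i : K)‖ ^ 2 < 0 := by
  classical
  set A : Fin n → ℝ := fun i => ‖φ (a i : K)‖ with hA
  obtain ⟨b, hb0, hb1, hb2⟩ := exists_perturb A harch c hc hcs
  have hne : Nonempty (Fin n) := by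
    obtain ⟨i, hi⟩ := Function.ne_iff.mp hc
    exact ⟨i⟩
  obtain ⟨i0, hi0⟩ := Finite.exists_max (fun j => A j * b j)
  have hAnn : ∀ i, 0 ≤ A i := fun i => norm_nonneg _
  have hAb : ∀ i, 0 ≤ A i * b i := fun i => mul_nonneg (hAnn i) (hb0 i).le
  have hA0 : 0 < A i0 := by
    rcases eq_or_lt_of_le (hAnn i0) with h | h
    · exfalso
      have h1 : ∀ j, A j * b j = 0 := by
        intro j
        have h2 := hi0 j
        rw [← h, zero_mul] at h2
        exact le_antisymm h2 (hAb j)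
      have h3 := hb1 i0
      simp_rw [h1] at h3
      simp at h3
    · exact h
  have ha0 : a i0 ≠ 0 := by
    intro h
    simp only [hA] at hA0
    rw [h] at hA0
    simp at hA0
  have ha0K : (a i0 : K) ≠ 0 := by exact_mod_cast ha0
  have ha0φ : φ (a i0 : K) ≠ 0 := by rw [map_ne_zero]; exact ha0K
  obtain ⟨ε, hε, hεs⟩ : ∃ ε : Fin n → ℝ, (∀ j, ε j = 1 ∨ ε j = -1) ∧
      c i0 * (∑ j ∈ Finset.univ.erase i0, ε j * (A j * b j)) ^ 2 ≤ c i0 * (A i0 * b i0) ^ 2 := by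
    rcases le_or_gt 0 (c i0) with h | h
    · obtain ⟨ε, hε, hs⟩ := balanced (Finset.univ.erase i0) (fun j => A j * b j) (A i0 * b i0)
        (hAb i0) (fun j _ => hAb j) (fun j _ => hi0 j)
      refine ⟨ε, hε, ?_⟩
      apply mul_le_mul_of_nonneg_left _ h
      rw [← sq_abs]
      exact pow_le_pow_left₀ (abs_nonneg _) hs 2
    · refine ⟨fun _ => 1, fun _ => Or.inl rfl, ?_⟩
      apply mul_le_mul_of_nonpos_left _ h.le
      simp only [one_mul]
      exact pow_le_pow_left₀ (hAb i0) (hb1 i0).le 2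
  have hεsq : ∀ j, ε j ^ 2 = 1 := by
    intro j; rcases hε j with h | h <;> rw [h] <;> norm_num
  -- the real structure points
  set z : Fin n → (K →+* ℂ) → ℂ := fun j ψ =>
    if a j = 0 then ((ε j * b j : ℝ) : ℂ) else
      ((ε j * b j * ‖ψ (a j : K)‖ : ℝ) : ℂ) / ψ (a j : K) with hz
  have hzreal : ∀ j ψ, z j (ComplexEmbedding.conjugate ψ) = (starRingEnd ℂ) (z j ψ) := by
    intro j ψ
    simp only [hz]
    split_ifs with h
    · rw [Complex.conj_ofReal]
    · rw [ComplexEmbedding.conjugate_coe_eq, RCLike.norm_conj, map_div₀, Complex.conj_ofReal]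
  have hzφ : ∀ j, ‖z j φ‖ ^ 2 = b j ^ 2 := by
    intro j
    simp only [hz]
    split_ifs with h
    · rw [Complex.norm_real, Real.norm_eq_abs, sq_abs, mul_pow, hεsq, one_mul]
    · rw [norm_div, Complex.norm_real, Real.norm_eq_abs, div_pow, sq_abs, mul_pow, mul_pow, hεsq,
        one_mul]
      have h1 : ‖φ (a j : K)‖ ≠ 0 := by
        rw [norm_ne_zero_iff, map_ne_zero]; exact_mod_cast h
      field_simp
  have hzmul : ∀ j, φ (a j : K) * z j φ = ((ε j * (A j * b j) : ℝ) : ℂ) := by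
    intro j
    simp only [hz, hA]
    split_ifs with h
    · rw [h]; simp
    · have h1 : φ (a j : K) ≠ 0 := by
        rw [map_ne_zero]; exact_mod_cast h
      push_cast
      field_simp
  have happ : ∀ (N : ℕ) (j : Fin n), ∃ x : K, ∀ ψ : K →+* ℂ, ‖ψ x - z j ψ‖ < 1 / ((N : ℝ) + 1) :=
    fun N j => approx K (z j) (hzreal j) _ (by positivity)
  choose x hx using happ
  have hlim : ∀ j, Tendsto (fun N => φ (x N j)) atTop (𝓝 (z j φ)) := by
    intro j
    rw [tendsto_iff_norm_sub_tendsto_zero]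
    exact squeeze_zero (fun N => norm_nonneg _) (fun N => (hx N j φ).le)
      tendsto_one_div_add_atTop_nhds_zero_nat
  set y : ℕ → Fin n → K := fun N j => if j = i0 then
    -(∑ k ∈ Finset.univ.erase i0, (a k : K) * x N k) / (a i0 : K) else x N j with hy
  have hysum : ∀ N, ∑ j, (a j : K) * y N j = 0 := by
    intro N
    rw [← Finset.add_sum_erase _ _ (Finset.mem_univ i0)]
    have h1 : ∀ j ∈ Finset.univ.erase i0, (a j : K) * y N j = (a j : K) * x N j := by
      intro j hj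
      simp only [hy]
      rw [if_neg (Finset.ne_of_mem_erase hj)]
    rw [Finset.sum_congr rfl h1]
    simp only [hy, if_true]
    field_simp
    ring
  set zl : ℂ := -(∑ k ∈ Finset.univ.erase i0, φ (a k : K) * z k φ) / φ (a i0 : K) with hzl
  have hylim0 : Tendsto (fun N => φ (y N i0)) atTop (𝓝 zl) := by
    have h1 : ∀ N, φ (y N i0) =
        -(∑ k ∈ Finset.univ.erase i0, φ (a k : K) * φ (x N k)) / φ (a i0 : K) := by
      intro N
      simp only [hy, if_true]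
      rw [map_div₀, map_neg, map_sum]
      simp only [map_mul]
    simp_rw [h1]
    apply Tendsto.div_const
    apply Tendsto.neg
    exact tendsto_finsetSum _ fun k _ => (hlim k).const_mul _
  have hzlnorm : ‖zl‖ ^ 2 = (∑ j ∈ Finset.univ.erase i0, ε j * (A j * b j)) ^ 2 / A i0 ^ 2 := by
    rw [hzl, norm_div, norm_neg, div_pow]
    congr 1
    simp_rw [hzmul]
    rw [← Complex.ofReal_sum, Complex.norm_real, Real.norm_eq_abs, sq_abs]
  have hFlim : Tendsto (fun N => ∑ i, c i * ‖φ (y N i)‖ ^ 2) atTop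
      (𝓝 (c i0 * ‖zl‖ ^ 2 + ∑ j ∈ Finset.univ.erase i0, c j * ‖z j φ‖ ^ 2)) := by
    have h1 : ∀ N, ∑ i, c i * ‖φ (y N i)‖ ^ 2 = c i0 * ‖φ (y N i0)‖ ^ 2 +
        ∑ j ∈ Finset.univ.erase i0, c j * ‖φ (x N j)‖ ^ 2 := by
      intro N
      rw [← Finset.add_sum_erase _ _ (Finset.mem_univ i0)]
      congr 1
      refine Finset.sum_congr rfl fun j hj => ?_
      simp only [hy]
      rw [if_neg (Finset.ne_of_mem_erase hj)]
    simp_rw [h1]
    apply Tendsto.add
    · exact (hylim0.norm.pow 2).const_mul _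
    · exact tendsto_finsetSum _ fun k _ => ((hlim k).norm.pow 2).const_mul _
  have hneg : c i0 * ‖zl‖ ^ 2 + ∑ j ∈ Finset.univ.erase i0, c j * ‖z j φ‖ ^ 2 < 0 := by
    simp_rw [hzφ]
    rw [hzlnorm]
    have h1 : c i0 * ((∑ j ∈ Finset.univ.erase i0, ε j * (A j * b j)) ^ 2 / A i0 ^ 2) ≤
        c i0 * b i0 ^ 2 := by
      rw [← mul_div_assoc, div_le_iff₀ (by positivity)]
      calc _ ≤ c i0 * (A i0 * b i0) ^ 2 := hεs
        _ = _ := by ring
    rw [← Finset.add_sum_erase _ _ (Finset.mem_univ i0)] at hb2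
    linarith
  obtain ⟨N, hN⟩ := (hFlim.eventually_lt_const hneg).exists
  obtain ⟨d, hd⟩ := IsLocalization.exist_integer_multiples (nonZeroDivisors (𝓞 K)) Finset.univ (y N)
  choose Y hY using fun j => hd j (Finset.mem_univ j)
  have hdne : ((d : 𝓞 K) : K) ≠ 0 := by
    have := nonZeroDivisors.ne_zero d.2
    exact_mod_cast this
  have hY' : ∀ j, (Y j : K) = ((d : 𝓞 K) : K) * y N j := by
    intro j
    have := hY j
    rw [Algebra.smul_def] at this
    exact this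
  refine ⟨Y, ?_, ?_⟩
  · have h1 : ((∑ j, a j * Y j : 𝓞 K) : K) = 0 := by
      rw [RingOfIntegers.coe_eq_algebraMap, map_sum]
      have h2 : ∀ j, algebraMap (𝓞 K) K (a j * Y j) =
          ((d : 𝓞 K) : K) * ((a j : K) * y N j) := by
        intro j
        rw [map_mul]
        change (a j : K) * (Y j : K) = _
        rw [hY']; ring
      simp_rw [h2]
      rw [← Finset.mul_sum, hysum, mul_zero]
    exact_mod_cast h1
  · have h1 : ∀ i, c i * ‖φ (Y i : K)‖ ^ 2 =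
        ‖φ ((d : 𝓞 K) : K)‖ ^ 2 * (c i * ‖φ (y N i)‖ ^ 2) := by
      intro i
      rw [hY', map_mul, norm_mul]; ring
    simp_rw [h1]
    rw [← Finset.mul_sum]
    apply mul_neg_of_pos_of_neg _ hN
    have : ‖φ ((d : 𝓞 K) : K)‖ ≠ 0 := by rw [norm_ne_zero_iff, map_ne_zero]; exact hdne
    positivity

end Pool.Agent.H11.Smyth
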