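import Mathlib
import Pool.Agent.H11.Smyth.SepPoint

set_option autoImplicit false

namespace Pool.Agent.H11.Smyth

open NumberField Module Filter Topology

variable (K : Type*) [Field K] [NumberField K]

/-- finite separating family at one embedding -/
lemma sep_finite {n : ℕ} (a : Fin n → 𝓞 K) (φ : K →+* ℂ)
    (harch : ∀ i, ‖φ (a i : K)‖ < ∑ j ∈ Finset.univ.erase i, ‖φ (a j : K)‖) :
    ∃ Y : Finset (Fin n → 𝓞 K), (∀ y ∈ Y, ∑ j, a j * y j = 0) ∧
      ∀ c : Fin n → ℝ, c ≠ 0 → ∑ i, c i ≤ 0 → ∃ y ∈ Y, ∑ i, c i * ‖φ (y i : K)‖ ^ 2 < 0 := by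
  classical
  set Sph : Set (Fin n → ℝ) := Metric.sphere 0 1 ∩ {c | ∑ i, c i ≤ 0} with hSph
  have hcpt : IsCompact Sph := (isCompact_sphere 0 1).inter_right
    (isClosed_le (continuous_finsetSum _ fun i _ => continuous_apply i) continuous_const)
  let H := {y : Fin n → 𝓞 K // ∑ j, a j * y j = 0}
  let U : H → Set (Fin n → ℝ) := fun y => {c | ∑ i, c i * ‖φ (y.1 i : K)‖ ^ 2 < 0}
  have hUo : ∀ y, IsOpen (U y) := fun y =>
    isOpen_lt (continuous_finsetSum _ fun i _ => (continuous_apply i).mul continuous_const)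
      continuous_const
  have hcov : Sph ⊆ ⋃ y, U y := by
    rintro c ⟨hc1, hc2⟩
    have hc0 : c ≠ 0 := by
      rintro rfl
      rw [mem_sphere_zero_iff_norm, norm_zero] at hc1
      exact zero_ne_one hc1
    obtain ⟨y, hy1, hy2⟩ := sep_point K a φ harch c hc0 hc2
    exact Set.mem_iUnion.mpr ⟨⟨y, hy1⟩, hy2⟩
  obtain ⟨t, ht⟩ := hcpt.elim_finite_subcover U hUo hcov
  refine ⟨t.image Subtype.val, ?_, ?_⟩
  · intro y hy
    obtain ⟨z, _, rfl⟩ := Finset.mem_image.mp hy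
    exact z.2
  · intro c hc hcs
    have hn : 0 < ‖c‖ := norm_pos_iff.mpr hc
    have hmem : (‖c‖⁻¹ • c) ∈ Sph := by
      refine ⟨?_, ?_⟩
      · rw [mem_sphere_zero_iff_norm, norm_smul, norm_inv, norm_norm, inv_mul_cancel₀ hn.ne']
      · simp only [Set.mem_ofPred_eq, Pi.smul_apply, smul_eq_mul]
        rw [← Finset.mul_sum]
        exact mul_nonpos_of_nonneg_of_nonpos (by positivity) hcs
    obtain ⟨y, hyt, hyU⟩ := Set.mem_iUnion₂.mp (ht hmem)
    refine ⟨y.1, Finset.mem_image_of_mem _ hyt, ?_⟩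
    simp only [U, Set.mem_ofPred_eq, Pi.smul_apply, smul_eq_mul] at hyU
    simp_rw [mul_assoc] at hyU
    rw [← Finset.mul_sum] at hyU
    by_contra hcon
    push Not at hcon
    have : 0 ≤ ‖c‖⁻¹ * ∑ i, c i * ‖φ (y.1 i : K)‖ ^ 2 := mul_nonneg (by positivity) hcon
    linarith

theorem weights {n : ℕ} (a : Fin n → 𝓞 K)
    (harch : ∀ φ : K →+* ℂ, ∀ i, ‖φ (a i : K)‖ < ∑ j ∈ Finset.univ.erase i, ‖φ (a j : K)‖)
    (hna : ∀ i, ∃ c : Fin n → 𝓞 K, c i = 1 ∧ ∑ j, a j * c j = 0) :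
    ∃ (m : ℕ) (h : Fin m → Fin n → 𝓞 K) (r : Fin m → (K →+* ℂ) → ℝ),
      (∀ k, ∑ j, a j * h k j = 0) ∧ (∀ k φ, 0 < r k φ) ∧
      (∀ k φ, r k (ComplexEmbedding.conjugate φ) = r k φ) ∧
      (∀ i, ∀ φ : K →+* ℂ, ∑ k, ‖φ (h k i : K)‖ ^ 2 / (r k φ) ^ 2 = 1) ∧
      (∀ i, ∃ k, h k i = 1) ∧
      (∀ x : Fin n → 𝓞 K, ∑ j, a j * x j = 0 → ∃ g : Fin m → 𝓞 K, ∀ i, ∑ k, g k * h k i = x i) := by
  classical
  choose c hc1 hc2 using hna
  choose Y hY1 hY2 using fun φ : K →+* ℂ => sep_finite K a φ (harch φ)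
  let L : (Fin n → 𝓞 K) →ₗ[𝓞 K] 𝓞 K :=
    { toFun := fun x => ∑ j, a j * x j
      map_add' := by intro x y; simp [mul_add, Finset.sum_add_distrib]
      map_smul' := by
        intro r x
        simp only [Pi.smul_apply, smul_eq_mul, RingHom.id_apply, Finset.mul_sum]
        exact Finset.sum_congr rfl fun j _ => by ring }
  have hfg : (LinearMap.ker L).FG := IsNoetherian.noetherian _
  obtain ⟨G, hG⟩ := hfg
  set Z : Finset (Fin n → 𝓞 K) := G ∪ Finset.univ.image c ∪ Finset.univ.biUnion Y with hZ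
  have hZH : ∀ y ∈ Z, ∑ j, a j * y j = 0 := by
    intro y hy
    rw [hZ, Finset.mem_union, Finset.mem_union] at hy
    rcases hy with (hy | hy) | hy
    · have : y ∈ LinearMap.ker L := by rw [← hG]; exact Submodule.subset_span hy
      exact this
    · obtain ⟨i, _, rfl⟩ := Finset.mem_image.mp hy
      exact hc2 i
    · obtain ⟨φ, _, hy⟩ := Finset.mem_biUnion.mp hy
      exact hY1 φ y hy
  let e : Fin Z.card ≃ Z := Z.equivFin.symm
  set h : Fin Z.card → Fin n → 𝓞 K := fun k => (e k : Fin n → 𝓞 K) with hh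
  have hsurj : ∀ y ∈ Z, ∃ k, h k = y := fun y hy => ⟨e.symm ⟨y, hy⟩, by simp [hh]⟩
  -- weights at each place
  have hs : ∀ w : InfinitePlace K, ∃ s : Fin Z.card → ℝ, (∀ k, 0 < s k) ∧
      ∀ i, ∑ k, s k * (w (h k i : K)) ^ 2 = 1 := by
    intro w
    apply stiemke (fun k i => (w (h k i : K)) ^ 2)
    intro c' hc' hcs'
    obtain ⟨y, hy, hneg⟩ := hY2 w.embedding c' hc' hcs'
    obtain ⟨k, hk⟩ := hsurj y (by
      rw [hZ, Finset.mem_union]; right
      exact Finset.mem_biUnion.mpr ⟨_, Finset.mem_univ _, hy⟩)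
    refine ⟨k, ?_⟩
    simp only [hk]
    simpa only [InfinitePlace.norm_embedding_eq] using hneg
  choose s hs0 hs1 using hs
  refine ⟨Z.card, h, fun k φ => (√(s (InfinitePlace.mk φ) k))⁻¹, fun k => hZH _ (e k).2,
    fun k φ => inv_pos.mpr (Real.sqrt_pos.mpr (hs0 _ _)), ?_, ?_, ?_, ?_⟩
  · intro k φ
    show (√(s (InfinitePlace.mk (ComplexEmbedding.conjugate φ)) k))⁻¹ = _
    rw [InfinitePlace.mk_conjugate_eq]
  · intro i φ
    rw [← hs1 (InfinitePlace.mk φ) i]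
    refine Finset.sum_congr rfl fun k _ => ?_
    rw [inv_pow, Real.sq_sqrt (hs0 _ _).le, div_inv_eq_mul, mul_comm, InfinitePlace.apply]
  · intro i
    obtain ⟨k, hk⟩ := hsurj (c i) (by
      rw [hZ, Finset.mem_union, Finset.mem_union]; left; right
      exact Finset.mem_image_of_mem _ (Finset.mem_univ i))
    exact ⟨k, by rw [hk]; exact hc1 i⟩
  · intro x hx
    have h1 : x ∈ Submodule.span (𝓞 K) (Set.range h) := by
      have h2 : x ∈ LinearMap.ker L := hx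
      rw [← hG] at h2
      refine Submodule.span_mono ?_ h2
      intro y hy
      obtain ⟨k, hk⟩ := hsurj y (by
        rw [hZ, Finset.mem_union, Finset.mem_union]; left; left; exact hy)
      exact ⟨k, hk⟩
    obtain ⟨g, hg⟩ := (Submodule.mem_span_range_iff_exists_fun (𝓞 K)).mp h1
    refine ⟨g, fun i => ?_⟩
    rw [← hg, Finset.sum_apply]
    rfl

end Pool.Agent.H11.Smyth
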