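import Mathlib
import Pool.Agent.H11.Smyth.Inward
import Pool.Agent.H11.Smyth.Weights
import Pool.Agent.H11.Smyth.GaussFinal

set_option autoImplicit false

namespace Pool.Agent.H11.Smyth

open NumberField Module Filter Topology

variable (K : Type*) [Field K] [NumberField K]

lemma house_finite (R : ℝ) : {t : 𝓞 K | house (t : K) ≤ R}.Finite := by
  have h := Embeddings.finite_of_norm_le K ℂ R
  have h2 := Set.Finite.preimage (f := fun t : 𝓞 K => (t : K))
    (RingOfIntegers.coe_injective.injOn) h
  refine h2.subset ?_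
  intro t ht
  refine ⟨RingOfIntegers.isIntegral_coe t, ?_⟩
  rw [Set.mem_ofPred_eq, house, canonicalEmbedding.norm_le_iff] at ht
  exact ht

theorem growth {n : ℕ} (a : Fin n → 𝓞 K) (ρ C : ℝ) (hρ0 : 0 ≤ ρ) (hρ1 : ρ < 1) (hC : 0 ≤ C)
    (hin : ∀ i, ∀ t : 𝓞 K, ∃ x : Fin n → 𝓞 K, x i = t ∧
      ∑ j, a j * x j = 0 ∧ ∀ j, j ≠ i → house (x j : K) ≤ ρ * house (t : K) + C) :
    ∃ (r0 : ℝ) (M : ℕ), 0 ≤ r0 ∧ ∀ (R : ℝ) (f : Fin n → 𝓞 K → ℝ),
      (∀ t : 𝓞 K, ∑ i, f i t = 0) →
      (∀ x : Fin n → 𝓞 K, ∑ j, a j * x j = 0 → (∀ j, house (x j : K) ≤ R) →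
        0 ≤ ∑ i, f i (x i)) →
      ∀ B : ℝ, 0 ≤ B → (∀ i (t : 𝓞 K), house (t : K) ≤ r0 → |f i t| ≤ B) →
      ∀ i (t : 𝓞 K), house (t : K) ≤ R → |f i t| ≤ B * (1 + house (t : K)) ^ M := by
  set r0 : ℝ := 2 * (1 + C) / (1 - ρ) with hr0
  have h1ρ : 0 < 1 - ρ := by linarith
  have hr0pos : 0 ≤ r0 := by positivity
  set ρ' : ℝ := (1 + ρ) / 2 with hρ'
  have hρ'1 : ρ' < 1 := by rw [hρ']; linarith
  have hρ'0 : 0 ≤ ρ' := by rw [hρ']; linarith
  obtain ⟨M, hM⟩ := exists_pow_lt_of_lt_one (show (0 : ℝ) < 1 / ((n : ℝ) ^ 2 + 1) by positivity) hρ'1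
  refine ⟨r0, M, hr0pos, fun R f hf0 hpos B hB hbase => ?_⟩
  have hpow1 : ∀ t : 𝓞 K, 1 ≤ (1 + house (t : K)) ^ M := fun t =>
    one_le_pow₀ (by linarith [house_nonneg (t : K)])
  have main : ∀ k : ℕ, ∀ i (t : 𝓞 K), house (t : K) ≤ r0 + k → house (t : K) ≤ R →
      |f i t| ≤ B * (1 + house (t : K)) ^ M := by
    intro k
    induction k with
    | zero =>
      intro i t ht _
      rw [Nat.cast_zero, add_zero] at ht
      calc |f i t| ≤ B := hbase i t ht
        _ = B * 1 := (mul_one B).symm
        _ ≤ _ := mul_le_mul_of_nonneg_left (hpow1 t) hB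
    | succ k ih =>
      intro i t ht htR
      by_cases htr : house (t : K) ≤ r0
      · calc |f i t| ≤ B := hbase i t htr
          _ = B * 1 := (mul_one B).symm
          _ ≤ _ := mul_le_mul_of_nonneg_left (hpow1 t) hB
      push Not at htr
      set h := house (t : K) with hh
      have hh0 : 0 ≤ h := house_nonneg _
      have h2 : 2 * (1 + C) < h * (1 - ρ) := by
        rw [hr0, div_lt_iff₀ h1ρ] at htr; exact htr
      set G : ℝ := B * (1 + C + ρ * h) ^ M with hG
      have hGnn : 0 ≤ G := by positivity
      -- lower bound for every index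
      have hlow : ∀ i', -(n * G) ≤ f i' t := by
        intro i'
        obtain ⟨x, hx1, hx2, hx3⟩ := hin i' t
        have hxle : ∀ j, j ≠ i' → house (x j : K) ≤ r0 + k ∧ house (x j : K) ≤ R := by
          intro j hj
          have h3 := hx3 j hj
          push_cast at ht
          constructor <;> nlinarith
        have hxR : ∀ j, house (x j : K) ≤ R := by
          intro j
          by_cases hj : j = i'
          · rw [hj, hx1]; exact htR
          · exact (hxle j hj).2
        have h4 := hpos x hx2 hxR
        rw [← Finset.add_sum_erase _ _ (Finset.mem_univ i'), hx1] at h4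
        have h5 : ∑ j ∈ Finset.univ.erase i', f j (x j) ≤ n * G := by
          calc ∑ j ∈ Finset.univ.erase i', f j (x j) ≤ ∑ _j ∈ Finset.univ.erase i', G := by
                refine Finset.sum_le_sum fun j hj => ?_
                have hj' := Finset.ne_of_mem_erase hj
                refine (le_abs_self _).trans ((ih j (x j) (hxle j hj').1 (hxle j hj').2).trans ?_)
                apply mul_le_mul_of_nonneg_left _ hB
                apply pow_le_pow_left₀ (by linarith [house_nonneg (x j : K)])
                linarith [hx3 j hj']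
            _ = ((Finset.univ.erase i').card : ℝ) * G := by
                rw [Finset.sum_const, nsmul_eq_mul]
            _ ≤ n * G := by
                apply mul_le_mul_of_nonneg_right _ hGnn
                have := Finset.card_erase_le (s := (Finset.univ : Finset (Fin n))) (a := i')
                rw [Finset.card_univ, Fintype.card_fin] at this
                exact_mod_cast this
        linarith
      have hup : f i t ≤ n * (n * G) := by
        have h4 := hf0 t
        rw [← Finset.add_sum_erase _ _ (Finset.mem_univ i)] at h4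
        have h5 : -∑ j ∈ Finset.univ.erase i, f j t ≤ n * (n * G) := by
          rw [← Finset.sum_neg_distrib]
          calc ∑ j ∈ Finset.univ.erase i, -f j t ≤ ∑ _j ∈ Finset.univ.erase i, (n * G) := by
                refine Finset.sum_le_sum fun j hj => ?_
                linarith [hlow j]
            _ = ((Finset.univ.erase i).card : ℝ) * (n * G) := by
                rw [Finset.sum_const, nsmul_eq_mul]
            _ ≤ n * (n * G) := by
                apply mul_le_mul_of_nonneg_right _ (by positivity)
                have := Finset.card_erase_le (s := (Finset.univ : Finset (Fin n))) (a := i)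
                rw [Finset.card_univ, Fintype.card_fin] at this
                exact_mod_cast this
        linarith
      have hn1 : (1 : ℝ) ≤ n := by
        have : 0 < n := Fin.pos i
        exact_mod_cast this
      have habs : |f i t| ≤ n ^ 2 * G := by
        rw [abs_le]
        have := hlow i
        constructor <;> nlinarith
      have hcomp : (1 + C + ρ * h) ^ M ≤ (ρ' * (1 + h)) ^ M := by
        apply pow_le_pow_left₀ (by positivity)
        rw [hρ']
        nlinarith
      have hfin : (n : ℝ) ^ 2 * (ρ' * (1 + h)) ^ M ≤ (1 + h) ^ M := by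
        rw [mul_pow, ← mul_assoc]
        have h6 : (n : ℝ) ^ 2 * ρ' ^ M ≤ 1 := by
          rw [lt_div_iff₀ (by positivity)] at hM
          have : 0 ≤ ρ' ^ M := by positivity
          nlinarith
        calc (n : ℝ) ^ 2 * ρ' ^ M * (1 + h) ^ M ≤ 1 * (1 + h) ^ M := by gcongr
          _ = _ := one_mul _
      calc |f i t| ≤ n ^ 2 * G := habs
        _ = B * (n ^ 2 * (1 + C + ρ * h) ^ M) := by rw [hG]; ring
        _ ≤ B * (n ^ 2 * (ρ' * (1 + h)) ^ M) := by gcongr
        _ ≤ B * (1 + h) ^ M := by gcongr
  intro i t ht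
  obtain ⟨k, hk⟩ := exists_nat_ge (house (t : K) - r0)
  exact main k i t (by linarith) ht

end Pool.Agent.H11.Smyth
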