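import Mathlib
import Pool.Agent.H11.Smyth.Growth
import Pool.Agent.H11.Smyth.Gordan

set_option autoImplicit false

namespace Pool.Agent.H11.Smyth

open NumberField Module Filter Topology

variable (K : Type*) [Field K] [NumberField K]

/-- a nonnegative, polynomially bounded `F` vanishes on `H` -/
theorem gauss_H {n : ℕ} (a : Fin n → 𝓞 K)
    (harch : ∀ φ : K →+* ℂ, ∀ i, ‖φ (a i : K)‖ < ∑ j ∈ Finset.univ.erase i, ‖φ (a j : K)‖)
    (hna : ∀ i, ∃ c : Fin n → 𝓞 K, c i = 1 ∧ ∑ j, a j * c j = 0)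
    (f : Fin n → 𝓞 K → ℝ) (hf0 : ∀ t, ∑ i, f i t = 0) (B : ℝ) (M : ℕ) (hB : 0 ≤ B)
    (hgrow : ∀ i t, |f i t| ≤ B * (1 + house (t : K)) ^ M)
    (hpos : ∀ x : Fin n → 𝓞 K, ∑ j, a j * x j = 0 → 0 ≤ ∑ i, f i (x i)) :
    ∀ x : Fin n → 𝓞 K, ∑ j, a j * x j = 0 → ∑ i, f i (x i) = 0 := by
  obtain ⟨m, h, r, hH, hr, hrc, hw, h1, hgen⟩ := weights K a harch hna
  have key := gauss_nf K h r hr hrc hw h1 f hf0 B M hB hgrow (fun g => by
    apply hpos
    have h2 : ∀ j, a j * ∑ k, g k * h k j = ∑ k, g k * (a j * h k j) := by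
      intro j
      rw [Finset.mul_sum]
      exact Finset.sum_congr rfl fun k _ => by ring
    simp_rw [h2]
    rw [Finset.sum_comm]
    refine Finset.sum_eq_zero fun k _ => ?_
    rw [← Finset.mul_sum, hH, mul_zero])
  intro x hx
  obtain ⟨g, hg⟩ := hgen x hx
  have := key g
  simp_rw [hg] at this
  exact this

theorem exists_equal_marg {n : ℕ} (hn : 0 < n) (a : Fin n → 𝓞 K)
    (harch : ∀ φ : K →+* ℂ, ∀ i, ‖φ (a i : K)‖ < ∑ j ∈ Finset.univ.erase i, ‖φ (a j : K)‖)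
    (hna : ∀ i, ∃ c : Fin n → 𝓞 K, c i = 1 ∧ ∑ j, a j * c j = 0) :
    ∃ (N : ℕ) (x : Fin N → Fin n → 𝓞 K), (∀ k, ∑ j, a j * x k j = 0) ∧ (∃ k i, x k i ≠ 0) ∧
      ∀ i j, ∃ π : Equiv.Perm (Fin N), ∀ k, x k i = x (π k) j := by
  classical
  by_contra hcon
  push Not at hcon
  obtain ⟨ρ, C, hρ0, hρ1, hC, hin⟩ := inward K a harch hna
  obtain ⟨r0, M, hr0, hgr⟩ := growth K a ρ C hρ0 hρ1 hC hin
  -- separating functions for each `R`
  have hsep : ∀ R : ℕ, ∃ f : Fin n → 𝓞 K → ℝ, (∀ t, ∑ i, f i t = 0) ∧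
      ∀ x : Fin n → 𝓞 K, ∑ j, a j * x j = 0 → (∀ j, house (x j : K) ≤ R) → x ≠ 0 →
        0 < ∑ i, f i (x i) := by
    intro R
    have hfin : {x : Fin n → 𝓞 K | ∑ j, a j * x j = 0 ∧ (∀ j, house (x j : K) ≤ R) ∧
        x ≠ 0}.Finite := by
      have h1 : (Set.pi Set.univ (fun _ : Fin n => {t : 𝓞 K | house (t : K) ≤ R})).Finite :=
        Set.Finite.pi' (fun _ => house_finite K R) |>.subset (by
          intro x hx i
          exact hx i (Set.mem_univ i))
      refine h1.subset ?_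
      rintro x ⟨_, hx, _⟩ j _
      exact hx j
    set X := hfin.toFinset with hX
    have hXmem : ∀ x, x ∈ X ↔ (∑ j, a j * x j = 0 ∧ (∀ j, house (x j : K) ≤ R) ∧ x ≠ 0) :=
      fun x => hfin.mem_toFinset
    let e : Fin X.card ≃ X := X.equivFin.symm
    rcases gordan_marg (fun k : Fin X.card => ((e k : X) : Fin n → 𝓞 K)) with
      ⟨N', y, hN', hy⟩ | ⟨f, hf0, hf⟩
    · exfalso
      obtain ⟨i, j, hij⟩ := hcon N' (fun k => ((e (y k) : X) : Fin n → 𝓞 K))
        (fun k => ((hXmem _).mp (e (y k)).2).1)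
        (by
          have hne := ((hXmem _).mp (e (y ⟨0, hN'⟩)).2).2.2
          obtain ⟨i, hi⟩ := Function.ne_iff.mp hne
          exact ⟨⟨0, hN'⟩, i, hi⟩)
      obtain ⟨π, hπ⟩ := hy i j
      obtain ⟨k, hk⟩ := hij π
      exact hk (hπ k)
    · refine ⟨f, hf0, fun x hx1 hx2 hx3 => ?_⟩
      have hxX : x ∈ X := (hXmem x).mpr ⟨hx1, hx2, hx3⟩
      have := hf (e.symm ⟨x, hxX⟩)
      simpa using this
  choose fR hfR0 hfRpos using hsep
  -- the finite window
  set S := (house_finite K r0).toFinset with hS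
  have hSmem : ∀ t : 𝓞 K, t ∈ S ↔ house (t : K) ≤ r0 := fun t => (house_finite K r0).mem_toFinset
  let V := Fin n → S → ℝ
  let res : (Fin n → 𝓞 K → ℝ) →ₗ[ℝ] V :=
    { toFun := fun f i s => f i s
      map_add' := fun f g => rfl
      map_smul' := fun c f => rfl }
  let LR : ℕ → Submodule ℝ (Fin n → 𝓞 K → ℝ) := fun R =>
    { carrier := {f | (∀ t, ∑ i, f i t = 0) ∧ ∀ x : Fin n → 𝓞 K, ∑ j, a j * x j = 0 →
        (∀ j, house (x j : K) ≤ R) → ∑ i, f i (x i) = 0}
      add_mem' := by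
        rintro f g ⟨hf1, hf2⟩ ⟨hg1, hg2⟩
        refine ⟨fun t => ?_, fun x hx1 hx2 => ?_⟩
        · simp only [Pi.add_apply, Finset.sum_add_distrib, hf1, hg1, add_zero]
        · simp only [Pi.add_apply, Finset.sum_add_distrib, hf2 x hx1 hx2, hg2 x hx1 hx2, add_zero]
      zero_mem' := by
        refine ⟨fun t => ?_, fun x hx1 hx2 => ?_⟩ <;> simp
      smul_mem' := by
        rintro c f ⟨hf1, hf2⟩
        refine ⟨fun t => ?_, fun x hx1 hx2 => ?_⟩
        · simp only [Pi.smul_apply, smul_eq_mul, ← Finset.mul_sum, hf1, mul_zero]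
        · simp only [Pi.smul_apply, smul_eq_mul, ← Finset.mul_sum, hf2 x hx1 hx2, mul_zero] }
  have hLRmem : ∀ R f, f ∈ LR R ↔ ((∀ t, ∑ i, f i t = 0) ∧ ∀ x : Fin n → 𝓞 K,
      ∑ j, a j * x j = 0 → (∀ j, house (x j : K) ≤ R) → ∑ i, f i (x i) = 0) :=
    fun R f => Iff.rfl
  have hLRanti : ∀ R R' : ℕ, R ≤ R' → LR R' ≤ LR R := by
    intro R R' hRR f hf
    rw [hLRmem] at hf ⊢
    refine ⟨hf.1, fun x hx1 hx2 => hf.2 x hx1 fun j => (hx2 j).trans ?_⟩
    exact_mod_cast hRR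
  let PR : ℕ →o (Submodule ℝ V)ᵒᵈ :=
    { toFun := fun R => OrderDual.toDual ((LR R).map res)
      monotone' := fun R R' hRR => Submodule.map_mono (hLRanti R R' hRR) }
  obtain ⟨R1, hR1⟩ := IsArtinian.monotone_stabilizes PR
  have hP : ∀ R, R1 ≤ R → (LR R).map res = (LR R1).map res := by
    intro R hR
    exact (OrderDual.toDual.injective (hR1 R hR)).symm
  obtain ⟨W, hW⟩ := Submodule.exists_isCompl ((LR R1).map res)
  -- a nonzero element of `H`
  obtain ⟨c, hc1, hc2⟩ := hna ⟨0, hn⟩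
  have hcne : c ≠ 0 := by
    intro h
    rw [h] at hc1
    exact zero_ne_one hc1
  obtain ⟨R2, hR2⟩ : ∃ R2 : ℕ, ∀ j, house (c j : K) ≤ R2 := by
    obtain ⟨R2, hR2⟩ := exists_nat_ge (∑ j, house (c j : K))
    exact ⟨R2, fun j => (Finset.single_le_sum (f := fun j => house (c j : K))
      (fun j _ => house_nonneg _) (Finset.mem_univ j)).trans hR2⟩
  -- normalised functions
  have hG : ∀ R : ℕ, ∃ g : Fin n → 𝓞 K → ℝ, (∀ t, ∑ i, g i t = 0) ∧
      (∀ x : Fin n → 𝓞 K, ∑ j, a j * x j = 0 → (∀ j, house (x j : K) ≤ R) →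
        0 ≤ ∑ i, g i (x i)) ∧ res g ∈ W ∧ ‖res g‖ = 1 ∧
      (∀ i (t : 𝓞 K), house (t : K) ≤ R → |g i t| ≤ (1 + house (t : K)) ^ M) := by
    intro R
    set R' := R + R1 + R2 with hR'
    have hR'1 : R1 ≤ R' := by omega
    have hRR' : (R : ℝ) ≤ R' := by
      have : R ≤ R' := by omega
      exact_mod_cast this
    have hR2R' : (R2 : ℝ) ≤ R' := by
      have : R2 ≤ R' := by omega
      exact_mod_cast this
    have hdec : res (fR R') ∈ (LR R1).map res ⊔ W := by
      rw [hW.sup_eq_top]; exact Submodule.mem_top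
    obtain ⟨p, hp, w, hw, hpw⟩ := Submodule.mem_sup.mp hdec
    rw [← hP R' hR'1] at hp
    obtain ⟨l, hl, hlp⟩ := Submodule.mem_map.mp hp
    set g0 := fR R' - l with hg0
    have hl' := (hLRmem R' l).mp hl
    have hg01 : ∀ t, ∑ i, g0 i t = 0 := by
      intro t
      simp only [hg0, Pi.sub_apply, Finset.sum_sub_distrib, hfR0, hl'.1, sub_zero]
    have hg0F : ∀ x : Fin n → 𝓞 K, ∑ j, a j * x j = 0 → (∀ j, house (x j : K) ≤ R') →
        ∑ i, g0 i (x i) = ∑ i, fR R' i (x i) := by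
      intro x hx1 hx2
      simp only [hg0, Pi.sub_apply, Finset.sum_sub_distrib, hl'.2 x hx1 hx2, sub_zero]
    have hg0pos : ∀ x : Fin n → 𝓞 K, ∑ j, a j * x j = 0 → (∀ j, house (x j : K) ≤ R') →
        0 ≤ ∑ i, g0 i (x i) := by
      intro x hx1 hx2
      rw [hg0F x hx1 hx2]
      by_cases hx : x = 0
      · subst hx
        simp only [Pi.zero_apply, hfR0]
        exact le_refl _
      · exact (hfRpos R' x hx1 hx2 hx).le
    have hres : res g0 = w := by
      rw [hg0, map_sub, hlp, ← hpw, add_sub_cancel_left]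
    have hgrow0 : ∀ i (t : 𝓞 K), house (t : K) ≤ R' → |g0 i t| ≤
        ‖res g0‖ * (1 + house (t : K)) ^ M := by
      apply hgr R' g0 hg01 hg0pos _ (norm_nonneg _)
      intro i t ht
      have htS : t ∈ S := (hSmem t).mpr ht
      have h1 : |g0 i t| = ‖res g0 i ⟨t, htS⟩‖ := by rw [Real.norm_eq_abs]; rfl
      rw [h1]
      exact (norm_le_pi_norm (res g0 i) ⟨t, htS⟩).trans (norm_le_pi_norm (res g0) i)
    have hw0 : ‖res g0‖ ≠ 0 := by
      intro h0
      have h1 := hfRpos R' c hc2 (fun j => (hR2 j).trans hR2R') hcne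
      rw [← hg0F c hc2 (fun j => (hR2 j).trans hR2R')] at h1
      have h2 : ∑ i, g0 i (c i) = 0 := by
        refine Finset.sum_eq_zero fun i _ => ?_
        have h3 := hgrow0 i (c i) ((hR2 i).trans hR2R')
        rw [h0, zero_mul] at h3
        exact abs_eq_zero.mp (le_antisymm h3 (abs_nonneg _))
      rw [h2] at h1
      exact lt_irrefl _ h1
    have hw1 : 0 < ‖res g0‖ := lt_of_le_of_ne (norm_nonneg _) (Ne.symm hw0)
    refine ⟨‖res g0‖⁻¹ • g0, ?_, ?_, ?_, ?_, ?_⟩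
    · intro t
      simp only [Pi.smul_apply, smul_eq_mul, ← Finset.mul_sum, hg01, mul_zero]
    · intro x hx1 hx2
      simp only [Pi.smul_apply, smul_eq_mul, ← Finset.mul_sum]
      exact mul_nonneg (by positivity) (hg0pos x hx1 fun j => (hx2 j).trans hRR')
    · rw [map_smul]
      apply W.smul_mem
      rw [hres]; exact hw
    · rw [map_smul, norm_smul, norm_inv, norm_norm, inv_mul_cancel₀ hw0]
    · intro i t ht
      simp only [Pi.smul_apply, smul_eq_mul]
      rw [abs_mul, abs_of_pos (inv_pos.mpr hw1), inv_mul_le_iff₀ hw1]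
      exact hgrow0 i t (ht.trans hRR')
  choose G hG1 hG2 hG3 hG4 hG5 using hG
  -- ultrafilter limit
  let U : Ultrafilter ℕ := Filter.hyperfilter ℕ
  have hU : (U : Filter ℕ) ≤ atTop := by
    rw [← Nat.cofinite_eq_atTop]
    exact Filter.hyperfilter_le_cofinite
  have hev : ∀ (T : ℝ), ∀ᶠ R : ℕ in (U : Filter ℕ), T ≤ (R : ℝ) := by
    intro T
    exact hU (tendsto_natCast_atTop_atTop.eventually (eventually_ge_atTop T))
  have hlim : ∀ i (t : 𝓞 K), ∃ y : ℝ, Tendsto (fun R => G R i t) (U : Filter ℕ) (𝓝 y) := by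
    intro i t
    set b := (1 + house (t : K)) ^ M with hb
    have hmem : Set.Icc (-b) b ∈ U.map (fun R => G R i t) := by
      rw [Ultrafilter.mem_map]
      filter_upwards [hev (house (t : K))] with R hR
      exact abs_le.mp (hG5 R i t hR)
    obtain ⟨y, _, hy⟩ := isCompact_Icc.ultrafilter_le_nhds' _ hmem
    exact ⟨y, hy⟩
  choose f hf using hlim
  have hf0 : ∀ t, ∑ i, f i t = 0 := by
    intro t
    have h1 : Tendsto (fun R => ∑ i, G R i t) (U : Filter ℕ) (𝓝 (∑ i, f i t)) :=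
      tendsto_finsetSum _ fun i _ => hf i t
    simp only [hG1] at h1
    exact tendsto_nhds_unique h1 tendsto_const_nhds
  have hfF : ∀ x : Fin n → 𝓞 K, ∑ j, a j * x j = 0 → 0 ≤ ∑ i, f i (x i) := by
    intro x hx
    have h1 : Tendsto (fun R => ∑ i, G R i (x i)) (U : Filter ℕ) (𝓝 (∑ i, f i (x i))) :=
      tendsto_finsetSum _ fun i _ => hf i (x i)
    refine ge_of_tendsto h1 ?_
    filter_upwards [hev (∑ j, house (x j : K))] with R hR
    exact hG2 R x hx fun j => (Finset.single_le_sum (f := fun j => house (x j : K))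
      (fun j _ => house_nonneg _) (Finset.mem_univ j)).trans hR
  have hfb : ∀ i (t : 𝓞 K), |f i t| ≤ 1 * (1 + house (t : K)) ^ M := by
    intro i t
    rw [one_mul]
    refine le_of_tendsto (hf i t).abs ?_
    filter_upwards [hev (house (t : K))] with R hR
    exact hG5 R i t hR
  have hzero := gauss_H K a harch hna f hf0 1 M zero_le_one hfb hfF
  have hrestend : Tendsto (fun R => res (G R)) (U : Filter ℕ) (𝓝 (res f)) := by
    rw [tendsto_pi_nhds]
    intro i
    rw [tendsto_pi_nhds]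
    intro s
    exact hf i s
  have hresW : res f ∈ W := by
    have hcl : IsClosed (W : Set V) := Submodule.closed_of_finiteDimensional W
    exact hcl.mem_of_tendsto hrestend (Eventually.of_forall fun R => hG3 R)
  have hres1 : ‖res f‖ = 1 := by
    have h1 := hrestend.norm
    simp only [hG4] at h1
    exact (tendsto_nhds_unique h1 tendsto_const_nhds)
  have hresP : res f ∈ (LR R1).map res := by
    refine Submodule.mem_map.mpr ⟨f, ?_, rfl⟩
    rw [hLRmem]
    exact ⟨hf0, fun x hx _ => hzero x hx⟩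
  have hdisj : res f ∈ (LR R1).map res ⊓ W := ⟨hresP, hresW⟩
  rw [hW.inf_eq_bot, Submodule.mem_bot] at hdisj
  rw [hdisj, norm_zero] at hres1
  exact zero_ne_one hres1

end Pool.Agent.H11.Smyth
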