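import Pool.Agent.H11.Smyth.GalK

open NumberField

namespace Pool.Agent.H11.Smyth

/-- From a finite family of solutions with equal marginals to conjugate algebraic numbers. -/
theorem realize (K Ω : Type*) [Field K] [NumberField K] [Field Ω] [CharZero Ω] [IsAlgClosed Ω]
    [Algebra K Ω] [Algebra.IsAlgebraic K Ω] {n : ℕ} (a : Fin n → K) (N : ℕ)
    (x : Fin N → Fin n → K) (hsum : ∀ k, ∑ i, a i * x k i = 0) (hne : ∃ k i, x k i ≠ 0)
    (hmarg : ∀ i j, ∃ π : Equiv.Perm (Fin N), ∀ k, x k i = x (π k) j) :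
    ∃ α : Fin n → Ω, (∀ i, α i ≠ 0) ∧ (∀ i j, minpoly K (α i) = minpoly K (α j)) ∧
      ∑ i, algebraMap K Ω (a i) * α i = 0 := by
  classical
  obtain ⟨p, hpge, hp⟩ := Nat.exists_infinite_primes (N + 5 + Module.finrank ℚ K + 1)
  let β := ((sel ℚ p).rootSet Ω)
  have hcard : Fintype.card β = p := by
    rw [← Nat.card_eq_fintype_card]
    exact rootSet_card hp.two_le Ω (IsAlgClosed.splits _)
  have haut := fun σ hσ => exists_aut K Ω hp (by omega) (by omega) (σ := σ) hσ
  -- an embedding of the index set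
  obtain ⟨e⟩ : Nonempty (Fin N ↪ β) := by
    apply Function.Embedding.nonempty_of_card_le
    rw [hcard, Fintype.card_fin]; omega
  -- two roots outside the range
  have hout : 2 ≤ ((Finset.univ.map e)ᶜ : Finset β).card := by
    rw [Finset.card_compl, Finset.card_map, Finset.card_univ, Fintype.card_fin, hcard]
    omega
  obtain ⟨u, hu, v, hv, huv⟩ := Finset.one_lt_card.1 (by omega : 1 < ((Finset.univ.map e)ᶜ : Finset β).card)
  have hu' : ∀ k, e k ≠ u := by
    intro k h
    rw [Finset.mem_compl] at hu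
    exact hu (Finset.mem_map.2 ⟨k, Finset.mem_univ _, h⟩)
  have hv' : ∀ k, e k ≠ v := by
    intro k h
    rw [Finset.mem_compl] at hv
    exact hv (Finset.mem_map.2 ⟨k, Finset.mem_univ _, h⟩)
  -- the extended family
  let Y : β → Fin n → K := fun b => if h : ∃ k, e k = b then x h.choose else 0
  have hXe : ∀ k, Y (e k) = x k := by
    intro k
    have h : ∃ k', e k' = e k := ⟨k, rfl⟩
    have h1 : h.choose = k := e.injective h.choose_spec
    simp only [Y]
    rw [dif_pos h, h1]
  have hX0 : ∀ b, (∀ k, e k ≠ b) → Y b = 0 := by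
    intro b hb
    simp only [Y]
    rw [dif_neg]
    rintro ⟨k, hk⟩
    exact hb k hk
  have hXu : Y u = 0 := hX0 u hu'
  have hXv : Y v = 0 := hX0 v hv'
  have hXsum : ∀ b, ∑ i, a i * Y b i = 0 := by
    intro b
    by_cases h : ∃ k, e k = b
    · obtain ⟨k, rfl⟩ := h
      rw [hXe]; exact hsum k
    · push Not at h
      rw [hX0 b h]; simp
  -- even permutations
  have hperm : ∀ i j, ∃ σ : Equiv.Perm β, σ ∈ alternatingGroup β ∧ ∀ b, Y b i = Y (σ b) j := by
    intro i j
    obtain ⟨π, hπ⟩ := hmarg i j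
    let τ : Equiv.Perm β := π.viaEmbedding e
    have hτe : ∀ k, τ (e k) = e (π k) := fun k => Equiv.Perm.viaEmbedding_apply π e k
    have hτo : ∀ b, (∀ k, e k ≠ b) → τ b = b := by
      intro b hb
      apply Equiv.Perm.viaEmbedding_apply_of_notMem
      rintro ⟨k, hk⟩
      exact hb k hk
    have hτ : ∀ b, Y b i = Y (τ b) j := by
      intro b
      by_cases h : ∃ k, e k = b
      · obtain ⟨k, rfl⟩ := h
        rw [hτe, hXe, hXe, hπ]
      · push Not at h
        rw [hτo b h, hX0 b h]; rfl
    by_cases hs : Equiv.Perm.sign τ = 1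
    · exact ⟨τ, Equiv.Perm.mem_alternatingGroup.2 hs, hτ⟩
    · refine ⟨τ * Equiv.swap u v, ?_, ?_⟩
      · rw [Equiv.Perm.mem_alternatingGroup, Equiv.Perm.sign_mul, Equiv.Perm.sign_swap huv]
        have : Equiv.Perm.sign τ = -1 := (Int.units_eq_one_or _).resolve_left hs
        rw [this]; rfl
      · intro b
        rw [Equiv.Perm.mul_apply]
        by_cases hbu : b = u
        · rw [hbu, Equiv.swap_apply_left, hτo v hv', hXu, hXv]; rfl
        · by_cases hbv : b = v
          · rw [hbv, Equiv.swap_apply_right, hτo u hu', hXu, hXv]; rfl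
          · rw [Equiv.swap_apply_of_ne_of_ne hbu hbv]
            exact hτ b
  -- the algebraic numbers
  let α : Fin n → Ω := fun i => ∑ b : β, algebraMap K Ω (Y b i) * (b : Ω)
  refine ⟨α, ?_, ?_, ?_⟩
  · intro i hi
    obtain ⟨k0, i0, hk0⟩ := hne
    obtain ⟨π, hπ⟩ := hmarg i0 i
    have hki : x (π k0) i ≠ 0 := by rw [← hπ k0]; exact hk0
    set b := e (π k0) with hb
    have hbu : b ≠ u := hu' _
    have hbv : b ≠ v := hv' _
    let σ : Equiv.Perm β := Equiv.swap b u * Equiv.swap u v
    have hσ : σ ∈ alternatingGroup β := by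
      rw [Equiv.Perm.mem_alternatingGroup, Equiv.Perm.sign_mul, Equiv.Perm.sign_swap huv,
        Equiv.Perm.sign_swap hbu]
      rfl
    obtain ⟨g, hg⟩ := haut σ hσ
    have h1 : g (α i) = ∑ c : β, algebraMap K Ω (Y c i) * ((σ c : β) : Ω) := by
      simp only [α]
      rw [map_sum]
      apply Finset.sum_congr rfl
      intro c _
      rw [map_mul, AlgEquiv.commutes, hg]
    rw [hi, map_zero] at h1
    have h2 : ∑ c : β, algebraMap K Ω (Y c i) * (((σ c : β) : Ω) - (c : Ω)) = 0 := by
      have h3 : ∑ c : β, algebraMap K Ω (Y c i) * (c : Ω) = 0 := hi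
      simp only [mul_sub]
      rw [Finset.sum_sub_distrib, ← h1, h3, sub_zero]
    rw [Finset.sum_eq_single b] at h2
    · have h3 : σ b = u := by
        simp only [σ, Equiv.Perm.mul_apply]
        rw [Equiv.swap_apply_of_ne_of_ne hbu hbv, Equiv.swap_apply_left]
      rw [h3] at h2
      rcases mul_eq_zero.1 h2 with h4 | h4
      · have h5 := (map_eq_zero (algebraMap K Ω)).1 h4
        rw [hb, hXe] at h5
        exact hki h5
      · have h5 := sub_eq_zero.1 h4
        exact hbu (Subtype.ext h5.symm)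
    · intro c _ hcb
      by_cases hcu : c = u
      · rw [hcu, hXu]; simp
      · by_cases hcv : c = v
        · rw [hcv, hXv]; simp
        · have h3 : σ c = c := by
            simp only [σ, Equiv.Perm.mul_apply]
            rw [Equiv.swap_apply_of_ne_of_ne hcu hcv, Equiv.swap_apply_of_ne_of_ne hcb hcu]
          rw [h3, sub_self, mul_zero]
    · intro h
      exact absurd (Finset.mem_univ b) h
  · intro i j
    obtain ⟨σ, hσ, hX⟩ := hperm i j
    obtain ⟨g, hg⟩ := haut σ⁻¹ (Subgroup.inv_mem _ hσ)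
    have h1 : g (α j) = α i := by
      simp only [α]
      rw [map_sum]
      rw [← Equiv.sum_comp σ]
      apply Finset.sum_congr rfl
      intro b _
      rw [map_mul, AlgEquiv.commutes, hg, ← hX b]
      congr 2
      exact Equiv.symm_apply_apply σ b
    rw [← h1]
    exact minpoly.algEquiv_eq g (α j)
  · simp only [α, Finset.mul_sum]
    rw [Finset.sum_comm]
    apply Finset.sum_eq_zero
    intro b _
    have h1 : ∑ i, algebraMap K Ω (a i) * (algebraMap K Ω (Y b i) * (b : Ω)) =
        algebraMap K Ω (∑ i, a i * Y b i) * (b : Ω) := by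
      rw [map_sum, Finset.sum_mul]
      apply Finset.sum_congr rfl
      intro i _
      rw [map_mul]; ring
    rw [h1, hXsum b]; simp

end Pool.Agent.H11.Smyth
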