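import Mathlib

open NumberField Polynomial

namespace Pool.Agent.H11.Smyth

/-- A vanishing sum with roots of unity gives conjugates. -/
theorem of_roots {K Ω : Type*} [Field K] [NumberField K] [Field Ω] [IsAlgClosed Ω]
    [Algebra K Ω] {n : ℕ} (a : Fin n → K) (ω : Fin n → Ω)
    (hω : ∀ i, ∃ m : ℕ, 0 < m ∧ ω i ^ m = 1) (hsum : ∑ i, algebraMap K Ω (a i) * ω i = 0) :
    ∃ α : Fin n → Ω, (∀ i, α i ≠ 0) ∧ (∀ i j, minpoly K (α i) = minpoly K (α j)) ∧
      ∑ i, algebraMap K Ω (a i) * α i = 0 := by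
  choose m hm hm1 using hω
  set M := ∏ i, m i with hM
  have hMpos : 0 < M := Finset.prod_pos (fun i _ => hm i)
  have hωM : ∀ i, ω i ^ M = 1 := by
    intro i
    obtain ⟨k, hk⟩ := Finset.dvd_prod_of_mem m (Finset.mem_univ i)
    rw [hM, hk, pow_mul, hm1, one_pow]
  -- a prime of the ring of integers
  obtain ⟨P, hP0, hP⟩ := Ring.not_isField_iff_exists_prime.1 (RingOfIntegers.not_isField K)
  have hP1 : P ≠ ⊤ := hP.ne_top
  obtain ⟨c, hc1, hc2⟩ := Ideal.exists_mem_pow_notMem_pow_succ P hP0 hP1 1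
  rw [pow_one] at hc1
  have hmonic : (X ^ M - C c : (𝓞 K)[X]).Monic := monic_X_pow_sub_C c hMpos.ne'
  have hdeg : (X ^ M - C c : (𝓞 K)[X]).natDegree = M := natDegree_X_pow_sub_C
  have heis : (X ^ M - C c : (𝓞 K)[X]).IsEisensteinAt P := by
    refine ⟨?_, ?_, ?_⟩
    · rw [hmonic.leadingCoeff]
      exact fun h => hP1 ((Ideal.eq_top_iff_one P).2 h)
    · intro k hk
      rw [hdeg] at hk
      rw [coeff_sub, coeff_X_pow, coeff_C]
      rw [if_neg hk.ne]
      split_ifs
      · rw [zero_sub]; exact P.neg_mem hc1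
      · rw [sub_zero]; exact P.zero_mem
    · rw [coeff_sub, coeff_X_pow, coeff_C]
      rw [if_neg hMpos.ne, if_pos rfl, zero_sub]
      intro h
      apply hc2
      have := (P ^ 2).neg_mem h
      rwa [neg_neg] at this
  have hirr : Irreducible (X ^ M - C c : (𝓞 K)[X]) :=
    heis.irreducible hP hmonic.isPrimitive (by rw [hdeg]; exact hMpos)
  have hirrK : Irreducible (X ^ M - C (c : K) : K[X]) := by
    have := (hmonic.irreducible_iff_irreducible_map_fraction_map (K := K)).1 hirr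
    simpa using this
  have hc0 : (c : K) ≠ 0 := by
    intro h
    apply hc2
    have : c = 0 := RingOfIntegers.coe_injective (by rw [map_zero]; exact h)
    rw [this]; exact Ideal.zero_mem _
  obtain ⟨θ, hθ⟩ := IsAlgClosed.exists_pow_nat_eq (algebraMap K Ω c) hMpos
  have hθ0 : θ ≠ 0 := by
    intro h
    rw [h, zero_pow hMpos.ne'] at hθ
    exact hc0 ((map_eq_zero (algebraMap K Ω)).1 hθ.symm)
  have hmin : ∀ i, minpoly K (ω i * θ) = X ^ M - C (c : K) := by
    intro i
    symm
    apply minpoly.eq_of_irreducible_of_monic hirrK _ (monic_X_pow_sub_C _ hMpos.ne')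
    simp only [map_sub, map_pow, aeval_X, aeval_C]
    rw [mul_pow, hωM, one_mul, hθ, sub_self]
  refine ⟨fun i => ω i * θ, ?_, ?_, ?_⟩
  · intro i
    apply mul_ne_zero _ hθ0
    intro h
    have := hωM i
    rw [h, zero_pow hMpos.ne'] at this
    exact zero_ne_one this
  · intro i j
    rw [hmin, hmin]
  · have : ∑ i, algebraMap K Ω (a i) * (ω i * θ) = (∑ i, algebraMap K Ω (a i) * ω i) * θ := by
      rw [Finset.sum_mul]
      exact Finset.sum_congr rfl (fun i _ => by ring)
    rw [this, hsum, zero_mul]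

end Pool.Agent.H11.Smyth
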