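import Mathlib

/-!
The Galois group over the rationals of `X ^ p - X - 1`, `p` prime, is the full symmetric group.
-/

open Polynomial

namespace Pool.Agent.H11.Smyth

/-- The Selmer polynomial. -/
noncomputable def sel (R : Type*) [CommRing R] (n : ℕ) : R[X] := X ^ n - X - 1

lemma sel_monic (R : Type*) [CommRing R] [Nontrivial R] {n : ℕ} (hn : 2 ≤ n) : (sel R n).Monic := by
  have h : sel R n = X ^ n + (-X - 1) := by simp only [sel]; ring
  rw [h]
  apply monic_X_pow_add
  have h1 : (-X - 1 : R[X]) = C (-1) * X + C (-1) := by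
    simp only [map_neg, map_one]; ring
  rw [h1]
  calc degree (C (-1 : R) * X + C (-1)) ≤ 1 := degree_linear_le
    _ < n := by exact_mod_cast (by omega : 1 < n)

lemma sel_natDegree (R : Type*) [CommRing R] [Nontrivial R] {n : ℕ} (hn : 2 ≤ n) :
    (sel R n).natDegree = n := by
  have h : sel R n = X ^ n + (-X - 1) := by simp only [sel]; ring
  rw [h]
  rw [natDegree_add_eq_left_of_natDegree_lt]
  · simp
  · have h1 : (-X - 1 : R[X]) = C (-1) * X + C (-1) := by
      simp only [map_neg, map_one]; ring
    rw [h1, natDegree_X_pow]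
    exact lt_of_le_of_lt natDegree_linear_le (by omega)

lemma sel_map {R S : Type*} [CommRing R] [CommRing S] (φ : R →+* S) (n : ℕ) :
    (sel R n).map φ = sel S n := by
  simp [sel]

lemma sel_eval {R : Type*} [CommRing R] (n : ℕ) (x : R) : (sel R n).eval x = x ^ n - x - 1 := by
  simp [sel]

lemma sel_derivative {R : Type*} [CommRing R] (n : ℕ) :
    derivative (sel R n) = C (n : R) * X ^ (n - 1) - 1 := by
  simp only [sel, derivative_sub, derivative_X_pow, derivative_X, derivative_one, sub_zero, map_natCast]

/-- multiple roots of the Selmer polynomial over a field -/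
lemma sel_mult {F : Type*} [Field F] {n : ℕ} (hn : 2 ≤ n) {x : F}
    (hx : 1 < (sel F n).rootMultiplicity x) : ((n : F) - 1) * x = - n ∧ (n : F) ≠ 0 ∧ x ≠ 0 ∧
      (n : F) - 1 ≠ 0 := by
  have h0 : sel F n ≠ 0 := (sel_monic F hn).ne_zero
  rw [one_lt_rootMultiplicity_iff_isRoot h0] at hx
  obtain ⟨h1, h2⟩ := hx
  rw [IsRoot.def, sel_eval] at h1
  rw [IsRoot.def, sel_derivative] at h2
  simp only [eval_sub, eval_mul, eval_C, eval_pow, eval_X, eval_one] at h2
  have h3 : (n : F) * x ^ (n - 1) = 1 := by linear_combination h2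
  have h4 : x ^ n = x ^ (n - 1) * x := by
    rw [← pow_succ]; congr 1; omega
  have h5 : ((n : F) - 1) * x = - n := by
    have : (n : F) * (x + 1) = x := by
      have h6 : x ^ n = x + 1 := by linear_combination h1
      rw [← h6, h4, ← mul_assoc, h3, one_mul]
    linear_combination this
  have hn0 : (n : F) ≠ 0 := by
    intro h; rw [h, zero_mul] at h3; exact zero_ne_one h3
  refine ⟨h5, hn0, ?_, ?_⟩
  · intro h
    rw [h, mul_zero] at h5
    exact hn0 (neg_eq_zero.1 h5.symm)
  · intro h
    rw [h, zero_mul] at h5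
    exact hn0 (neg_eq_zero.1 h5.symm)

lemma sel_mult_le {F : Type*} [Field F] {n : ℕ} (hn : 2 ≤ n) (x : F) :
    (sel F n).rootMultiplicity x ≤ 2 := by
  by_contra hlt
  push Not at hlt
  obtain ⟨-, h1, h2, h3⟩ := sel_mult hn (by omega : 1 < (sel F n).rootMultiplicity x)
  have h0 : sel F n ≠ 0 := (sel_monic F hn).ne_zero
  have h4 : (X - C x) ^ 3 ∣ sel F n :=
    (le_rootMultiplicity_iff h0).1 hlt
  have h5 : (X - C x) ^ (3 - 1) ∣ derivative (sel F n) := pow_sub_one_dvd_derivative_of_pow_dvd h4
  have h6 : (X - C x) ^ (3 - 1 - 1) ∣ derivative (derivative (sel F n)) :=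
    pow_sub_one_dvd_derivative_of_pow_dvd h5
  norm_num at h6
  rw [dvd_iff_isRoot, sel_derivative, IsRoot.def] at h6
  simp only [derivative_sub, derivative_C_mul_X_pow, derivative_one, sub_zero, eval_mul, eval_C,
    eval_pow, eval_X] at h6
  have h7 : ((n - 1 : ℕ) : F) = (n : F) - 1 := by
    rw [Nat.cast_sub (by omega)]; simp
  rw [h7] at h6
  exact (mul_ne_zero (mul_ne_zero h1 h3) (pow_ne_zero _ h2)) h6

/-- At most one collision. -/
lemma sel_card {F : Type*} [Field F] [DecidableEq F] {n : ℕ} (hn : 2 ≤ n) (hs : (sel F n).Splits) :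
    n ≤ (sel F n).roots.toFinset.card + 1 := by
  have hcard : (sel F n).roots.card = n := by
    rw [← hs.natDegree_eq_card_roots, sel_natDegree F hn]
  have hsum := Multiset.toFinset_sum_count_eq (sel F n).roots
  rw [hcard] at hsum
  by_cases hex : ∃ x, 1 < (sel F n).rootMultiplicity x
  · obtain ⟨x, hx⟩ := hex
    have hle : ∀ a ∈ (sel F n).roots.toFinset,
        (sel F n).roots.count a ≤ 1 + if a = x then 1 else 0 := by
      intro a _
      rw [count_roots]
      by_cases hax : a = x
      · rw [if_pos hax]; exact sel_mult_le hn a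
      · rw [if_neg hax]
        by_contra hlt
        push Not at hlt
        obtain ⟨h1, -, -, -⟩ := sel_mult hn (by omega : 1 < (sel F n).rootMultiplicity a)
        obtain ⟨h2, -, -, h3⟩ := sel_mult hn hx
        apply hax
        have : ((n : F) - 1) * (a - x) = 0 := by linear_combination h1 - h2
        rcases mul_eq_zero.1 this with h | h
        · exact absurd h h3
        · exact sub_eq_zero.1 h
    have := Finset.sum_le_sum hle
    rw [hsum, Finset.sum_add_distrib, Finset.sum_ite_eq'] at this
    simp only [Finset.sum_const, smul_eq_mul, mul_one] at this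
    split_ifs at this <;> omega
  · push Not at hex
    have hle : ∀ a ∈ (sel F n).roots.toFinset, (sel F n).roots.count a ≤ 1 := by
      intro a _
      rw [count_roots]
      exact hex a
    have := Finset.sum_le_sum hle
    rw [hsum] at this
    simp only [Finset.sum_const, smul_eq_mul, mul_one] at this
    omega

end Pool.Agent.H11.Smyth
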