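import Pool.Agent.H11.Smyth.Selmer

open Polynomial NumberField

namespace Pool.Agent.H11.Smyth

section

variable {Ω : Type*} [Field Ω] [CharZero Ω] [IsAlgClosed Ω] [Algebra.IsAlgebraic ℚ Ω]

/-- The field generated by the roots. -/
noncomputable def LF (Ω : Type*) [Field Ω] [CharZero Ω] (n : ℕ) : IntermediateField ℚ Ω :=
  IntermediateField.adjoin ℚ ((sel ℚ n).rootSet Ω)

instance (n : ℕ) : FiniteDimensional ℚ (LF Ω n) := by
  unfold LF
  apply IntermediateField.finiteDimensional_adjoin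
  intro x _
  exact Algebra.IsIntegral.isIntegral x

instance (n : ℕ) : NumberField (LF Ω n) where

omit [Algebra.IsAlgebraic ℚ Ω] in
lemma LF_splittingField (n : ℕ) : (sel ℚ n).IsSplittingField ℚ (LF Ω n) :=
  IntermediateField.adjoin_rootSet_isSplittingField (IsAlgClosed.splits _)

lemma sel_irreducible {n : ℕ} (hn : 2 ≤ n) : Irreducible (sel ℚ n) :=
  X_pow_sub_X_sub_one_irreducible_rat (by omega)

omit [Algebra.IsAlgebraic ℚ Ω] in
lemma LF_galois {n : ℕ} (hn : 2 ≤ n) : IsGalois ℚ (LF Ω n) := by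
  have := LF_splittingField (Ω := Ω) n
  exact IsGalois.of_separable_splitting_field (sel_irreducible hn).separable

/-- A root of the Selmer polynomial, as an element of the ring of integers. -/
lemma root_integral {n : ℕ} (hn : 2 ≤ n) (L : Type*) [Field L] [CharZero L] (x : L)
    (hx : (sel L n).eval x = 0) : IsIntegral ℤ x := by
  refine ⟨sel ℤ n, sel_monic ℤ hn, ?_⟩
  rw [eval₂_eq_eval_map, sel_map]
  exact hx

omit [Algebra.IsAlgebraic ℚ Ω] in
lemma LF_splits_int {n : ℕ} (hn : 2 ≤ n) :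
    ((sel ℤ n).map (algebraMap ℤ (𝓞 (LF Ω n)))).Splits := by
  rw [sel_map]
  have h1 := (LF_splittingField (Ω := Ω) n).splits
  rw [sel_map] at h1
  apply Splits.of_splits_map_of_injective (i := algebraMap (𝓞 (LF Ω n)) (LF Ω n))
    (RingOfIntegers.coe_injective)
  · rw [sel_map]; exact h1
  · intro a ha
    rw [sel_map] at ha
    have h2 := (mem_roots'.1 ha).2
    have h3 := root_integral hn _ a h2
    exact ⟨⟨a, h3⟩, rfl⟩

lemma rootSet_card {n : ℕ} (hn : 2 ≤ n) (F : Type*) [Field F] [CharZero F]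
    (hs : (sel F n).Splits) : ((sel ℚ n).rootSet F).ncard = n := by
  classical
  rw [rootSet_def, Set.ncard_coe_finset, aroots_def, sel_map, Multiset.toFinset_card_of_nodup]
  · rw [← hs.natDegree_eq_card_roots, sel_natDegree F hn]
  · apply nodup_roots
    have := ((separable_map (algebraMap ℚ F)).mpr (sel_irreducible hn).separable)
    rwa [sel_map] at this

omit [Algebra.IsAlgebraic ℚ Ω] in
lemma morse_bound {n : ℕ} (hn : 2 ≤ n) (P : Ideal (𝓞 (LF Ω n))) [P.IsMaximal] :
    ((sel ℤ n).rootSet (𝓞 (LF Ω n))).ncard ≤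
      ((sel ℤ n).rootSet ((𝓞 (LF Ω n)) ⧸ P)).ncard + 1 := by
  classical
  have h1 : ((sel ℤ n).rootSet (𝓞 (LF Ω n))).ncard ≤ n := by
    rw [rootSet_def, Set.ncard_coe_finset, aroots_def, sel_map]
    refine (Multiset.toFinset_card_le _).trans ?_
    refine (card_roots' _).trans ?_
    rw [sel_natDegree _ hn]
  let _ := Ideal.Quotient.field P
  have h2 : (sel (𝓞 (LF Ω n) ⧸ P) n).Splits := by
    have := (LF_splits_int (Ω := Ω) hn).map (Ideal.Quotient.mk P)
    rwa [sel_map, sel_map] at this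
  have h3 := sel_card (F := 𝓞 (LF Ω n) ⧸ P) hn h2
  have h4 : ((sel ℤ n).rootSet ((𝓞 (LF Ω n)) ⧸ P)).ncard =
      (sel (𝓞 (LF Ω n) ⧸ P) n).roots.toFinset.card := by
    rw [rootSet_def, Set.ncard_coe_finset, aroots_def, sel_map]
  omega

lemma exists_inertia {n : ℕ} (hn : 2 ≤ n) :
    ∃ (P : Ideal (𝓞 (LF Ω n))) (_ : P.IsMaximal),
      ∃ g : Gal((LF Ω n)/ℚ), g ∈ P.inertia Gal((LF Ω n)/ℚ) ∧ g ≠ 1 := by
  have := LF_galois (Ω := Ω) hn
  have hfin : Module.finrank ℚ (LF Ω n) ≠ 1 := by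
    intro h
    have h1 : LF Ω n = ⊥ := IntermediateField.finrank_eq_one_iff.1 h
    have hs := (LF_splittingField (Ω := Ω) n).splits
    have h2 : (sel ℚ n).natDegree = 1 := by
      have h3 : (sel ℚ n).Splits := by
        have h4 : Function.Surjective (algebraMap ℚ (LF Ω n)) := by
          intro x
          have hx : (x : Ω) ∈ (⊥ : IntermediateField ℚ Ω) := by rw [← h1]; exact x.2
          obtain ⟨y, hy⟩ := IntermediateField.mem_bot.1 hx
          exact ⟨y, Subtype.ext hy⟩
        apply Splits.of_splits_map_of_injective (algebraMap ℚ (LF Ω n)).injective hs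
        intro a _
        exact h4 a
      exact h3.natDegree_eq_one_of_irreducible (sel_irreducible hn)
    rw [sel_natDegree _ hn] at h2
    omega
  obtain ⟨P, hP, hram⟩ := NumberField.exists_not_isUnramifiedAt_int (𝒪 := 𝓞 (LF Ω n)) hfin
  refine ⟨P, hP, ?_⟩
  by_contra hcon
  push Not at hcon
  apply hram
  have hPp : P.IsPrime := hP.isPrime
  have h5 : Nat.card (P.inertia Gal((LF Ω n)/ℚ)) = 1 := by
    have : P.inertia Gal((LF Ω n)/ℚ) = ⊥ := by
      rw [eq_bot_iff]
      intro g hg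
      rw [Subgroup.mem_bot]
      exact hcon g hg
    rw [this]
    simp
  rw [Ideal.card_inertia_eq_ramificationIdxIn (P.under ℤ) P,
    Ideal.ramificationIdxIn_eq_ramificationIdx (P.under ℤ) P Gal((LF Ω n)/ℚ)] at h5
  exact Ideal.ramificationIdx_eq_one_iff.1 h5

/-- The inclusion of the integral roots into the roots. -/
noncomputable def psi (Ω : Type*) [Field Ω] [CharZero Ω] {n : ℕ} (hn : 2 ≤ n) (s : (sel ℤ n).rootSet (𝓞 (LF Ω n))) :
    (sel ℚ n).rootSet Ω :=
  ⟨((s : 𝓞 (LF Ω n)) : LF Ω n), by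
    have h := s.2
    rw [mem_rootSet] at h ⊢
    refine ⟨(sel_monic ℚ hn).ne_zero, ?_⟩
    have h2 := h.2
    rw [aeval_def, eval₂_eq_eval_map, sel_map, sel_eval] at h2 ⊢
    have h3 := congrArg (fun z : 𝓞 (LF Ω n) => ((z : LF Ω n) : Ω)) h2
    simpa using h3⟩

omit [IsAlgClosed Ω] [Algebra.IsAlgebraic ℚ Ω] in
lemma psi_injective {n : ℕ} (hn : 2 ≤ n) : Function.Injective (psi Ω hn) := by
  intro s t h
  have h1 := congrArg Subtype.val h
  simp only [psi] at h1
  have h2 := Subtype.ext h1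
  exact Subtype.ext (RingOfIntegers.coe_injective h2)

omit [IsAlgClosed Ω] in
lemma psi_surjective {n : ℕ} (hn : 2 ≤ n) : Function.Surjective (psi Ω hn) := by
  intro x
  have hx := (mem_rootSet.1 x.2).2
  have hL : (x : Ω) ∈ LF Ω n := IntermediateField.subset_adjoin _ _ x.2
  have h1 : (sel (LF Ω n) n).eval (⟨x, hL⟩ : LF Ω n) = 0 := by
    rw [aeval_def, eval₂_eq_eval_map, sel_map, sel_eval] at hx
    rw [sel_eval]
    apply Subtype.ext
    simpa using hx
  have h2 := root_integral hn _ _ h1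
  refine ⟨⟨⟨⟨x, hL⟩, h2⟩, ?_⟩, rfl⟩
  rw [mem_rootSet]
  refine ⟨(sel_monic ℤ hn).ne_zero, ?_⟩
  rw [aeval_def, eval₂_eq_eval_map, sel_map, sel_eval]
  rw [sel_eval] at h1
  apply RingOfIntegers.coe_injective
  simpa using h1

/-- The Galois group of the Selmer polynomial of prime degree is the full symmetric group. -/
theorem sel_surj {p : ℕ} (hp : p.Prime) :
    Function.Surjective (MulAction.toPermHom (Ω ≃ₐ[ℚ] Ω) ((sel ℚ p).rootSet Ω)) := by
  classical
  have hn : 2 ≤ p := hp.two_le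
  have hgal := LF_galois (Ω := Ω) hn
  have : IsAlgClosure ℚ Ω := ⟨inferInstance, inferInstance⟩
  have hnormal : Normal ℚ Ω := IsAlgClosure.normal ℚ Ω
  let α := (sel ℚ p).rootSet Ω
  have hcard : Fintype.card α = p := by
    rw [← Nat.card_eq_fintype_card]
    exact rootSet_card hn Ω (IsAlgClosed.splits _)
  obtain ⟨P, hP, g, hg, hg1⟩ := exists_inertia (Ω := Ω) hn
  have hPp : P.IsPrime := hP.isPrime
  have hsw := Splits.toPermHom_apply_eq_one_or_isSwap_of_ncard_le_of_mem_inertia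
    (G := Gal((LF Ω p)/ℚ)) (LF_splits_int (Ω := Ω) hn) P (morse_bound hn P) g hg
  obtain ⟨gt, hgt⟩ := AlgEquiv.restrictNormalHom_surjective (F := ℚ) (K₁ := LF Ω p) Ω g
  have hact : ∀ s : (sel ℤ p).rootSet (𝓞 (LF Ω p)), psi Ω hn (g • s) = gt • psi Ω hn s := by
    intro s
    apply Subtype.ext
    have h1 := AlgEquiv.restrictNormal_commutes gt (LF Ω p) ((s : 𝓞 (LF Ω p)) : LF Ω p)
    have h2 : gt.restrictNormal (LF Ω p) = g := hgt
    rw [h2] at h1
    simp only [psi, rootSet.coe_smul]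
    exact h1
  have hinj := psi_injective (Ω := Ω) hn
  have hsurj := psi_surjective (Ω := Ω) hn
  -- the lift acts as a swap
  have hswap : (MulAction.toPermHom (Ω ≃ₐ[ℚ] Ω) ((sel ℚ p).rootSet Ω) gt).IsSwap := by
    rcases hsw with h1 | ⟨a, b, hab, h1⟩
    · exfalso
      apply hg1
      have hsf := (LF_splittingField (Ω := Ω) p).adjoin_rootSet
      have h2 : (g : (LF Ω p) →ₐ[ℚ] (LF Ω p)) = AlgHom.id ℚ _ := by
        apply AlgHom.ext_of_adjoin_eq_top hsf
        intro x hx
        have hx' : ((x : LF Ω p) : Ω) ∈ (sel ℚ p).rootSet Ω := by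
          rw [mem_rootSet] at hx ⊢
          refine ⟨hx.1, ?_⟩
          have h3 := congrArg (fun z : LF Ω p => (z : Ω)) hx.2
          rw [aeval_def, eval₂_eq_eval_map, sel_map, sel_eval] at h3 ⊢
          simpa using h3
        obtain ⟨s, hs⟩ := hsurj ⟨x, hx'⟩
        have hs' : (((s : 𝓞 (LF Ω p)) : LF Ω p) : Ω) = x :=
          congrArg (fun z : (sel ℚ p).rootSet Ω => (z : Ω)) hs
        have hs2 : ((s : 𝓞 (LF Ω p)) : LF Ω p) = x := Subtype.ext hs'
        have h3 : g • s = s := by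
          have := DFunLike.congr_fun h1 s
          simpa using this
        have h4 : g ((s : 𝓞 (LF Ω p)) : LF Ω p) = ((s : 𝓞 (LF Ω p)) : LF Ω p) := by
          have := congrArg (fun z : (sel ℤ p).rootSet (𝓞 (LF Ω p)) => ((z : 𝓞 (LF Ω p)) : LF Ω p)) h3
          exact this
        rw [hs2] at h4
        exact h4
      apply AlgEquiv.ext
      intro x
      exact DFunLike.congr_fun h2 x
    · refine ⟨psi Ω hn a, psi Ω hn b, fun h => hab (hinj h), ?_⟩
      apply Equiv.ext
      intro x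
      obtain ⟨s, rfl⟩ := hsurj x
      rw [hinj.swap_apply]
      have h3 : g • s = Equiv.swap a b s := by
        have := DFunLike.congr_fun h1 s
        simpa using this
      rw [← h3, hact]
      rfl
  -- transitivity
  let H := (MulAction.toPermHom (Ω ≃ₐ[ℚ] Ω) ((sel ℚ p).rootSet Ω)).range
  have htrans : ∀ x y : α, ∃ h : H, (h : Equiv.Perm α) x = y := by
    intro x y
    have hx := minpoly.eq_of_irreducible (sel_irreducible hn) (mem_rootSet.1 x.2).2
    have hy := minpoly.eq_of_irreducible (sel_irreducible hn) (mem_rootSet.1 y.2).2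
    obtain ⟨σ, hσ⟩ := (Normal.minpoly_eq_iff_mem_orbit Ω).mp (hy.symm.trans hx)
    exact ⟨⟨_, ⟨σ, rfl⟩⟩, Subtype.ext hσ⟩
  have hpre : MulAction.IsPretransitive H α := ⟨fun x y => by
    obtain ⟨h, hh⟩ := htrans x y
    exact ⟨h, hh⟩⟩
  have hne : Nonempty α := by
    rw [← Fintype.card_pos_iff, hcard]; exact hp.pos
  obtain ⟨x0⟩ := hne
  have hdvd : Fintype.card α ∣ Fintype.card H := by
    have h1 := MulAction.index_stabilizer_of_transitive H x0
    rw [← Nat.card_eq_fintype_card, ← Nat.card_eq_fintype_card, ← h1]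
    exact Subgroup.index_dvd_card _
  have htop : H = ⊤ := by
    apply Equiv.Perm.subgroup_eq_top_of_swap_mem (τ := MulAction.toPermHom _ _ gt)
    · rw [hcard]; exact hp
    · exact hdvd
    · exact ⟨gt, rfl⟩
    · exact hswap
  exact MonoidHom.range_eq_top.1 htop

end

end Pool.Agent.H11.Smyth
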